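import Pool.Agent.Lib.Ovals2801ND.H1Basic
import Mathlib.MeasureTheory.Integral.DivergenceTheorem
import Mathlib.MeasureTheory.Function.Floor
import Mathlib.Algebra.Order.ToIntervalMod
import Mathlib.Analysis.Calculus.Deriv.Mul
import Mathlib.Analysis.Normed.Lp.MeasurableSpace

/-!
# MP_2801bd_mp: periodic extension and hat functions
-/

open MeasureTheory Set Filter Topology

namespace Ovals2801ND

open Ovals2801

variable {nd : ℕ}

/-- The `2π`-periodic function which agrees with `f` on `[a₀, a₀ + 2π)`. -/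
noncomputable def perExt (a₀ : ℝ) (f : ℝ → (E4 nd)) (s : ℝ) : (E4 nd) := f (toIcoMod two_pi_pos' a₀ s)

theorem perExt_periodic (a₀ : ℝ) (f : ℝ → (E4 nd)) :
    Function.Periodic (perExt a₀ f) (2 * Real.pi) := fun s => by
  unfold perExt
  rw [toIcoMod_add_right]

theorem perExt_eq {a₀ : ℝ} (f : ℝ → (E4 nd)) {s : ℝ} (hs : s ∈ Ico a₀ (a₀ + 2 * Real.pi)) :
    perExt a₀ f s = f s := by
  unfold perExt
  rw [(toIcoMod_eq_self two_pi_pos').2 hs]

theorem measurable_toIcoMod' (a₀ : ℝ) : Measurable (toIcoMod two_pi_pos' a₀) := by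
  have h : toIcoMod two_pi_pos' a₀
      = fun b => a₀ + Int.fract ((b - a₀) / (2 * Real.pi)) * (2 * Real.pi) := by
    funext b
    exact toIcoMod_eq_add_fract_mul two_pi_pos' a₀ b
  rw [h]
  exact measurable_const.add ((((measurable_id.sub_const a₀).div_const _).fract).mul_const _)

theorem measurable_perExt (a₀ : ℝ) {f : ℝ → (E4 nd)} (hf : Measurable f) :
    Measurable (perExt a₀ f) := hf.comp (measurable_toIcoMod' a₀)

/-- A value of a periodic function at a point and at its representative. -/
theorem periodic_toIcoMod {α : Type*} {F : ℝ → α} (hF : Function.Periodic F (2 * Real.pi))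
    (a₀ s : ℝ) : F (toIcoMod two_pi_pos' a₀ s) = F s := by
  have h := self_sub_toIcoDiv_zsmul two_pi_pos' a₀ s
  rw [← h]
  exact hF.sub_zsmul_eq _

/-- Replace an integral over a period. -/
theorem integral_period_congr {G H : ℝ → ℝ} (hG : Function.Periodic G (2 * Real.pi)) (a₀ : ℝ)
    (h : ∀ s ∈ Ioo a₀ (a₀ + 2 * Real.pi), G s = H s) :
    ∫ s in (0:ℝ)..(2 * Real.pi), G s = ∫ s in a₀..(a₀ + 2 * Real.pi), H s := by
  have h1 := hG.intervalIntegral_add_eq 0 a₀
  rw [zero_add] at h1
  rw [h1]
  exact intervalIntegral.integral_congr_Ioo_of_le (by linarith [two_pi_pos']) h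

/-- The periodic extension of a bounded-derivative arc is an `H¹` loop. -/
theorem H1Loop.of_perExt (a₀ : ℝ) {f k : ℝ → (E4 nd)} (hk : Measurable k) {C : ℝ}
    (hC : ∀ s, ‖k s‖ ≤ C)
    (hf : ∀ b ∈ Icc a₀ (a₀ + 2 * Real.pi), f b - f a₀ = ∫ s in a₀..b, k s)
    (hend : f (a₀ + 2 * Real.pi) = f a₀) : H1Loop (perExt a₀ f) (perExt a₀ k) := by
  have hmeas := measurable_perExt a₀ hk
  refine H1Loop.of_period a₀ (perExt_periodic _ _) (perExt_periodic _ _)
    hmeas.aestronglyMeasurable ?_ ?_
  · have h1 : IntervalIntegrable (fun _ : ℝ => C ^ 2) volume a₀ (a₀ + 2 * Real.pi) :=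
      intervalIntegrable_const
    refine h1.mono_fun (hmeas.norm.pow_const 2).aestronglyMeasurable ?_
    refine Eventually.of_forall fun s => ?_
    show ‖‖perExt a₀ k s‖ ^ 2‖ ≤ ‖C ^ 2‖
    rw [Real.norm_of_nonneg (by positivity), Real.norm_of_nonneg (by positivity)]
    exact pow_le_pow_left₀ (norm_nonneg _) (hC _) 2
  · intro b hb
    have h0 : perExt a₀ f a₀ = f a₀ := perExt_eq f ⟨le_rfl, by linarith [two_pi_pos']⟩
    have h1 : perExt a₀ f b = f b := by
      rcases eq_or_lt_of_le hb.2 with h2 | h2
      · have h3 := perExt_periodic a₀ f a₀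
        rw [h2, h3, h0, hend]
      · exact perExt_eq f ⟨hb.1, h2⟩
    rw [h0, h1, hf b hb]
    apply intervalIntegral.integral_congr_Ioo_of_le hb.1
    intro s hs
    exact (perExt_eq k ⟨hs.1.le, by linarith [hs.2, hb.2]⟩).symm

/-- The hat function. -/
noncomputable def hat (m h s : ℝ) : ℝ := max 0 (h - |s - m|)

/-- The derivative of the hat function. -/
noncomputable def hatd (m h s : ℝ) : ℝ :=
  if s ≤ m - h then 0 else if s ≤ m then 1 else if s ≤ m + h then -1 else 0

theorem hat_continuous (m h : ℝ) : Continuous (hat m h) := by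
  unfold hat
  fun_prop

theorem hatd_measurable (m h : ℝ) : Measurable (hatd m h) := by
  unfold hatd
  refine Measurable.ite measurableSet_Iic measurable_const ?_
  refine Measurable.ite measurableSet_Iic measurable_const ?_
  exact Measurable.ite measurableSet_Iic measurable_const measurable_const

theorem hatd_abs_le (m h s : ℝ) : |hatd m h s| ≤ 1 := by
  unfold hatd
  split_ifs <;> simp

theorem hat_zero_left {m h s : ℝ} (hs : s ≤ m - h) : hat m h s = 0 := by
  unfold hat
  apply max_eq_left
  have := neg_abs_le (s - m)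
  have := le_abs_self (m - s)
  rw [abs_sub_comm] at this
  linarith

theorem hat_zero_right {m h s : ℝ} (hs : m + h ≤ s) : hat m h s = 0 := by
  unfold hat
  apply max_eq_left
  have := le_abs_self (s - m)
  linarith

theorem hat_left {m h s : ℝ} (hs : s ∈ Icc (m - h) m) : hat m h s = h + (s - m) := by
  unfold hat
  rw [abs_of_nonpos (by linarith [hs.2]), max_eq_right (by linarith [hs.1])]
  ring

theorem hat_right {m h s : ℝ} (hs : s ∈ Icc m (m + h)) : hat m h s = h - (s - m) := by
  unfold hat
  rw [abs_of_nonneg (by linarith [hs.1]), max_eq_right (by linarith [hs.2])]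

theorem hat_hasDerivAt {m h : ℝ} (hh : 0 < h) {s : ℝ} (h1 : s ≠ m - h) (h2 : s ≠ m)
    (h3 : s ≠ m + h) : HasDerivAt (hat m h) (hatd m h s) s := by
  unfold hatd
  rcases lt_or_gt_of_ne h1 with a1 | a1
  · rw [if_pos a1.le]
    refine (hasDerivAt_const s (0:ℝ)).congr_of_eventuallyEq ?_
    filter_upwards [isOpen_Iio.mem_nhds a1] with t ht
    exact hat_zero_left (le_of_lt ht)
  rw [if_neg (not_le.2 a1)]
  rcases lt_or_gt_of_ne h2 with a2 | a2
  · rw [if_pos a2.le]
    have d1 : HasDerivAt (fun s : ℝ => h + (s - m)) 1 s := by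
      simpa using ((hasDerivAt_id s).sub_const m).const_add h
    refine d1.congr_of_eventuallyEq ?_
    filter_upwards [isOpen_Ioo.mem_nhds (⟨a1, a2⟩ : s ∈ Ioo (m - h) m)] with t ht
    exact hat_left ⟨ht.1.le, ht.2.le⟩
  rw [if_neg (not_le.2 a2)]
  rcases lt_or_gt_of_ne h3 with a3 | a3
  · rw [if_pos a3.le]
    have d1 : HasDerivAt (fun s : ℝ => h - (s - m)) (-1) s := by
      simpa using ((hasDerivAt_id s).sub_const m).const_sub h
    refine d1.congr_of_eventuallyEq ?_
    filter_upwards [isOpen_Ioo.mem_nhds (⟨a2, a3⟩ : s ∈ Ioo m (m + h))] with t ht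
    exact hat_right ⟨ht.1.le, ht.2.le⟩
  rw [if_neg (not_le.2 a3)]
  refine (hasDerivAt_const s (0:ℝ)).congr_of_eventuallyEq ?_
  filter_upwards [isOpen_Ioi.mem_nhds a3] with t ht
  exact hat_zero_right (le_of_lt ht)

/-- The hat loop in the direction `w`. -/
noncomputable def hatLoop (m h : ℝ) (w : (E4 nd)) : ℝ → (E4 nd) :=
  perExt (m - Real.pi) (fun s => hat m h s • w)

/-- The derivative of the hat loop. -/
noncomputable def hatLoopD (m h : ℝ) (w : (E4 nd)) : ℝ → (E4 nd) :=
  perExt (m - Real.pi) (fun s => hatd m h s • w)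

theorem hatLoop_h1 {m h : ℝ} (hh : 0 < h) (hpi : h < Real.pi) (w : (E4 nd)) :
    H1Loop (hatLoop m h w) (hatLoopD m h w) := by
  have hmeas : Measurable fun s => hatd m h s • w := (hatd_measurable m h).smul_const w
  have hbd : ∀ s, ‖hatd m h s • w‖ ≤ ‖w‖ := by
    intro s
    rw [norm_smul]
    calc ‖hatd m h s‖ * ‖w‖ ≤ 1 * ‖w‖ :=
          mul_le_mul_of_nonneg_right (hatd_abs_le m h s) (norm_nonneg _)
      _ = ‖w‖ := one_mul _
  refine H1Loop.of_perExt (m - Real.pi) hmeas hbd ?_ ?_
  · intro b hb
    symm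
    apply integral_eq_of_hasDerivAt_off_countable (fun s => hat m h s • w)
      (fun s => hatd m h s • w) (s := {m - h, m, m + h})
    · exact (Set.toFinite _).countable
    · exact ((hat_continuous m h).smul continuous_const).continuousOn
    · intro x hx
      have hx2 := hx.2
      simp only [mem_insert_iff, mem_singleton_iff, not_or] at hx2
      exact HasDerivAt.smul_const (hat_hasDerivAt hh hx2.1 hx2.2.1 hx2.2.2) w
    · have h1 : IntervalIntegrable (fun _ : ℝ => ‖w‖) volume (m - Real.pi) b :=
        intervalIntegrable_const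
      refine h1.mono_fun hmeas.aestronglyMeasurable ?_
      refine Eventually.of_forall fun s => ?_
      rw [norm_norm]
      exact hbd s
  · rw [hat_zero_left (by linarith : m - Real.pi ≤ m - h),
      hat_zero_right (by linarith : m + h ≤ m - Real.pi + 2 * Real.pi)]

theorem hatLoop_support {m h : ℝ} {w : (E4 nd)} {α : Type*} {F : ℝ → α}
    (hF : Function.Periodic F (2 * Real.pi)) {s : ℝ} (hs : hatLoop m h w s ≠ 0) :
    ∃ t ∈ Icc (m - h) (m + h), F s = F t := by
  refine ⟨toIcoMod two_pi_pos' (m - Real.pi) s, ?_, (periodic_toIcoMod hF _ _).symm⟩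
  by_contra hcon
  apply hs
  unfold hatLoop perExt
  rw [mem_Icc, not_and_or, not_le, not_le] at hcon
  rcases hcon with h1 | h1
  · simp only [hat_zero_left h1.le, zero_smul]
  · simp only [hat_zero_right h1.le, zero_smul]

/-- Split an integral over a period into the two halves of the hat. -/
theorem integral_split {m h : ℝ} (hh : 0 < h) (hpi : h < Real.pi) {H H1 H2 : ℝ → ℝ}
    (z1 : ∀ s ∈ Ioo (m - Real.pi) (m - h), H s = 0)
    (z2 : ∀ s ∈ Ioo (m + h) (m - Real.pi + 2 * Real.pi), H s = 0)
    (e1 : ∀ s ∈ Ioo (m - h) m, H s = H1 s) (e2 : ∀ s ∈ Ioo m (m + h), H s = H2 s)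
    (i1 : IntervalIntegrable H1 volume (m - h) m)
    (i2 : IntervalIntegrable H2 volume m (m + h)) :
    ∫ s in (m - Real.pi)..(m - Real.pi + 2 * Real.pi), H s
      = (∫ s in (m - h)..m, H1 s) + ∫ s in m..(m + h), H2 s := by
  have a1 : m - Real.pi ≤ m - h := by linarith
  have a2 : m - h ≤ m := by linarith
  have a3 : m ≤ m + h := by linarith
  have a4 : m + h ≤ m - Real.pi + 2 * Real.pi := by linarith
  have j1 : IntervalIntegrable H volume (m - Real.pi) (m - h) := by
    have : IntervalIntegrable (fun _ : ℝ => (0:ℝ)) volume (m - Real.pi) (m - h) :=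
      intervalIntegrable_const
    refine this.congr_uIoo (fun s hs => ?_)
    rw [uIoo_of_le a1] at hs
    exact (z1 s hs).symm
  have j2 : IntervalIntegrable H volume (m - h) m := by
    refine i1.congr_uIoo (fun s hs => ?_)
    rw [uIoo_of_le a2] at hs
    exact (e1 s hs).symm
  have j3 : IntervalIntegrable H volume m (m + h) := by
    refine i2.congr_uIoo (fun s hs => ?_)
    rw [uIoo_of_le a3] at hs
    exact (e2 s hs).symm
  have j4 : IntervalIntegrable H volume (m + h) (m - Real.pi + 2 * Real.pi) := by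
    have : IntervalIntegrable (fun _ : ℝ => (0:ℝ)) volume (m + h) (m - Real.pi + 2 * Real.pi) :=
      intervalIntegrable_const
    refine this.congr_uIoo (fun s hs => ?_)
    rw [uIoo_of_le a4] at hs
    exact (z2 s hs).symm
  have b1 : ∫ s in (m - Real.pi)..(m - h), H s = 0 := by
    rw [intervalIntegral.integral_congr_Ioo_of_le a1 z1]
    simp
  have b4 : ∫ s in (m + h)..(m - Real.pi + 2 * Real.pi), H s = 0 := by
    rw [intervalIntegral.integral_congr_Ioo_of_le a4 z2]
    simp
  rw [← intervalIntegral.integral_add_adjacent_intervals j1 ((j2.trans j3).trans j4),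
    ← intervalIntegral.integral_add_adjacent_intervals (j2.trans j3) j4,
    ← intervalIntegral.integral_add_adjacent_intervals j2 j3, b1, b4,
    intervalIntegral.integral_congr_Ioo_of_le a2 e1,
    intervalIntegral.integral_congr_Ioo_of_le a3 e2]
  ring

/-- Pairing with the derivative of the hat loop. -/
theorem hatLoopD_pair {m h : ℝ} (hh : 0 < h) (hpi : h < Real.pi) (w : (E4 nd)) {ψ g : ℝ → (E4 nd)}
    (hL : H1Loop ψ g) :
    ∫ s in (0:ℝ)..(2 * Real.pi), inner ℝ (g s) (hatLoopD m h w s)
      = - inner ℝ (ψ (m - h) + ψ (m + h) - (2:ℝ) • ψ m) w := by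
  have hper : Function.Periodic (fun s => inner ℝ (g s) (hatLoopD m h w s)) (2 * Real.pi) := by
    intro s
    have h1 : hatLoopD m h w (s + 2 * Real.pi) = hatLoopD m h w s :=
      perExt_periodic (m - Real.pi) _ s
    simp only [hL.gper s, h1]
  rw [integral_period_congr hper (m - Real.pi) (H := fun s => inner ℝ (g s) (hatd m h s • w))
    (fun s hs => by
      simp only [hatLoopD]
      rw [perExt_eq _ ⟨hs.1.le, hs.2⟩])]
  have hin : ∀ a b, IntervalIntegrable (fun s => inner ℝ (g s) w) volume a b := by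
    intro a b
    have h1 := (innerSL ℝ w).integrable_comp (hL.intervalIntegrable a b).1
    have h2 := (innerSL ℝ w).integrable_comp (hL.intervalIntegrable a b).2
    refine ⟨?_, ?_⟩
    · refine h1.congr (Eventually.of_forall fun s => ?_)
      simp only [innerSL_apply_apply]
      exact real_inner_comm _ _
    · refine h2.congr (Eventually.of_forall fun s => ?_)
      simp only [innerSL_apply_apply]
      exact real_inner_comm _ _
  rw [integral_split hh hpi (H1 := fun s => inner ℝ (g s) w) (H2 := fun s => - inner ℝ (g s) w)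
    ?_ ?_ ?_ ?_ (hin _ _) (hin _ _).neg]
  · have hval : ∀ a b, ∫ s in a..b, inner ℝ (g s) w = inner ℝ (ψ b - ψ a) w := by
      intro a b
      have h1 := (innerSL ℝ w).intervalIntegral_comp_comm (hL.intervalIntegrable a b)
      simp only [innerSL_apply_apply] at h1
      rw [hL.ftc a b, real_inner_comm, ← h1]
      congr 1
      funext s
      exact real_inner_comm _ _
    rw [intervalIntegral.integral_neg, hval, hval, ← sub_eq_add_neg, ← inner_sub_left,
      ← inner_neg_left]
    congr 1
    rw [two_smul]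
    abel
  · intro s hs
    have : hatd m h s = 0 := by
      unfold hatd
      rw [if_pos hs.2.le]
    simp only [this, zero_smul, inner_zero_right]
  · intro s hs
    have : hatd m h s = 0 := by
      unfold hatd
      have h1 := hs.1
      rw [if_neg (by linarith), if_neg (by linarith), if_neg (by linarith)]
    simp only [this, zero_smul, inner_zero_right]
  · intro s hs
    have : hatd m h s = 1 := by
      unfold hatd
      rw [if_neg (by linarith [hs.1]), if_pos hs.2.le]
    simp only [this, one_smul]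
  · intro s hs
    have : hatd m h s = -1 := by
      unfold hatd
      rw [if_neg (by linarith [hs.1]), if_neg (by linarith [hs.1]), if_pos hs.2.le]
    simp only [this, neg_smul, one_smul, inner_neg_right]

/-- Pairing with the hat loop. -/
theorem hatLoop_pair {m h : ℝ} (hh : 0 < h) (hpi : h < Real.pi) (w : (E4 nd)) {Ψ : ℝ → (E4 nd)}
    (hper : Function.Periodic Ψ (2 * Real.pi)) (hc : ContinuousOn Ψ (Icc (m - h) (m + h))) :
    ∫ s in (0:ℝ)..(2 * Real.pi), inner ℝ (Ψ s) (hatLoop m h w s)
      = inner ℝ ((∫ s in (m - h)..m, (h + (s - m)) • Ψ s)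
          + ∫ s in m..(m + h), (h - (s - m)) • Ψ s) w := by
  have hper' : Function.Periodic (fun s => inner ℝ (Ψ s) (hatLoop m h w s)) (2 * Real.pi) := by
    intro s
    have h1 : hatLoop m h w (s + 2 * Real.pi) = hatLoop m h w s :=
      perExt_periodic (m - Real.pi) _ s
    simp only [hper s, h1]
  rw [integral_period_congr hper' (m - Real.pi) (H := fun s => inner ℝ (Ψ s) (hat m h s • w))
    (fun s hs => by
      simp only [hatLoop]
      rw [perExt_eq _ ⟨hs.1.le, hs.2⟩])]
  have c1 : ContinuousOn Ψ (Icc (m - h) m) := hc.mono (Icc_subset_Icc le_rfl (by linarith))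
  have c2 : ContinuousOn Ψ (Icc m (m + h)) := hc.mono (Icc_subset_Icc (by linarith) le_rfl)
  have i1 : IntervalIntegrable (fun s => (h + (s - m)) • Ψ s) volume (m - h) m := by
    apply ContinuousOn.intervalIntegrable
    rw [uIcc_of_le (by linarith)]
    exact ContinuousOn.smul (f := fun s : ℝ => h + (s - m)) (by fun_prop) c1
  have i2 : IntervalIntegrable (fun s => (h - (s - m)) • Ψ s) volume m (m + h) := by
    apply ContinuousOn.intervalIntegrable
    rw [uIcc_of_le (by linarith)]
    exact ContinuousOn.smul (f := fun s : ℝ => h - (s - m)) (by fun_prop) c2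
  have j1 : IntervalIntegrable (fun s => inner ℝ w ((h + (s - m)) • Ψ s)) volume (m - h) m := by
    apply ContinuousOn.intervalIntegrable
    rw [uIcc_of_le (by linarith)]
    exact continuousOn_const.inner (ContinuousOn.smul (f := fun s : ℝ => h + (s - m))
      (by fun_prop) c1)
  have j2 : IntervalIntegrable (fun s => inner ℝ w ((h - (s - m)) • Ψ s)) volume m (m + h) := by
    apply ContinuousOn.intervalIntegrable
    rw [uIcc_of_le (by linarith)]
    exact continuousOn_const.inner (ContinuousOn.smul (f := fun s : ℝ => h - (s - m))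
      (by fun_prop) c2)
  rw [integral_split hh hpi (H1 := fun s => inner ℝ w ((h + (s - m)) • Ψ s))
    (H2 := fun s => inner ℝ w ((h - (s - m)) • Ψ s)) ?_ ?_ ?_ ?_ j1 j2]
  · have v1 := (innerSL ℝ w).intervalIntegral_comp_comm i1
    have v2 := (innerSL ℝ w).intervalIntegral_comp_comm i2
    simp only [innerSL_apply_apply] at v1 v2
    rw [v1, v2, inner_add_left, real_inner_comm w, real_inner_comm w]
  · intro s hs
    simp only [hat_zero_left hs.2.le, zero_smul, inner_zero_right]
  · intro s hs
    simp only [hat_zero_right hs.1.le, zero_smul, inner_zero_right]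
  · intro s hs
    simp only [hat_left ⟨hs.1.le, hs.2.le⟩, inner_smul_right]
    rw [real_inner_comm]
  · intro s hs
    simp only [hat_right ⟨hs.1.le, hs.2.le⟩, inner_smul_right]
    rw [real_inner_comm]

end Ovals2801ND
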