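import Pool.Agent.Lib.Ovals2801ND.Defs

/-!
# MP_2801bd_mp: pointwise estimates for the norm, used for the Euler-Lagrange equation
-/

open MeasureTheory Set

namespace Ovals2801ND

open Ovals2801

variable {nd : ℕ}

/-- The direction of a vector (zero for the zero vector). -/
noncomputable def dirn (y : (E4 nd)) : (E4 nd) := ‖y‖⁻¹ • y

/-- The derivative of `dirn` at `x`, applied to `w`. -/
noncomputable def Hop (x w : (E4 nd)) : (E4 nd) := ‖x‖⁻¹ • (w - (inner ℝ x w / ‖x‖ ^ 2) • x)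

theorem force_eq (e : ℝ) (μ x : (E4 nd)) : force e μ x = -(e • x) + Hop x μ := rfl

theorem dirn_zero : dirn (0 : (E4 nd)) = 0 := by simp [dirn]

theorem norm_dirn_le (y : (E4 nd)) : ‖dirn y‖ ≤ 1 := by
  unfold dirn
  rw [norm_smul, norm_inv, norm_norm]
  by_cases h : ‖y‖ = 0
  · simp [h]
  · rw [inv_mul_cancel₀ h]

theorem norm_dirn {y : (E4 nd)} (hy : y ≠ 0) : ‖dirn y‖ = 1 := by
  unfold dirn
  rw [norm_smul, norm_inv, norm_norm, inv_mul_cancel₀ (norm_ne_zero_iff.2 hy)]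

theorem dirn_smul {x : (E4 nd)} {t : ℝ} (ht : 0 < t) : dirn (t • x) = dirn x := by
  unfold dirn
  rw [norm_smul, Real.norm_of_nonneg ht.le, mul_inv, smul_smul]
  congr 1
  field_simp

theorem inner_Hop (x a w : (E4 nd)) : inner ℝ a (Hop x w) = inner ℝ (Hop x a) w := by
  unfold Hop
  rw [inner_smul_right, inner_smul_left, inner_sub_right, inner_sub_left, inner_smul_right,
    inner_smul_left]
  simp only [conj_trivial]
  rw [real_inner_comm a x]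
  ring

theorem Hop_zero_right (x : (E4 nd)) : Hop x 0 = 0 := by simp [Hop]

theorem Hop_add (x v w : (E4 nd)) : Hop x (v + w) = Hop x v + Hop x w := by
  unfold Hop
  rw [inner_add_right, add_div, add_smul, ← smul_add]
  congr 1
  abel

theorem Hop_smul (x : (E4 nd)) (c : ℝ) (v : (E4 nd)) : Hop x (c • v) = c • Hop x v := by
  unfold Hop
  rw [inner_smul_right, mul_div_assoc, mul_smul, ← smul_sub, smul_comm]

theorem norm_Hop_le (x w : (E4 nd)) : ‖Hop x w‖ ≤ 2 * ‖w‖ / ‖x‖ := by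
  unfold Hop
  by_cases hx : x = 0
  · simp [hx]
  have hn : 0 < ‖x‖ := norm_pos_iff.2 hx
  rw [norm_smul, norm_inv, norm_norm, inv_mul_eq_div]
  apply div_le_div_of_nonneg_right _ hn.le
  have h1 : ‖(inner ℝ x w / ‖x‖ ^ 2) • x‖ ≤ ‖w‖ := by
    rw [norm_smul, norm_div, norm_pow, norm_norm]
    have h2 : ‖inner ℝ x w‖ ≤ ‖x‖ * ‖w‖ := norm_inner_le_norm x w
    rw [div_mul_eq_mul_div, div_le_iff₀ (by positivity)]
    calc ‖inner ℝ x w‖ * ‖x‖ ≤ (‖x‖ * ‖w‖) * ‖x‖ :=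
          mul_le_mul_of_nonneg_right h2 hn.le
      _ = ‖w‖ * ‖x‖ ^ 2 := by ring
  calc ‖w - (inner ℝ x w / ‖x‖ ^ 2) • x‖ ≤ ‖w‖ + ‖(inner ℝ x w / ‖x‖ ^ 2) • x‖ := norm_sub_le _ _
    _ ≤ 2 * ‖w‖ := by linarith

/-- The convexity of the norm, with a quadratic gain in the orthogonal directions. -/
theorem norm_add_ge {y : (E4 nd)} (hy : y ≠ 0) (c : (E4 nd)) :
    inner ℝ (dirn y) c + (‖c‖ ^ 2 - (inner ℝ (dirn y) c) ^ 2) / (2 * (‖y‖ + ‖c‖)) ≤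
      ‖y + c‖ - ‖y‖ := by
  have hn : 0 < ‖y‖ := norm_pos_iff.2 hy
  set a : ℝ := inner ℝ (dirn y) c with ha
  have ha1 : |a| ≤ ‖c‖ := by
    have h1 := abs_real_inner_le_norm (dirn y) c
    rw [norm_dirn hy, one_mul] at h1
    exact h1
  have ha2 : inner ℝ y c = ‖y‖ * a := by
    rw [ha, dirn, inner_smul_left, conj_trivial]
    field_simp
  have hN : ‖y + c‖ ^ 2 = (‖y‖ + a) ^ 2 + (‖c‖ ^ 2 - a ^ 2) := by
    rw [norm_add_sq_real, ha2]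
    ring
  have hP : 0 ≤ ‖c‖ ^ 2 - a ^ 2 := by
    have := sq_le_sq' (abs_le.1 ha1).1 (abs_le.1 ha1).2
    linarith
  have hN0 : 0 ≤ ‖y + c‖ := norm_nonneg _
  have hN1 : ‖y + c‖ ≤ ‖y‖ + ‖c‖ := norm_add_le _ _
  have hM : ‖y‖ + a ≤ ‖y + c‖ := by
    apply le_of_abs_le
    apply abs_le_of_sq_le_sq _ hN0
    linarith
  have hM1 : ‖y‖ + a ≤ ‖y‖ + ‖c‖ := by
    have := (abs_le.1 ha1).2
    linarith
  have hR : 0 < 2 * (‖y‖ + ‖c‖) := by positivity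
  have h1 : (‖c‖ ^ 2 - a ^ 2) / (2 * (‖y‖ + ‖c‖)) ≤ ‖y + c‖ - (‖y‖ + a) := by
    rw [div_le_iff₀ hR]
    have h2 : 0 ≤ (‖y + c‖ - (‖y‖ + a)) * (2 * (‖y‖ + ‖c‖) - (‖y + c‖ + (‖y‖ + a))) :=
      mul_nonneg (by linarith) (by linarith)
    nlinarith
  linarith

/-- The direction is Lipschitz away from zero. -/
theorem dirn_sub_le {x : (E4 nd)} (hx : x ≠ 0) (y : (E4 nd)) :
    ‖dirn y - dirn x‖ ≤ 2 * ‖y - x‖ / ‖x‖ := by
  have hn : 0 < ‖x‖ := norm_pos_iff.2 hx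
  by_cases hy : y = 0
  · rw [hy, dirn_zero, zero_sub, norm_neg, norm_dirn hx, zero_sub, norm_neg,
      mul_div_assoc, div_self hn.ne']
    norm_num
  have hm : 0 < ‖y‖ := norm_pos_iff.2 hy
  have h1 : dirn y - dirn x = (‖y‖⁻¹ - ‖x‖⁻¹) • y + ‖x‖⁻¹ • (y - x) := by
    unfold dirn
    rw [sub_smul, smul_sub]
    abel
  have h2 : ‖(‖y‖⁻¹ - ‖x‖⁻¹) • y‖ ≤ ‖y - x‖ / ‖x‖ := by
    rw [norm_smul, Real.norm_eq_abs]
    have h3 : ‖y‖⁻¹ - ‖x‖⁻¹ = (‖x‖ - ‖y‖) / (‖x‖ * ‖y‖) := by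
      field_simp
    rw [h3, abs_div, abs_of_pos (mul_pos hn hm), div_mul_eq_mul_div, div_le_div_iff₀ (by positivity)
      hn]
    have h4 : |‖x‖ - ‖y‖| ≤ ‖y - x‖ := by
      rw [norm_sub_rev y x]
      exact abs_norm_sub_norm_le x y
    calc |‖x‖ - ‖y‖| * ‖y‖ * ‖x‖ ≤ ‖y - x‖ * ‖y‖ * ‖x‖ := by gcongr
      _ = ‖y - x‖ * (‖x‖ * ‖y‖) := by ring
  have h5 : ‖‖x‖⁻¹ • (y - x)‖ = ‖y - x‖ / ‖x‖ := by
    rw [norm_smul, norm_inv, norm_norm, inv_mul_eq_div]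
  rw [h1]
  calc _ ≤ ‖(‖y‖⁻¹ - ‖x‖⁻¹) • y‖ + ‖‖x‖⁻¹ • (y - x)‖ := norm_add_le _ _
    _ ≤ ‖y - x‖ / ‖x‖ + ‖y - x‖ / ‖x‖ := by rw [h5]; linarith
    _ = 2 * ‖y - x‖ / ‖x‖ := by ring

/-- The second order expansion of the direction. -/
theorem dirn_taylor {x w : (E4 nd)} (hx : x ≠ 0) (hy : x + w ≠ 0) :
    ‖dirn (x + w) - dirn x - Hop x w‖ ≤ ‖w‖ ^ 2 * (1 / ‖x‖ ^ 2 + 2 / (‖x‖ * ‖x + w‖)) := by
  have hn : 0 < ‖x‖ := norm_pos_iff.2 hx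
  have hN : 0 < ‖x + w‖ := norm_pos_iff.2 hy
  set n := ‖x‖ with hnd
  set N := ‖x + w‖ with hNd
  have hsq : N ^ 2 = n ^ 2 + 2 * inner ℝ x w + ‖w‖ ^ 2 := norm_add_sq_real x w
  have hdiff : |n - N| ≤ ‖w‖ := by
    have := abs_norm_sub_norm_le x (x + w)
    rw [sub_add_cancel_left, norm_neg] at this
    exact this
  have e1 : dirn (x + w) - dirn x - Hop x w
      = ((n - N) / (n * N) + inner ℝ x w / n ^ 3) • x + ((n - N) / (n * N)) • w := by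
    unfold dirn Hop
    rw [← hnd, ← hNd, smul_add, smul_sub, smul_smul]
    have h2 : (n - N) / (n * N) = N⁻¹ - n⁻¹ := by
      field_simp
    have h3 : n⁻¹ * (inner ℝ x w / n ^ 2) = inner ℝ x w / n ^ 3 := by
      field_simp
    rw [h2, h3, add_smul, sub_smul, sub_smul]
    abel
  have e2 : (n - N) / (n * N) + inner ℝ x w / n ^ 3
      = ((N - n) ^ 2 * (N + 2 * n) - N * ‖w‖ ^ 2) / (2 * n ^ 3 * N) := by
    have h4 : inner ℝ x w = (N ^ 2 - n ^ 2 - ‖w‖ ^ 2) / 2 := by linarith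
    rw [h4]
    field_simp
    ring
  have h5 : (N - n) ^ 2 ≤ ‖w‖ ^ 2 := by
    rw [← sq_abs (N - n), abs_sub_comm]
    exact pow_le_pow_left₀ (abs_nonneg _) hdiff 2
  have h6 : ‖((n - N) / (n * N) + inner ℝ x w / n ^ 3) • x‖
      ≤ ‖w‖ ^ 2 * (1 / n ^ 2 + 1 / (n * N)) := by
    rw [norm_smul, Real.norm_eq_abs, e2, abs_div, abs_of_pos (by positivity : 0 < 2 * n ^ 3 * N),
      ← hnd, div_mul_eq_mul_div, div_le_iff₀ (by positivity)]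
    have h7 : |(N - n) ^ 2 * (N + 2 * n) - N * ‖w‖ ^ 2| ≤ ‖w‖ ^ 2 * (2 * N + 2 * n) := by
      rw [abs_le]
      constructor
      · have := mul_nonneg (sq_nonneg (N - n)) (by positivity : 0 ≤ N + 2 * n)
        have := mul_nonneg (sq_nonneg ‖w‖) (by positivity : 0 ≤ N + 2 * n)
        nlinarith
      · have := mul_le_mul_of_nonneg_right h5 (by positivity : 0 ≤ N + 2 * n)
        have := mul_nonneg hN.le (sq_nonneg ‖w‖)
        nlinarith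
    calc |(N - n) ^ 2 * (N + 2 * n) - N * ‖w‖ ^ 2| * n ≤ (‖w‖ ^ 2 * (2 * N + 2 * n)) * n :=
          mul_le_mul_of_nonneg_right h7 hn.le
      _ = ‖w‖ ^ 2 * (1 / n ^ 2 + 1 / (n * N)) * (2 * n ^ 3 * N) := by
          field_simp
  have h8 : ‖((n - N) / (n * N)) • w‖ ≤ ‖w‖ ^ 2 * (1 / (n * N)) := by
    rw [norm_smul, Real.norm_eq_abs, abs_div, abs_of_pos (by positivity : 0 < n * N)]
    have := mul_le_mul_of_nonneg_right hdiff (norm_nonneg w)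
    calc |n - N| / (n * N) * ‖w‖ = (|n - N| * ‖w‖) / (n * N) := by ring
      _ ≤ (‖w‖ * ‖w‖) / (n * N) := by gcongr
      _ = ‖w‖ ^ 2 * (1 / (n * N)) := by ring
  rw [e1]
  calc _ ≤ ‖((n - N) / (n * N) + inner ℝ x w / n ^ 3) • x‖ + ‖((n - N) / (n * N)) • w‖ :=
        norm_add_le _ _
    _ ≤ ‖w‖ ^ 2 * (1 / n ^ 2 + 1 / (n * N)) + ‖w‖ ^ 2 * (1 / (n * N)) := add_le_add h6 h8
    _ = ‖w‖ ^ 2 * (1 / n ^ 2 + 2 / (n * N)) := by ring

/-- Two different directions span a plane, and control the orthogonal parts. -/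
theorem two_dir {u₁ u₂ : (E4 nd)} (h1 : ‖u₁‖ = 1) (h2 : ‖u₂‖ = 1) (c : (E4 nd)) :
    (1 - |inner ℝ u₁ u₂|) * ‖c‖ ^ 2 ≤
      (‖c‖ ^ 2 - (inner ℝ u₁ c) ^ 2) + (‖c‖ ^ 2 - (inner ℝ u₂ c) ^ 2) := by
  set a : ℝ := inner ℝ u₁ c with ha
  set b : ℝ := inner ℝ u₂ c with hb
  set r : ℝ := inner ℝ u₁ u₂ with hr
  have e1 : ‖a • u₁ + b • u₂‖ ^ 2 = a ^ 2 + b ^ 2 + 2 * (a * b * r) := by
    rw [norm_add_sq_real, norm_smul, norm_smul, h1, h2, inner_smul_left, inner_smul_right, ← hr,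
      mul_one, mul_one, Real.norm_eq_abs, Real.norm_eq_abs, sq_abs, sq_abs]
    simp only [conj_trivial]
    ring
  have e2 : inner ℝ (a • u₁ + b • u₂) c = a ^ 2 + b ^ 2 := by
    rw [inner_add_left, inner_smul_left, inner_smul_left, ← ha, ← hb]
    simp only [conj_trivial]
    ring
  have e3 : (a ^ 2 + b ^ 2) ^ 2 ≤ (a ^ 2 + b ^ 2 + 2 * (a * b * r)) * ‖c‖ ^ 2 := by
    rw [← e1, ← e2, ← mul_pow, ← sq_abs]
    exact pow_le_pow_left₀ (abs_nonneg _) (abs_real_inner_le_norm _ _) 2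
  have e4 : 2 * (a * b * r) ≤ |r| * (a ^ 2 + b ^ 2) := by
    have h5 : 2 * (a * b) * r ≤ |2 * (a * b)| * |r| := by
      rw [← abs_mul]
      exact le_abs_self _
    have h6 : |2 * (a * b)| ≤ a ^ 2 + b ^ 2 := by
      rw [abs_le]
      constructor <;> nlinarith [sq_nonneg (a + b), sq_nonneg (a - b)]
    have h7 := mul_le_mul_of_nonneg_right h6 (abs_nonneg r)
    linarith
  have e5 : a ^ 2 + b ^ 2 ≤ (1 + |r|) * ‖c‖ ^ 2 := by
    by_cases h0 : a ^ 2 + b ^ 2 = 0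
    · rw [h0]
      positivity
    have hpos : 0 < a ^ 2 + b ^ 2 := lt_of_le_of_ne (by positivity) (Ne.symm h0)
    have h8 : (a ^ 2 + b ^ 2) ^ 2 ≤ ((1 + |r|) * ‖c‖ ^ 2) * (a ^ 2 + b ^ 2) := by
      refine e3.trans ?_
      have h9 : a ^ 2 + b ^ 2 + 2 * (a * b * r) ≤ (1 + |r|) * (a ^ 2 + b ^ 2) := by linarith
      calc (a ^ 2 + b ^ 2 + 2 * (a * b * r)) * ‖c‖ ^ 2
          ≤ ((1 + |r|) * (a ^ 2 + b ^ 2)) * ‖c‖ ^ 2 :=
            mul_le_mul_of_nonneg_right h9 (sq_nonneg _)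
        _ = ((1 + |r|) * ‖c‖ ^ 2) * (a ^ 2 + b ^ 2) := by ring
    rw [sq] at h8
    exact le_of_mul_le_mul_right h8 hpos
  linarith

/-- Changing the direction changes the orthogonal part little. -/
theorem orth_diff {u v : (E4 nd)} (hu : ‖u‖ ≤ 1) (hv : ‖v‖ ≤ 1) (c : (E4 nd)) :
    (inner ℝ u c) ^ 2 - (inner ℝ v c) ^ 2 ≤ 2 * ‖u - v‖ * ‖c‖ ^ 2 := by
  have e1 : (inner ℝ u c) ^ 2 - (inner ℝ v c) ^ 2
      = inner ℝ (u - v) c * inner ℝ (u + v) c := by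
    rw [inner_sub_left, inner_add_left]
    ring
  rw [e1]
  have h1 : |inner ℝ (u - v) c| ≤ ‖u - v‖ * ‖c‖ := abs_real_inner_le_norm _ _
  have h2 : |inner ℝ (u + v) c| ≤ 2 * ‖c‖ := by
    refine (abs_real_inner_le_norm _ _).trans ?_
    apply mul_le_mul_of_nonneg_right _ (norm_nonneg _)
    refine (norm_add_le _ _).trans ?_
    linarith
  calc inner ℝ (u - v) c * inner ℝ (u + v) c ≤ |inner ℝ (u - v) c| * |inner ℝ (u + v) c| := by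
        rw [← abs_mul]
        exact le_abs_self _
    _ ≤ (‖u - v‖ * ‖c‖) * (2 * ‖c‖) := mul_le_mul h1 h2 (abs_nonneg _) (by positivity)
    _ = 2 * ‖u - v‖ * ‖c‖ ^ 2 := by ring

end Ovals2801ND
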