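import Pool.Agent.Lib.Ovals2801ND.ELMedian
import Mathlib.MeasureTheory.Function.L2Space

/-!
# MP_2801bd_mp: the first variation of a minimiser
-/

open MeasureTheory Set Filter Topology

namespace Ovals2801ND

open Ovals2801

variable {nd : ℕ}

variable {ψ g ζ k v : ℝ → (E4 nd)} {e : ℝ}

/-- A test loop: an `H¹` loop supported away from the zeros of `ψ`. -/
structure IsTest (ψ v k : ℝ → (E4 nd)) : Prop where
  loop : H1Loop v k
  supp : ∃ d > 0, ∀ s, v s ≠ 0 → d ≤ ‖ψ s‖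

theorem H1Loop.bdd (h : H1Loop ψ g) : ∃ C : ℝ, 0 ≤ C ∧ ∀ s, ‖ψ s‖ ≤ C := by
  obtain ⟨C, hC⟩ := isCompact_Icc.exists_bound_of_continuousOn
    (h.continuous.continuousOn (s := Icc (0:ℝ) (2 * Real.pi)))
  refine ⟨C, (norm_nonneg _).trans (hC 0 ⟨le_rfl, two_pi_pos'.le⟩), fun s => ?_⟩
  obtain ⟨y, hy, hy'⟩ := h.per.exists_mem_Ico₀ two_pi_pos' s
  rw [hy']
  exact hC y ⟨hy.1, hy.2.le⟩

theorem h1_inner_intervalIntegrable (h : H1Loop ψ g) (h2 : H1Loop ζ k) (a b : ℝ) :
    IntervalIntegrable (fun s => inner ℝ (g s) (k s)) volume a b := by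
  have h1 : IntervalIntegrable (fun s => ‖g s‖ ^ 2 + ‖k s‖ ^ 2) volume a b :=
    (h.sq_intervalIntegrable a b).add (h2.sq_intervalIntegrable a b)
  refine h1.mono_fun (AEStronglyMeasurable.inner h.meas h2.meas).restrict ?_
  refine Eventually.of_forall fun s => ?_
  show ‖inner ℝ (g s) (k s)‖ ≤ ‖‖g s‖ ^ 2 + ‖k s‖ ^ 2‖
  rw [Real.norm_of_nonneg (by positivity : 0 ≤ ‖g s‖ ^ 2 + ‖k s‖ ^ 2)]
  refine (norm_inner_le_norm _ _).trans ?_
  nlinarith [sq_nonneg (‖g s‖ - ‖k s‖), sq_nonneg ‖g s‖, sq_nonneg ‖k s‖]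

theorem dir_add (h : H1Loop ψ g) (h2 : H1Loop ζ k) (τ : ℝ) :
    Dir (fun s => g s + τ • k s) = Dir g
      + 2 * τ * (∫ s in (0:ℝ)..(2 * Real.pi), inner ℝ (g s) (k s)) + τ ^ 2 * Dir k := by
  unfold Dir
  have e1 : (fun s => ‖g s + τ • k s‖ ^ 2)
      = fun s => (‖g s‖ ^ 2 + (2 * τ) * inner ℝ (g s) (k s)) + τ ^ 2 * ‖k s‖ ^ 2 := by
    funext s
    rw [norm_add_sq_real, inner_smul_right, norm_smul, mul_pow, Real.norm_eq_abs, sq_abs]
    ring
  have i1 := h.sq_intervalIntegrable 0 (2 * Real.pi)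
  have i2 := (h1_inner_intervalIntegrable h h2 0 (2 * Real.pi)).const_mul (2 * τ)
  have i3 := (h2.sq_intervalIntegrable 0 (2 * Real.pi)).const_mul (τ ^ 2)
  rw [e1, intervalIntegral.integral_add (i1.add i2) i3, intervalIntegral.integral_add i1 i2,
    intervalIntegral.integral_const_mul, intervalIntegral.integral_const_mul]

theorem mass_ge (hψ : Continuous ψ) (hv : Continuous v) (τ : ℝ) (c : (E4 nd)) :
    Mass ψ + 2 * τ * (∫ s in (0:ℝ)..(2 * Real.pi), inner ℝ (ψ s) (v s))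
      + 2 * inner ℝ (∫ s in (0:ℝ)..(2 * Real.pi), ψ s) c ≤
      Mass (fun s => ψ s + τ • v s + c) := by
  have i1 : IntervalIntegrable (fun s => ‖ψ s‖ ^ 2) volume 0 (2 * Real.pi) :=
    Continuous.intervalIntegrable (by fun_prop) _ _
  have i2 : IntervalIntegrable (fun s => (2 * τ) * inner ℝ (ψ s) (v s)) volume 0
      (2 * Real.pi) := Continuous.intervalIntegrable (by fun_prop) _ _
  have i3 : IntervalIntegrable (fun s => 2 * inner ℝ c (ψ s)) volume 0
      (2 * Real.pi) := Continuous.intervalIntegrable (by fun_prop) _ _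
  have i4 : IntervalIntegrable (fun s => ‖ψ s + τ • v s + c‖ ^ 2) volume 0 (2 * Real.pi) :=
    Continuous.intervalIntegrable (by fun_prop) _ _
  have h1 := intervalIntegral.integral_mono_on two_pi_pos'.le ((i1.add i2).add i3) i4
    (fun s _ => by
      have e1 : ψ s + τ • v s + c = ψ s + (τ • v s + c) := by abel
      rw [e1, norm_add_sq_real (ψ s), inner_add_right, inner_smul_right, real_inner_comm c (ψ s)]
      have := sq_nonneg ‖τ • v s + c‖
      have e2 : inner ℝ c (ψ s) = inner ℝ (ψ s) c := real_inner_comm _ _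
      linarith)
  rw [intervalIntegral.integral_add (i1.add i2) i3, intervalIntegral.integral_add i1 i2,
    intervalIntegral.integral_const_mul, intervalIntegral.integral_const_mul] at h1
  have h2 := (innerSL ℝ c).intervalIntegral_comp_comm
    (hψ.intervalIntegrable (μ := volume) 0 (2 * Real.pi))
  simp only [innerSL_apply_apply] at h2
  rw [h2, real_inner_comm] at h1
  exact h1

theorem eq_zero_of_quad {B C τ₀ : ℝ} (hτ : 0 < τ₀)
    (h : ∀ τ : ℝ, |τ| ≤ τ₀ → 0 ≤ 2 * τ * B + C * τ ^ 2) : B = 0 := by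
  by_contra hB
  have hB' : 0 < |B| := abs_pos.2 hB
  set t : ℝ := min τ₀ (|B| / (|C| + 1)) with ht
  have ht0 : 0 < t := lt_min hτ (by positivity)
  have ht1 : t ≤ τ₀ := min_le_left _ _
  have ht2 : |C| * t < |B| + |B| * 0 + 0 := by
    have h1 : t ≤ |B| / (|C| + 1) := min_le_right _ _
    rw [le_div_iff₀ (by positivity)] at h1
    nlinarith [abs_nonneg C]
  have hC : C * t ^ 2 ≤ |C| * t * t := by
    have := le_abs_self C
    have := mul_le_mul_of_nonneg_right this (sq_nonneg t)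
    linarith
  have hC2 : |C| * t * t < |B| * t := by
    have := mul_lt_mul_of_pos_right ht2 ht0
    linarith
  rcases lt_or_gt_of_ne hB with h1 | h1
  · have h2 := h t (by rw [abs_of_pos ht0]; exact ht1)
    rw [abs_of_neg h1] at hC2
    nlinarith
  · have h2 := h (-t) (by rw [abs_neg, abs_of_pos ht0]; exact ht1)
    rw [abs_of_pos h1] at hC2
    nlinarith

/-- The first variation along admissible perturbations. -/
theorem var_eq (he : 0 < e) (h : IsMin ψ g e) (ht : H1Loop v k) {τ₀ C : ℝ} (hτ₀ : 0 < τ₀)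
    (hc : ∀ τ : ℝ, |τ| ≤ τ₀ → ∃ c : (E4 nd), ‖c‖ ≤ C * τ ^ 2 ∧
      Adm (fun s => ψ s + τ • v s + c)) :
    ∫ s in (0:ℝ)..(2 * Real.pi), inner ℝ (g s) (k s)
      = e * ∫ s in (0:ℝ)..(2 * Real.pi), inner ℝ (ψ s) (v s) := by
  have hψ := h.loop.continuous
  have hv := ht.continuous
  set B : ℝ := (∫ s in (0:ℝ)..(2 * Real.pi), inner ℝ (g s) (k s))
      - e * ∫ s in (0:ℝ)..(2 * Real.pi), inner ℝ (ψ s) (v s) with hB
  have key : B = 0 := by
    refine eq_zero_of_quad (C := Dir k + 2 * e * ‖∫ s in (0:ℝ)..(2 * Real.pi), ψ s‖ * C) hτ₀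
      (fun τ hτ => ?_)
    obtain ⟨c, hcn, hadm⟩ := hc τ hτ
    have hL : H1Loop (fun s => ψ s + τ • v s + c) (fun s => g s + τ • k s) :=
      (h.loop.add (ht.smul τ)).const_add c
    have h1 := h.le _ _ hL hadm
    rw [dir_add h.loop ht, h.eq] at h1
    have h2 := mul_le_mul_of_nonneg_left (mass_ge hψ hv τ c) he.le
    have h3 : - (‖∫ s in (0:ℝ)..(2 * Real.pi), ψ s‖ * (C * τ ^ 2))
        ≤ inner ℝ (∫ s in (0:ℝ)..(2 * Real.pi), ψ s) c := by
      have h4 := (abs_le.1 (abs_real_inner_le_norm (∫ s in (0:ℝ)..(2 * Real.pi), ψ s) c)).1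
      have h5 := mul_le_mul_of_nonneg_left hcn
        (norm_nonneg (∫ s in (0:ℝ)..(2 * Real.pi), ψ s))
      linarith
    have h6 := mul_le_mul_of_nonneg_left h3 (by positivity : 0 ≤ 2 * e)
    rw [hB]
    nlinarith
  rw [hB] at key
  linarith

theorem IsTest.hop_continuous (ht : IsTest ψ v k) (hψ : Continuous ψ) :
    Continuous (fun s => Hop (ψ s) (v s)) := by
  have hv := ht.loop.continuous
  obtain ⟨d, hd, hsupp⟩ := ht.supp
  rw [continuous_iff_continuousAt]
  intro s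
  by_cases hs : ψ s = 0
  · have h1 : ∀ᶠ t in 𝓝 s, Hop (ψ t) (v t) = 0 := by
      have h2 : ∀ᶠ t in 𝓝 s, ‖ψ t‖ < d := by
        have : ContinuousAt (fun t => ‖ψ t‖) s := by fun_prop
        apply this.eventually_lt_const
        show ‖ψ s‖ < d
        rw [hs, norm_zero]
        exact hd
      filter_upwards [h2] with t ht'
      have h3 : v t = 0 := by
        by_contra hcon
        linarith [hsupp t hcon]
      rw [h3, Hop_zero_right]
    exact (continuousAt_const (y := (0 : (E4 nd)))).congr (h1.mono fun t ht' => ht'.symm)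
  · have hn : ‖ψ s‖ ≠ 0 := norm_ne_zero_iff.2 hs
    unfold Hop
    have c1 : ContinuousAt (fun t => ‖ψ t‖⁻¹) s := by
      have : ContinuousAt (fun t => ‖ψ t‖) s := by fun_prop
      exact this.inv₀ hn
    have c2 : ContinuousAt (fun t => inner ℝ (ψ t) (v t) / ‖ψ t‖ ^ 2) s := by
      apply ContinuousAt.div
      · fun_prop
      · fun_prop
      · exact pow_ne_zero 2 hn
    exact c1.smul (hv.continuousAt.sub (c2.smul hψ.continuousAt))

/-- The shift needed to make `ψ + τ v` admissible is quadratic in `τ`. -/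
theorem small_shift (h : H1Loop ψ g) (ha : Adm ψ) (ht : IsTest ψ v k)
    (hker : ∫ s in (0:ℝ)..(2 * Real.pi), Hop (ψ s) (v s) = 0) {lam : ℝ} (hlam : 0 < lam)
    (hL : ∀ c : (E4 nd), lam * ‖c‖ ^ 2 ≤
      ∫ s in (0:ℝ)..(2 * Real.pi), orthPart ψ (fun s => dirn (ψ s)) c s) :
    ∃ τ₀ > 0, ∃ C : ℝ, ∀ τ : ℝ, |τ| ≤ τ₀ → ∃ c : (E4 nd), ‖c‖ ≤ C * τ ^ 2 ∧
      Adm (fun s => ψ s + τ • v s + c) := by
  have hψ := h.continuous
  have hv := ht.loop.continuous
  obtain ⟨d, hd, hsupp⟩ := ht.supp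
  obtain ⟨Cv, hCv0, hCv⟩ := ht.loop.bdd
  obtain ⟨M₀, hM₀, hMψ⟩ := h.bdd
  set M : ℝ := M₀ + Cv with hMd
  have hM0 : 0 ≤ M := by positivity
  set C₁ : ℝ := 2 * Real.pi * (5 * Cv ^ 2 / d ^ 2) with hC₁
  have hC₁0 : 0 ≤ C₁ := by positivity
  set τ₀ : ℝ := min (min 1 (d / (2 * (Cv + 1))))
    (min (lam * d / (16 * Real.pi * (Cv + 1))) (lam / (8 * (C₁ + 1)))) with hτ₀
  have hτ₀0 : 0 < τ₀ := by
    refine lt_min (lt_min one_pos (by positivity)) (lt_min (by positivity) (by positivity))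
  refine ⟨τ₀, hτ₀0, 8 * C₁ * M / lam, fun τ hτ => ?_⟩
  have t1 : |τ| ≤ 1 := hτ.trans ((min_le_left _ _).trans (min_le_left _ _))
  have t2 : |τ| * Cv ≤ d / 2 := by
    have h1 : |τ| ≤ d / (2 * (Cv + 1)) := hτ.trans ((min_le_left _ _).trans (min_le_right _ _))
    rw [le_div_iff₀ (by positivity)] at h1
    nlinarith [abs_nonneg τ]
  have t3 : 16 * Real.pi * (|τ| * Cv) ≤ lam * d := by
    have h1 : |τ| ≤ lam * d / (16 * Real.pi * (Cv + 1)) :=
      hτ.trans ((min_le_right _ _).trans (min_le_left _ _))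
    rw [le_div_iff₀ (by positivity)] at h1
    have h2 : 0 ≤ |τ| * (16 * Real.pi) := by positivity
    nlinarith
  have t4 : 4 * C₁ * τ ^ 2 ≤ lam / 2 := by
    have h1 : |τ| ≤ lam / (8 * (C₁ + 1)) :=
      hτ.trans ((min_le_right _ _).trans (min_le_right _ _))
    rw [le_div_iff₀ (by positivity)] at h1
    have h2 : τ ^ 2 ≤ |τ| := by
      rw [← sq_abs]
      nlinarith [abs_nonneg τ]
    have h3 : C₁ * τ ^ 2 ≤ (C₁ + 1) * |τ| := by
      have := mul_le_mul_of_nonneg_left h2 hC₁0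
      nlinarith [abs_nonneg τ]
    linarith
  set y : ℝ → (E4 nd) := fun s => ψ s + τ • v s with hyd
  have hy : Continuous y := by fun_prop
  have hτv : ∀ s, ‖τ • v s‖ ≤ |τ| * Cv := by
    intro s
    rw [norm_smul, Real.norm_eq_abs]
    exact mul_le_mul_of_nonneg_left (hCv s) (abs_nonneg _)
  have hnz : ∀ s, v s ≠ 0 → ψ s ≠ 0 := by
    intro s hs hs0
    have := hsupp s hs
    rw [hs0, norm_zero] at this
    linarith
  have hylow : ∀ s, v s ≠ 0 → ‖ψ s‖ / 2 ≤ ‖y s‖ := by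
    intro s hs
    have h1 := hsupp s hs
    have h2 := norm_sub_norm_le (ψ s) (-(τ • v s))
    rw [norm_neg, sub_neg_eq_add] at h2
    have h3 := hτv s
    have h4 : ‖ψ s‖ - ‖τ • v s‖ ≤ ‖y s‖ := h2
    linarith
  have hz : ∀ s, y s = 0 ↔ ψ s = 0 := by
    intro s
    by_cases hs : v s = 0
    · simp only [hyd, hs, smul_zero, add_zero]
    · have h1 := hsupp s hs
      have h2 := hylow s hs
      have h3 : ψ s ≠ 0 := hnz s hs
      have h4 : y s ≠ 0 := by
        intro h5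
        rw [h5, norm_zero] at h2
        linarith
      simp only [h3, h4]
  have hM : ∀ s, ‖y s‖ ≤ M := by
    intro s
    refine (norm_add_le _ _).trans ?_
    have h1 := hτv s
    have h2 := hMψ s
    have h3 : |τ| * Cv ≤ 1 * Cv := mul_le_mul_of_nonneg_right t1 hCv0
    linarith
  -- the change of the direction
  have hdir : ∀ s, ‖dirn (y s) - dirn (ψ s)‖ ≤ 2 * (|τ| * Cv) / d := by
    intro s
    by_cases hs : v s = 0
    · have : y s = ψ s := by simp only [hyd, hs, smul_zero, add_zero]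
      rw [this, sub_self, norm_zero]
      positivity
    · have h1 := hsupp s hs
      have h2 := dirn_sub_le (hnz s hs) (y s)
      have h3 : y s - ψ s = τ • v s := by simp only [hyd, add_sub_cancel_left]
      rw [h3] at h2
      refine h2.trans ?_
      have h4 := hτv s
      exact div_le_div₀ (by positivity) (by linarith) hd h1
  have htay : ∀ s, ‖dirn (y s) - dirn (ψ s) - τ • Hop (ψ s) (v s)‖
      ≤ 5 * Cv ^ 2 / d ^ 2 * τ ^ 2 := by
    intro s
    by_cases hs : v s = 0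
    · have : y s = ψ s := by simp only [hyd, hs, smul_zero, add_zero]
      rw [this, hs, Hop_zero_right, smul_zero, sub_self, sub_zero, norm_zero]
      positivity
    · have h1 := hsupp s hs
      have hn := hnz s hs
      have hn' : y s ≠ 0 := fun h5 => hn ((hz s).1 h5)
      have h2 := dirn_taylor hn hn'
      rw [Hop_smul] at h2
      refine h2.trans ?_
      have h4 := hτv s
      have h5 : ‖τ • v s‖ ^ 2 ≤ (|τ| * Cv) ^ 2 := pow_le_pow_left₀ (norm_nonneg _) h4 2
      have h6 : ‖ψ s‖ / 2 ≤ ‖ψ s + τ • v s‖ := hylow s hs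
      have h7 : 1 / ‖ψ s‖ ^ 2 ≤ 1 / d ^ 2 := by
        apply one_div_le_one_div_of_le (by positivity)
        exact pow_le_pow_left₀ hd.le h1 2
      have h8 : 2 / (‖ψ s‖ * ‖ψ s + τ • v s‖) ≤ 4 / d ^ 2 := by
        have h9 : d ^ 2 / 2 ≤ ‖ψ s‖ * ‖ψ s + τ • v s‖ := by
          have h10 : d * (d / 2) ≤ ‖ψ s‖ * ‖ψ s + τ • v s‖ :=
            mul_le_mul h1 (by linarith) (by positivity) (norm_nonneg _)
          linarith
        calc 2 / (‖ψ s‖ * ‖ψ s + τ • v s‖) ≤ 2 / (d ^ 2 / 2) :=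
              div_le_div_of_nonneg_left (by norm_num) (by positivity) h9
          _ = 4 / d ^ 2 := by
              field_simp
              norm_num
      calc ‖τ • v s‖ ^ 2 * (1 / ‖ψ s‖ ^ 2 + 2 / (‖ψ s‖ * ‖ψ s + τ • v s‖))
          ≤ (|τ| * Cv) ^ 2 * (1 / d ^ 2 + 4 / d ^ 2) :=
            mul_le_mul h5 (add_le_add h7 h8) (by positivity) (by positivity)
        _ = 5 * Cv ^ 2 / d ^ 2 * τ ^ 2 := by
            rw [mul_pow, sq_abs]
            ring
  have hHc := ht.hop_continuous hψ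
  have hδ : ‖(∫ s in (0:ℝ)..(2 * Real.pi), dirn (y s)) - ∫ s in (0:ℝ)..(2 * Real.pi), dirn (ψ s)‖
      ≤ C₁ * τ ^ 2 := by
    have i1 := dirn_intervalIntegrable hy 0 (2 * Real.pi)
    have i2 := dirn_intervalIntegrable hψ 0 (2 * Real.pi)
    have i3 : IntervalIntegrable (fun s => τ • Hop (ψ s) (v s)) volume 0 (2 * Real.pi) :=
      Continuous.intervalIntegrable (by fun_prop) _ _
    have e1 : (∫ s in (0:ℝ)..(2 * Real.pi), dirn (y s))
        - ∫ s in (0:ℝ)..(2 * Real.pi), dirn (ψ s)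
        = ∫ s in (0:ℝ)..(2 * Real.pi), (dirn (y s) - dirn (ψ s) - τ • Hop (ψ s) (v s)) := by
      rw [intervalIntegral.integral_sub (i1.sub i2) i3, intervalIntegral.integral_sub i1 i2,
        intervalIntegral.integral_smul, hker, smul_zero, sub_zero]
    rw [e1]
    have h1 := intervalIntegral.norm_integral_le_of_norm_le_const
      (a := (0:ℝ)) (b := 2 * Real.pi)
      (f := fun s => dirn (y s) - dirn (ψ s) - τ • Hop (ψ s) (v s))
      (C := 5 * Cv ^ 2 / d ^ 2 * τ ^ 2) (fun s _ => htay s)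
    refine h1.trans (le_of_eq ?_)
    rw [sub_zero, abs_of_pos two_pi_pos', hC₁]
    ring
  obtain ⟨c, hc1, hc2⟩ := exists_adm_shift hy
  refine ⟨c, ?_, hc1⟩
  -- coercivity for `y`
  have hco : lam / 2 * ‖c‖ ^ 2 ≤
      ∫ s in (0:ℝ)..(2 * Real.pi), orthPart ψ (fun s => dirn (y s)) c s := by
    have i1 := orthPart_intervalIntegrable hψ (measurable_dirn hy)
      (fun s => norm_dirn_le (y s)) c 0 (2 * Real.pi)
    have i2 := orthPart_intervalIntegrable hψ (measurable_dirn hψ)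
      (fun s => norm_dirn_le (ψ s)) c 0 (2 * Real.pi)
    have h1 := intervalIntegral.integral_mono_on two_pi_pos'.le
      (i2.sub (intervalIntegrable_const (c := 2 * (2 * (|τ| * Cv) / d) * ‖c‖ ^ 2))) i1
      (fun s _ => by
        unfold orthPart
        by_cases hs : ψ s = 0
        · simp only [if_pos hs]
          have : 0 ≤ 2 * (2 * (|τ| * Cv) / d) * ‖c‖ ^ 2 := by positivity
          linarith
        · simp only [if_neg hs]
          have h2 := orth_diff (norm_dirn_le (y s)) (norm_dirn_le (ψ s)) c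
          have h3 := mul_le_mul_of_nonneg_right (hdir s) (sq_nonneg ‖c‖)
          linarith)
    rw [intervalIntegral.integral_sub i2 intervalIntegrable_const,
      intervalIntegral.integral_const, smul_eq_mul, sub_zero] at h1
    have h2 := hL c
    have h3 : 2 * Real.pi * (2 * (2 * (|τ| * Cv) / d) * ‖c‖ ^ 2) ≤ lam / 2 * ‖c‖ ^ 2 := by
      have h4 : 2 * Real.pi * (2 * (2 * (|τ| * Cv) / d)) ≤ lam / 2 := by
        have h5 : 2 * Real.pi * (2 * (2 * (|τ| * Cv) / d))
            = (16 * Real.pi * (|τ| * Cv)) / d / 2 := by ring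
        rw [h5]
        have h6 : (16 * Real.pi * (|τ| * Cv)) / d ≤ lam := by
          rw [div_le_iff₀ hd]
          exact t3
        linarith
      calc 2 * Real.pi * (2 * (2 * (|τ| * Cv) / d) * ‖c‖ ^ 2)
          = 2 * Real.pi * (2 * (2 * (|τ| * Cv) / d)) * ‖c‖ ^ 2 := by ring
        _ ≤ lam / 2 * ‖c‖ ^ 2 := mul_le_mul_of_nonneg_right h4 (sq_nonneg _)
    linarith
  have hmb := median_bound hψ hy ha hz hM hδ hco hc2
  -- conclusion
  have h1 : lam / 2 * ‖c‖ ≤ 2 * (C₁ * τ ^ 2) * M + lam / 4 * ‖c‖ := by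
    have h2 : 2 * (C₁ * τ ^ 2) * ‖c‖ ≤ lam / 4 * ‖c‖ := by
      apply mul_le_mul_of_nonneg_right _ (norm_nonneg _)
      linarith
    linarith
  have h3 : lam * ‖c‖ ≤ 8 * C₁ * M * τ ^ 2 := by linarith
  rw [div_mul_eq_mul_div, le_div_iff₀ hlam, mul_comm]
  exact h3

end Ovals2801ND
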