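import Pool.Agent.Lib.Ovals2801ND.H1Basic
import Pool.Agent.Lib.Ovals2801ND.Compact
import Pool.Agent.Lib.Ovals2801ND.Median

/-!
# MP_2801bd_mp: existence of a minimiser (module M1)
-/

open MeasureTheory Set Filter

namespace Ovals2801ND

open Ovals2801

variable {nd : ℕ}

theorem exi_tendsto_norm {ψ : ℕ → ℝ → (E4 nd)} {ψ' : ℝ → (E4 nd)} (hc : ∀ n, Continuous (ψ n))
    (h : TendstoUniformly ψ ψ' atTop) (c : (E4 nd)) :
    Tendsto (fun n => ∫ s in (0:ℝ)..(2 * Real.pi), ‖ψ n s + c‖) atTop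
      (nhds (∫ s in (0:ℝ)..(2 * Real.pi), ‖ψ' s + c‖)) := by
  have hc' : Continuous ψ' := h.continuous (Frequently.of_forall hc)
  rw [Metric.tendstoUniformly_iff] at h
  rw [Metric.tendsto_atTop]
  intro ε hε
  have hδ : 0 < ε / (2 * Real.pi + 1) := by positivity
  obtain ⟨N, hN⟩ := eventually_atTop.mp (h _ hδ)
  refine ⟨N, fun n hn => ?_⟩
  have i1 : IntervalIntegrable (fun s => ‖ψ n s + c‖) volume 0 (2 * Real.pi) :=
    ((hc n).add continuous_const).norm.intervalIntegrable _ _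
  have i2 : IntervalIntegrable (fun s => ‖ψ' s + c‖) volume 0 (2 * Real.pi) :=
    (hc'.add continuous_const).norm.intervalIntegrable _ _
  rw [dist_eq_norm, ← intervalIntegral.integral_sub i1 i2]
  have h1 : ‖∫ s in (0:ℝ)..(2 * Real.pi), (‖ψ n s + c‖ - ‖ψ' s + c‖)‖ ≤
      (ε / (2 * Real.pi + 1)) * |2 * Real.pi - 0| := by
    apply intervalIntegral.norm_integral_le_of_norm_le_const
    intro s _
    have h2 := hN n hn s
    rw [dist_eq_norm] at h2
    calc ‖‖ψ n s + c‖ - ‖ψ' s + c‖‖ ≤ ‖(ψ n s + c) - (ψ' s + c)‖ :=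
          abs_norm_sub_norm_le _ _
      _ = ‖ψ' s - ψ n s‖ := by rw [add_sub_add_right_eq_sub, norm_sub_rev]
      _ ≤ _ := h2.le
  refine h1.trans_lt ?_
  rw [sub_zero, abs_of_pos two_pi_pos', div_mul_eq_mul_div, div_lt_iff₀ (by positivity)]
  nlinarith [two_pi_pos']

theorem exi_tendsto_mass {ψ : ℕ → ℝ → (E4 nd)} {ψ' : ℝ → (E4 nd)} (hc : ∀ n, Continuous (ψ n))
    (h : TendstoUniformly ψ ψ' atTop) :
    Tendsto (fun n => Mass (ψ n)) atTop (nhds (Mass ψ')) := by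
  have hc' : Continuous ψ' := h.continuous (Frequently.of_forall hc)
  obtain ⟨K, hK⟩ : ∃ K, ∀ s ∈ Icc (0:ℝ) (2 * Real.pi), ‖ψ' s‖ ≤ K :=
    isCompact_Icc.exists_bound_of_continuousOn hc'.continuousOn
  have hK0 : 0 ≤ K := (norm_nonneg _).trans (hK 0 ⟨le_refl _, two_pi_pos'.le⟩)
  rw [Metric.tendstoUniformly_iff] at h
  unfold Mass
  rw [Metric.tendsto_atTop]
  intro ε hε
  set δ := min 1 (ε / ((2 * K + 1) * (2 * Real.pi) + 1)) with hδd
  have hδ : 0 < δ := by positivity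
  obtain ⟨N, hN⟩ := eventually_atTop.mp (h _ hδ)
  refine ⟨N, fun n hn => ?_⟩
  have i1 : IntervalIntegrable (fun s => ‖ψ n s‖ ^ 2) volume 0 (2 * Real.pi) :=
    ((hc n).norm.pow 2).intervalIntegrable _ _
  have i2 : IntervalIntegrable (fun s => ‖ψ' s‖ ^ 2) volume 0 (2 * Real.pi) :=
    (hc'.norm.pow 2).intervalIntegrable _ _
  rw [dist_eq_norm, ← intervalIntegral.integral_sub i1 i2]
  have h1 : ‖∫ s in (0:ℝ)..(2 * Real.pi), (‖ψ n s‖ ^ 2 - ‖ψ' s‖ ^ 2)‖ ≤
      (δ * (2 * K + 1)) * |2 * Real.pi - 0| := by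
    apply intervalIntegral.norm_integral_le_of_norm_le_const
    intro s hs
    rw [uIoc_of_le two_pi_pos'.le] at hs
    have h2 := hN n hn s
    rw [dist_eq_norm, norm_sub_rev] at h2
    have h3 := hK s ⟨hs.1.le, hs.2⟩
    have h4 : |‖ψ n s‖ - ‖ψ' s‖| ≤ δ := (abs_norm_sub_norm_le _ _).trans h2.le
    have h5 : ‖ψ n s‖ ≤ K + 1 := by
      have := (abs_le.mp h4).2
      have : δ ≤ 1 := min_le_left _ _
      linarith
    rw [Real.norm_eq_abs, sq_sub_sq, abs_mul, mul_comm]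
    apply mul_le_mul h4 _ (abs_nonneg _) hδ.le
    rw [abs_of_nonneg (by positivity)]
    linarith
  refine h1.trans_lt ?_
  rw [sub_zero, abs_of_pos two_pi_pos']
  have h6 : δ ≤ ε / ((2 * K + 1) * (2 * Real.pi) + 1) := min_le_right _ _
  have h7 : 0 < (2 * K + 1) * (2 * Real.pi) + 1 := by positivity
  rw [le_div_iff₀ h7] at h6
  nlinarith

theorem adm_smul {ψ : ℝ → (E4 nd)} {c : ℝ} (hc : 0 < c) (h : Adm ψ) : Adm (fun s => c • ψ s) := by
  unfold Adm at h ⊢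
  have e1 : ∀ s, ‖c • ψ s‖⁻¹ • c • ψ s = ‖ψ s‖⁻¹ • ψ s := by
    intro s
    rw [norm_smul, Real.norm_eq_abs, abs_of_pos hc, smul_smul, mul_inv]
    congr 1
    field_simp
  have e2 : {s ∈ Ioc (0:ℝ) (2 * Real.pi) | c • ψ s = 0} =
      {s ∈ Ioc (0:ℝ) (2 * Real.pi) | ψ s = 0} := by
    ext s
    simp only [mem_ofPred_eq, smul_eq_zero, hc.ne', false_or]
  simp only [e1]
  rw [e2]
  exact h

/-- An admissible loop of positive mass is not constant: its energy is positive. -/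
theorem dir_pos_of_adm {ψ g : ℝ → (E4 nd)} (h : H1Loop ψ g) (ha : Adm ψ) (hM : 0 < Mass ψ) :
    0 < Dir g := by
  rcases (dir_nonneg g).eq_or_lt with h0 | h0
  · exfalso
    have hcst : ∀ s ∈ Icc (0:ℝ) (2 * Real.pi), ψ s = ψ 0 := by
      intro s hs
      have h1 := h.holder hs.1
      have h2 : (∫ u in (0:ℝ)..s, ‖g u‖ ^ 2) ≤ Dir g := by
        unfold Dir
        apply intervalIntegral.integral_mono_interval le_rfl hs.1 hs.2
        · exact Eventually.of_forall (fun _ => by positivity)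
        · exact h.sq_intervalIntegrable _ _
      have h3 : (s - 0) * (∫ u in (0:ℝ)..s, ‖g u‖ ^ 2) ≤ 0 := by
        rw [← h0] at h2
        exact mul_nonpos_of_nonneg_of_nonpos (by linarith [hs.1]) h2
      have h4 : ‖ψ s - ψ 0‖ ^ 2 = 0 := le_antisymm (h1.trans h3) (by positivity)
      have h5 : ‖ψ s - ψ 0‖ = 0 := by
        exact pow_eq_zero_iff (two_ne_zero) |>.mp h4
      exact sub_eq_zero.mp (norm_eq_zero.mp h5)
    have hne : ψ 0 ≠ 0 := by
      intro hz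
      have : Mass ψ = 0 := by
        unfold Mass
        have e : ∫ s in (0:ℝ)..(2 * Real.pi), ‖ψ s‖ ^ 2 =
            ∫ s in (0:ℝ)..(2 * Real.pi), (0:ℝ) := by
          apply intervalIntegral.integral_congr
          intro s hs
          rw [uIcc_of_le two_pi_pos'.le] at hs
          simp only [hcst s hs, hz, norm_zero]
          norm_num
        rw [e, intervalIntegral.integral_zero]
      linarith
    unfold Adm at ha
    have e1 : {s ∈ Ioc (0:ℝ) (2 * Real.pi) | ψ s = 0} = ∅ := by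
      ext s
      simp only [mem_ofPred_eq, mem_empty_iff_false, iff_false, not_and]
      intro hs
      rw [hcst s ⟨hs.1.le, hs.2⟩]
      exact hne
    have e2 : (∫ s in (0:ℝ)..(2 * Real.pi), (‖ψ s‖⁻¹ • ψ s)) =
        (2 * Real.pi) • (‖ψ 0‖⁻¹ • ψ 0) := by
      have e : ∫ s in (0:ℝ)..(2 * Real.pi), (‖ψ s‖⁻¹ • ψ s) =
          ∫ s in (0:ℝ)..(2 * Real.pi), (‖ψ 0‖⁻¹ • ψ 0) := by
        apply intervalIntegral.integral_congr
        intro s hs
        rw [uIcc_of_le two_pi_pos'.le] at hs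
        simp only [hcst s hs]
      rw [e, intervalIntegral.integral_const, sub_zero]
    rw [e1, e2, measure_empty, norm_smul, norm_smul, norm_inv, norm_norm,
      inv_mul_cancel₀ (norm_ne_zero_iff.mpr hne), Real.norm_eq_abs, abs_of_pos two_pi_pos'] at ha
    simp at ha
    linarith [Real.pi_pos]
  · exact h0

/-- M1. Existence of a minimiser. -/
theorem exists_isMin {ψ g : ℝ → (E4 nd)} (h : H1Loop ψ g) (ha : Adm ψ) (hlt : Dir g < Mass ψ) :
    ∃ (ψ' g' : ℝ → (E4 nd)) (e : ℝ), 0 < e ∧ e < 1 ∧ IsMin ψ' g' e := by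
  set S : Set ℝ := {q | ∃ ψ g : ℝ → (E4 nd), H1Loop ψ g ∧ Adm ψ ∧ Mass ψ = 1 ∧ Dir g = q} with hS
  -- normalisation
  have hnorm : ∀ ζ k : ℝ → (E4 nd), H1Loop ζ k → Adm ζ → 0 < Mass ζ → Dir k / Mass ζ ∈ S := by
    intro ζ k h1 h2 h3
    have h4 : 0 < (Real.sqrt (Mass ζ))⁻¹ := inv_pos.mpr (Real.sqrt_pos.mpr h3)
    have h5 : (Real.sqrt (Mass ζ))⁻¹ ^ 2 = (Mass ζ)⁻¹ := by
      rw [inv_pow, Real.sq_sqrt h3.le]
    refine ⟨fun s => (Real.sqrt (Mass ζ))⁻¹ • ζ s, fun s => (Real.sqrt (Mass ζ))⁻¹ • k s,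
      h1.smul _, adm_smul h4 h2, ?_, ?_⟩
    · rw [mass_smul, h5, inv_mul_cancel₀ h3.ne']
    · rw [dir_smul, h5]
      field_simp
  have hbdd : BddBelow S := by
    refine ⟨0, ?_⟩
    rintro q ⟨ζ, k, _, _, _, rfl⟩
    exact dir_nonneg k
  have hM : 0 < Mass ψ := (dir_nonneg g).trans_lt hlt
  have hmem := hnorm ψ g h ha hM
  obtain ⟨u, hu1, hu2, hu3⟩ := exists_seq_tendsto_sInf ⟨_, hmem⟩ hbdd
  choose Ψ G hΨ1 hΨ2 hΨ3 hΨ4 using hu3
  obtain ⟨φ, ψ', g', hφ, hl, hunif, hlsc⟩ := compactness hΨ1 (C := u 0)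
    (fun n => by rw [hΨ4 n]; exact hu1 (Nat.zero_le n)) hΨ3
  set e := sInf S with he
  have hD : Dir g' ≤ e := hlsc e (by simpa only [hΨ4] using hu2)
  have hcn : ∀ n, Continuous (Ψ (φ n)) := fun n => (hΨ1 (φ n)).continuous
  have hmass : Mass ψ' = 1 := by
    have h1 := exi_tendsto_mass hcn hunif
    simp only [hΨ3] at h1
    exact (tendsto_nhds_unique h1 tendsto_const_nhds)
  have hadm : Adm ψ' := by
    rw [adm_iff_median hl.continuous]
    intro c
    have h1 := exi_tendsto_norm hcn hunif 0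
    have h2 := exi_tendsto_norm hcn hunif c
    simp only [add_zero] at h1
    exact le_of_tendsto_of_tendsto' h1 h2
      (fun n => (adm_iff_median (hcn n)).mp (hΨ2 (φ n)) c)
  have hDe : Dir g' = e := le_antisymm hD (csInf_le hbdd ⟨ψ', g', hl, hadm, hmass, rfl⟩)
  refine ⟨ψ', g', e, ?_, ?_, ?_⟩
  · rw [← hDe]
    exact dir_pos_of_adm hl hadm (by rw [hmass]; norm_num)
  · have h1 : e ≤ Dir g / Mass ψ := csInf_le hbdd hmem
    have h2 : Dir g / Mass ψ < 1 := by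
      rw [div_lt_one hM]
      exact hlt
    linarith
  · refine ⟨hl, hadm, by rw [hmass]; norm_num, by rw [hmass, hDe, mul_one], ?_⟩
    intro ζ k h1 h2
    rcases (mass_nonneg ζ).eq_or_lt with h3 | h3
    · rw [← h3, mul_zero]
      exact dir_nonneg k
    · have h4 := csInf_le hbdd (hnorm ζ k h1 h2 h3)
      rwa [le_div_iff₀ h3] at h4

end Ovals2801ND
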