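import Pool.Agent.Lib.Ovals2801ND.Defs
import Mathlib.MeasureTheory.Integral.IntervalIntegral.Periodic
import Mathlib.MeasureTheory.Integral.DominatedConvergence

/-!
# MP_2801bd_mp: basic facts about loops of class `H¹`
-/

open MeasureTheory Set

namespace Ovals2801ND

open Ovals2801

variable {nd : ℕ}

variable {ψ g ζ k : ℝ → (E4 nd)}

theorem two_pi_ne : (2 * Real.pi : ℝ) ≠ 0 := by positivity

theorem two_pi_pos' : (0 : ℝ) < 2 * Real.pi := by positivity

theorem periodic_sq {g : ℝ → (E4 nd)} (h : Function.Periodic g (2 * Real.pi)) :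
    Function.Periodic (fun s => ‖g s‖ ^ 2) (2 * Real.pi) := fun s => by
  simp only [h s]

theorem intervalIntegrable_of_sq {a b : ℝ} (hm : AEStronglyMeasurable g (volume : Measure ℝ))
    (h : IntervalIntegrable (fun s => ‖g s‖ ^ 2) volume a b) :
    IntervalIntegrable g volume a b := by
  have h1 : IntervalIntegrable (fun s => ‖g s‖ ^ 2 + 1) volume a b :=
    h.add intervalIntegrable_const
  refine h1.mono_fun hm.restrict ?_
  filter_upwards with s
  rw [Real.norm_of_nonneg (by positivity)]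
  nlinarith [sq_nonneg (‖g s‖ - 1), norm_nonneg (g s)]

theorem H1Loop.sq_intervalIntegrable (h : H1Loop ψ g) (a b : ℝ) :
    IntervalIntegrable (fun s => ‖g s‖ ^ 2) volume a b :=
  (periodic_sq h.gper).intervalIntegrable₀ two_pi_ne h.sq a b

theorem H1Loop.intervalIntegrable (h : H1Loop ψ g) (a b : ℝ) :
    IntervalIntegrable g volume a b :=
  intervalIntegrable_of_sq h.meas (h.sq_intervalIntegrable a b)

theorem H1Loop.eq_primitive (h : H1Loop ψ g) (a : ℝ) :
    ψ = fun b => ψ a + ∫ s in a..b, g s := by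
  funext b
  rw [← h.ftc a b]
  abel

/-- M0. An `H¹` loop is continuous. -/
theorem H1Loop.continuous {ψ g : ℝ → (E4 nd)} (h : H1Loop ψ g) : Continuous ψ := by
  rw [h.eq_primitive 0]
  exact continuous_const.add
    (intervalIntegral.continuous_primitive (fun a b => h.intervalIntegrable a b) 0)

theorem intervalIntegrable_sq_add {a b : ℝ} (hm : AEStronglyMeasurable g (volume : Measure ℝ))
    (hm' : AEStronglyMeasurable k (volume : Measure ℝ))
    (h : IntervalIntegrable (fun s => ‖g s‖ ^ 2) volume a b)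
    (h' : IntervalIntegrable (fun s => ‖k s‖ ^ 2) volume a b) :
    IntervalIntegrable (fun s => ‖g s + k s‖ ^ 2) volume a b := by
  have h1 : IntervalIntegrable (fun s => 2 * ‖g s‖ ^ 2 + 2 * ‖k s‖ ^ 2) volume a b :=
    (h.const_mul 2).add (h'.const_mul 2)
  refine h1.mono_fun ((hm.add hm').norm.pow 2).restrict ?_
  filter_upwards with s
  rw [Real.norm_of_nonneg (by positivity), Real.norm_of_nonneg (by positivity)]
  have h2 := norm_add_le (g s) (k s)
  have h3 : ‖g s + k s‖ ^ 2 ≤ (‖g s‖ + ‖k s‖) ^ 2 :=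
    pow_le_pow_left₀ (norm_nonneg _) h2 2
  nlinarith [sq_nonneg (‖g s‖ - ‖k s‖)]

theorem H1Loop.add (h : H1Loop ψ g) (h2 : H1Loop ζ k) :
    H1Loop (fun s => ψ s + ζ s) (fun s => g s + k s) where
  per := fun s => by simp only [h.per s, h2.per s]
  gper := fun s => by simp only [h.gper s, h2.gper s]
  meas := h.meas.add h2.meas
  sq := intervalIntegrable_sq_add h.meas h2.meas h.sq h2.sq
  ftc := fun a b => by
    rw [intervalIntegral.integral_add (h.intervalIntegrable a b) (h2.intervalIntegrable a b),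
      ← h.ftc a b, ← h2.ftc a b]
    abel

theorem H1Loop.smul (h : H1Loop ψ g) (c : ℝ) :
    H1Loop (fun s => c • ψ s) (fun s => c • g s) where
  per := fun s => by simp only [h.per s]
  gper := fun s => by simp only [h.gper s]
  meas := h.meas.const_smul c
  sq := by
    have h1 := h.sq.const_mul (c ^ 2)
    refine h1.congr (fun s _ => ?_)
    rw [norm_smul, mul_pow, Real.norm_eq_abs, sq_abs]
  ftc := fun a b => by
    rw [intervalIntegral.integral_smul, ← h.ftc a b, smul_sub]

theorem H1Loop.clm (h : H1Loop ψ g) (T : (E4 nd) →L[ℝ] (E4 nd)) :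
    H1Loop (fun s => T (ψ s)) (fun s => T (g s)) where
  per := fun s => by simp only [h.per s]
  gper := fun s => by simp only [h.gper s]
  meas := T.continuous.comp_aestronglyMeasurable h.meas
  sq := by
    have h1 := h.sq.const_mul (‖T‖ ^ 2)
    refine h1.mono_fun ((T.continuous.comp_aestronglyMeasurable h.meas).norm.pow 2).restrict ?_
    filter_upwards with s
    rw [Real.norm_of_nonneg (by positivity), Real.norm_of_nonneg (by positivity), ← mul_pow]
    exact pow_le_pow_left₀ (norm_nonneg _) (T.le_opNorm _) 2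
  ftc := fun a b => by
    rw [T.intervalIntegral_comp_comm (h.intervalIntegrable a b), ← h.ftc a b, map_sub]

theorem H1Loop.const_add (h : H1Loop ψ g) (c : (E4 nd)) : H1Loop (fun s => ψ s + c) g where
  per := fun s => by simp only [h.per s]
  gper := h.gper
  meas := h.meas
  sq := h.sq
  ftc := fun a b => by
    rw [← h.ftc a b]
    abel

/-- A constant loop. -/
theorem H1Loop.const (c : (E4 nd)) : H1Loop (fun _ => c) (fun _ => 0) where
  per := fun _ => rfl
  gper := fun _ => rfl
  meas := aestronglyMeasurable_const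
  sq := by simp
  ftc := fun a b => by simp

/-- The shifted loop. -/
theorem H1Loop.shift (h : H1Loop ψ g) (c : ℝ) :
    H1Loop (fun s => ψ (s + c)) (fun s => g (s + c)) where
  per := fun s => by
    have : s + 2 * Real.pi + c = s + c + 2 * Real.pi := by ring
    simp only [this, h.per (s + c)]
  gper := fun s => by
    have : s + 2 * Real.pi + c = s + c + 2 * Real.pi := by ring
    simp only [this, h.gper (s + c)]
  meas := h.meas.comp_quasiMeasurePreserving
    (measurePreserving_add_right volume c).quasiMeasurePreserving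
  sq := by
    have := h.sq_intervalIntegrable (0 + c) (2 * Real.pi + c)
    simpa using this.comp_add_right c
  ftc := fun a b => by
    rw [intervalIntegral.integral_comp_add_right (fun s => g s) c, ← h.ftc]

/-- The constructor of `H¹` loops from one period. -/
theorem H1Loop.of_period (a₀ : ℝ) (hper : Function.Periodic ψ (2 * Real.pi))
    (hg : Function.Periodic g (2 * Real.pi)) (hm : AEStronglyMeasurable g (volume : Measure ℝ))
    (hsq : IntervalIntegrable (fun s => ‖g s‖ ^ 2) volume a₀ (a₀ + 2 * Real.pi))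
    (h : ∀ b ∈ Icc a₀ (a₀ + 2 * Real.pi), ψ b - ψ a₀ = ∫ s in a₀..b, g s) : H1Loop ψ g := by
  have hsq' : ∀ a b, IntervalIntegrable (fun s => ‖g s‖ ^ 2) volume a b :=
    (periodic_sq hg).intervalIntegrable two_pi_ne hsq
  have hI : ∀ a b, IntervalIntegrable g volume a b := fun a b =>
    intervalIntegrable_of_sq hm (hsq' a b)
  have hzero : ∫ s in a₀..(a₀ + 2 * Real.pi), g s = 0 := by
    rw [← h (a₀ + 2 * Real.pi) ⟨by linarith [two_pi_pos'], le_rfl⟩, hper a₀, sub_self]
  have hF : Function.Periodic (fun s => ψ s - ψ a₀ - ∫ t in a₀..s, g t) (2 * Real.pi) := by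
    intro s
    have h1 : ∫ t in a₀..(s + 2 * Real.pi), g t
        = (∫ t in a₀..s, g t) + ∫ t in s..(s + 2 * Real.pi), g t :=
      (intervalIntegral.integral_add_adjacent_intervals (hI _ _) (hI _ _)).symm
    simp only [hper s]
    rw [h1, hg.intervalIntegral_add_eq s a₀, hzero, add_zero]
  have hF0 : ∀ s, ψ s - ψ a₀ - ∫ t in a₀..s, g t = 0 := by
    intro s
    obtain ⟨y, hy, hy'⟩ := hF.exists_mem_Ico two_pi_pos' s a₀
    have h2 : ψ s - ψ a₀ - ∫ t in a₀..s, g t = ψ y - ψ a₀ - ∫ t in a₀..y, g t := hy'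
    rw [h2, h y ⟨hy.1, hy.2.le⟩, sub_self]
  refine ⟨hper, hg, hm, hsq' _ _, fun a b => ?_⟩
  have h1 := hF0 a
  have h2 := hF0 b
  have h3 := intervalIntegral.integral_add_adjacent_intervals (hI a₀ a) (hI a b)
  rw [sub_eq_zero] at h1 h2
  rw [← h3, ← h1] at h2
  have h4 : ψ b - ψ a = (ψ b - ψ a₀) - (ψ a - ψ a₀) := by abel
  rw [h4, h2]
  abel

/-- The Dirichlet energy over any period. -/
theorem H1Loop.dir_eq (h : H1Loop ψ g) (a : ℝ) :
    Dir g = ∫ s in a..(a + 2 * Real.pi), ‖g s‖ ^ 2 := by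
  have h1 := (periodic_sq h.gper).intervalIntegral_add_eq 0 a
  rw [zero_add] at h1
  exact h1

/-- The squared `L²` norm over any period. -/
theorem mass_eq_of_periodic (h : Function.Periodic ψ (2 * Real.pi)) (a : ℝ) :
    Mass ψ = ∫ s in a..(a + 2 * Real.pi), ‖ψ s‖ ^ 2 := by
  have h1 := (periodic_sq h).intervalIntegral_add_eq 0 a
  rw [zero_add] at h1
  exact h1

theorem H1Loop.mass_eq (h : H1Loop ψ g) (a : ℝ) :
    Mass ψ = ∫ s in a..(a + 2 * Real.pi), ‖ψ s‖ ^ 2 :=
  mass_eq_of_periodic h.per a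

theorem dir_nonneg (g : ℝ → (E4 nd)) : 0 ≤ Dir g :=
  intervalIntegral.integral_nonneg two_pi_pos'.le (fun _ _ => by positivity)

theorem mass_nonneg (ψ : ℝ → (E4 nd)) : 0 ≤ Mass ψ :=
  intervalIntegral.integral_nonneg two_pi_pos'.le (fun _ _ => by positivity)

theorem dir_smul (c : ℝ) (g : ℝ → (E4 nd)) : Dir (fun s => c • g s) = c ^ 2 * Dir g := by
  unfold Dir
  rw [← intervalIntegral.integral_const_mul]
  congr 1
  funext s
  rw [norm_smul, mul_pow, Real.norm_eq_abs, sq_abs]

theorem mass_smul (c : ℝ) (ψ : ℝ → (E4 nd)) : Mass (fun s => c • ψ s) = c ^ 2 * Mass ψ :=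
  dir_smul c ψ

/-- The Hölder bound. -/
theorem H1Loop.holder (h : H1Loop ψ g) {a b : ℝ} (hab : a ≤ b) :
    ‖ψ b - ψ a‖ ^ 2 ≤ (b - a) * ∫ s in a..b, ‖g s‖ ^ 2 := by
  have hI := h.intervalIntegrable a b
  have hS := h.sq_intervalIntegrable a b
  have h1 : ‖ψ b - ψ a‖ ≤ ∫ s in a..b, ‖g s‖ := by
    rw [h.ftc a b]
    exact intervalIntegral.norm_integral_le_integral_norm hab
  have h0 : 0 ≤ ∫ s in a..b, ‖g s‖ :=
    intervalIntegral.integral_nonneg hab (fun _ _ => norm_nonneg _)
  set m : ℝ := ∫ s in a..b, ‖g s‖ with hm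
  set q : ℝ := ∫ s in a..b, ‖g s‖ ^ 2 with hq
  -- `0 ≤ ∫ ((b-a) ‖g‖ - m)²`
  have h2 : 0 ≤ ∫ s in a..b, ((b - a) * ‖g s‖ - m) ^ 2 :=
    intervalIntegral.integral_nonneg hab (fun _ _ => sq_nonneg _)
  have h3 : ∫ s in a..b, ((b - a) * ‖g s‖ - m) ^ 2
      = (b - a) ^ 2 * q - 2 * (b - a) * m * m + (b - a) * m ^ 2 := by
    have e1 : (fun s => ((b - a) * ‖g s‖ - m) ^ 2)
        = fun s => ((b - a) ^ 2 * ‖g s‖ ^ 2 - (2 * (b - a) * m) * ‖g s‖) + m ^ 2 := by
      funext s
      ring
    rw [e1, intervalIntegral.integral_add ((hS.const_mul _).sub (hI.norm.const_mul _))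
      intervalIntegrable_const, intervalIntegral.integral_sub (hS.const_mul _)
      (hI.norm.const_mul _), intervalIntegral.integral_const_mul,
      intervalIntegral.integral_const_mul, intervalIntegral.integral_const, smul_eq_mul]
  rw [h3] at h2
  have h4 : ‖ψ b - ψ a‖ ^ 2 ≤ m ^ 2 := pow_le_pow_left₀ (norm_nonneg _) h1 2
  rcases eq_or_lt_of_le hab with hab' | hab'
  · subst hab'
    simp
  · have h5 : 0 < b - a := by linarith
    have h6 : 0 ≤ (b - a) * ((b - a) * q - m ^ 2) := by nlinarith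
    have h7 : 0 ≤ (b - a) * q - m ^ 2 := by
      by_contra hcon
      push Not at hcon
      have := mul_neg_of_pos_of_neg h5 hcon
      linarith
    linarith

end Ovals2801ND
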