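import Pool.Agent.Lib.Ovals2801ND.Defs
import Pool.Agent.Lib.MP_2801bd_mp.FlexAngles
import Pool.Agent.Lib.Ovals2801ND.H1Basic
import Mathlib.MeasureTheory.Integral.IntervalIntegral.Periodic
import Mathlib.MeasureTheory.Constructions.BorelSpace.Order
import Mathlib.MeasureTheory.Function.Floor
import Mathlib.Analysis.Calculus.Deriv.Inv
import Mathlib.Analysis.Calculus.Deriv.Mul
import Mathlib.Analysis.InnerProductSpace.Calculus

/-!
# MP_2801bd_mp: the flex lemma, up to the Euler-Lagrange equation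

The pieces of a minimiser over three consecutive intervals are rotated in a plane orthogonal to
the loop at the four division points.
-/

open MeasureTheory Set

namespace Ovals2801ND.FlexAux

open Ovals2801 Ovals2801ND

variable {nd : ℕ}


/-- The rotation by the angle with cosine `c` and sine `s` in the plane of `n` and `f`. -/
noncomputable def rot (n f : (E4 nd)) (c s : ℝ) (v : (E4 nd)) : (E4 nd) :=
  v + ((c - 1) * inner ℝ n v - s * inner ℝ f v) • n +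
    (s * inner ℝ n v + (c - 1) * inner ℝ f v) • f

section rot

variable {n f : (E4 nd)} {c s : ℝ}

theorem rot_add (v w : (E4 nd)) : rot n f c s (v + w) = rot n f c s v + rot n f c s w := by
  unfold rot
  simp only [inner_add_right]
  module

theorem rot_smul (t : ℝ) (v : (E4 nd)) : rot n f c s (t • v) = t • rot n f c s v := by
  unfold rot
  simp only [inner_smul_right]
  module

theorem rot_sub (v w : (E4 nd)) : rot n f c s (v - w) = rot n f c s v - rot n f c s w := by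
  unfold rot
  simp only [inner_sub_right]
  module

/-- The rotation as a continuous linear map. -/
noncomputable def rotL (n f : (E4 nd)) (c s : ℝ) : (E4 nd) →L[ℝ] (E4 nd) :=
  LinearMap.toContinuousLinearMap
    { toFun := rot n f c s
      map_add' := rot_add
      map_smul' := rot_smul }

theorem rotL_apply (v : (E4 nd)) : rotL n f c s v = rot n f c s v := rfl

theorem rot_fix {v : (E4 nd)} (h1 : inner ℝ n v = 0) (h2 : inner ℝ f v = 0) :
    rot n f c s v = v := by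
  unfold rot
  rw [h1, h2]
  simp

theorem rot_one (v : (E4 nd)) : rot n f 1 0 v = v := by
  unfold rot
  simp

theorem inner_n_rot (hn : ‖n‖ = 1) (hnf : inner ℝ n f = 0) (v : (E4 nd)) :
    inner ℝ n (rot n f c s v) = c * inner ℝ n v - s * inner ℝ f v := by
  unfold rot
  rw [inner_add_right, inner_add_right, inner_smul_right, inner_smul_right, hnf,
    real_inner_self_eq_norm_sq, hn]
  ring

theorem inner_f_rot (hf : ‖f‖ = 1) (hnf : inner ℝ n f = 0) (v : (E4 nd)) :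
    inner ℝ f (rot n f c s v) = s * inner ℝ n v + c * inner ℝ f v := by
  unfold rot
  rw [inner_add_right, inner_add_right, inner_smul_right, inner_smul_right,
    real_inner_comm n f, hnf, real_inner_self_eq_norm_sq, hf]
  ring

theorem norm_rot (hn : ‖n‖ = 1) (hf : ‖f‖ = 1) (hnf : inner ℝ n f = 0)
    (hcs : c ^ 2 + s ^ 2 = 1) (v : (E4 nd)) : ‖rot n f c s v‖ = ‖v‖ := by
  have h1 : ‖rot n f c s v‖ ^ 2 = ‖v‖ ^ 2 := by
    have e1 : ‖rot n f c s v‖ ^ 2 = inner ℝ (rot n f c s v) (rot n f c s v) :=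
      (real_inner_self_eq_norm_sq _).symm
    have e2 : ∀ w : (E4 nd), inner ℝ (rot n f c s v) w = inner ℝ v w +
        ((c - 1) * inner ℝ n v - s * inner ℝ f v) * inner ℝ n w +
        (s * inner ℝ n v + (c - 1) * inner ℝ f v) * inner ℝ f w := by
      intro w
      unfold rot
      rw [inner_add_left, inner_add_left, real_inner_smul_left, real_inner_smul_left]
    rw [e1, e2, inner_n_rot hn hnf, inner_f_rot hf hnf]
    have e3 : inner ℝ v (rot n f c s v) = ‖v‖ ^ 2 +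
        ((c - 1) * inner ℝ n v - s * inner ℝ f v) * inner ℝ n v +
        (s * inner ℝ n v + (c - 1) * inner ℝ f v) * inner ℝ f v := by
      rw [real_inner_comm, e2, real_inner_self_eq_norm_sq]
    rw [e3]
    linear_combination (inner ℝ n v ^ 2 + inner ℝ f v ^ 2) * hcs
  have h2 := norm_nonneg (rot n f c s v)
  have h3 := norm_nonneg v
  exact (sq_eq_sq₀ h2 h3).1 h1

end rot

/-- The step function with the values `x₁, x₂, x₃` on `(a₀, a₁]`, `(a₁, a₂]`, `(a₂, a₃]`, and `x₄`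
on the rest of the period. -/
noncomputable def step (a₀ a₁ a₂ a₃ x₁ x₂ x₃ x₄ : ℝ) (s : ℝ) : ℝ :=
  if toIocMod Real.two_pi_pos a₀ s ≤ a₁ then x₁ else
    if toIocMod Real.two_pi_pos a₀ s ≤ a₂ then x₂ else
      if toIocMod Real.two_pi_pos a₀ s ≤ a₃ then x₃ else x₄

theorem measurable_toIocMod' (a₀ : ℝ) : Measurable (toIocMod Real.two_pi_pos a₀) := by
  have : toIocMod Real.two_pi_pos a₀ = fun s => s - (-⌊(a₀ + 2 * Real.pi - s) / (2 * Real.pi)⌋ : ℤ) •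
      (2 * Real.pi) := by
    funext s
    rw [toIocMod, toIocDiv_eq_neg_floor]
  rw [this]
  simp only [zsmul_eq_mul]
  have h1 : Measurable fun s : ℝ => (-⌊(a₀ + 2 * Real.pi - s) / (2 * Real.pi)⌋ : ℤ) :=
    ((measurable_const.sub measurable_id).div_const _).floor.neg
  have h2 : Measurable fun s : ℝ => ((-⌊(a₀ + 2 * Real.pi - s) / (2 * Real.pi)⌋ : ℤ) : ℝ) :=
    (measurable_from_top (f := fun z : ℤ => (z : ℝ))).comp h1
  exact measurable_id.sub (h2.mul_const _)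

theorem measurable_step (a₀ a₁ a₂ a₃ x₁ x₂ x₃ x₄ : ℝ) :
    Measurable (step a₀ a₁ a₂ a₃ x₁ x₂ x₃ x₄) := by
  unfold step
  have h := measurable_toIocMod' a₀
  have hm : ∀ a : ℝ, MeasurableSet {s | toIocMod Real.two_pi_pos a₀ s ≤ a} := fun a =>
    measurableSet_le h measurable_const
  exact Measurable.ite (hm a₁) measurable_const (Measurable.ite (hm a₂) measurable_const
    (Measurable.ite (hm a₃) measurable_const measurable_const))

theorem step_periodic (a₀ a₁ a₂ a₃ x₁ x₂ x₃ x₄ : ℝ) :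
    Function.Periodic (step a₀ a₁ a₂ a₃ x₁ x₂ x₃ x₄) (2 * Real.pi) := by
  intro s
  unfold step
  rw [toIocMod_add_right]



theorem intervalIntegrable_of_bounded {F : Type*} [NormedAddCommGroup F] {f : ℝ → F} {C : ℝ}
    (hm : AEStronglyMeasurable f (volume : Measure ℝ)) (hb : ∀ s, ‖f s‖ ≤ C) (a b : ℝ) :
    IntervalIntegrable f volume a b := by
  refine (intervalIntegrable_const (c := C)).mono_fun' hm.restrict ?_
  exact Filter.Eventually.of_forall hb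

/-- The field of unit vectors. -/
noncomputable def unit (ψ : ℝ → (E4 nd)) (s : ℝ) : (E4 nd) := ‖ψ s‖⁻¹ • ψ s

theorem unit_norm_le (ψ : ℝ → (E4 nd)) (s : ℝ) : ‖unit ψ s‖ ≤ 1 := by
  unfold unit
  rw [norm_smul, norm_inv, norm_norm]
  rcases eq_or_ne (‖ψ s‖) 0 with h | h
  · rw [h]; simp
  · rw [inv_mul_cancel₀ h]

theorem unit_integrable {ψ : ℝ → (E4 nd)} (hm : AEStronglyMeasurable ψ (volume : Measure ℝ))
    (a b : ℝ) : IntervalIntegrable (unit ψ) volume a b := by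
  refine intervalIntegrable_of_bounded (C := 1) ?_ (unit_norm_le ψ) a b
  have h1 : AEStronglyMeasurable (fun s => ‖ψ s‖⁻¹) (volume : Measure ℝ) :=
    hm.norm.aemeasurable.inv.aestronglyMeasurable
  exact h1.smul hm

theorem inner_unit (m : (E4 nd)) (ψ : ℝ → (E4 nd)) (s : ℝ) :
    inner ℝ m (unit ψ s) = inner ℝ m (ψ s) / ‖ψ s‖ := by
  unfold unit
  rw [inner_smul_right]
  ring

theorem inner_integral_unit (m : (E4 nd)) {ψ : ℝ → (E4 nd)}
    (hm : AEStronglyMeasurable ψ (volume : Measure ℝ)) (a b : ℝ) :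
    inner ℝ m (∫ s in a..b, unit ψ s) = ∫ s in a..b, inner ℝ m (ψ s) / ‖ψ s‖ := by
  have h := (innerSL ℝ m).intervalIntegral_comp_comm (unit_integrable hm a b)
  simp only [innerSL_apply_apply] at h
  rw [← h]
  refine intervalIntegral.integral_congr fun s _ => ?_
  exact inner_unit m ψ s

section pieces

variable {n f : (E4 nd)} {C S : ℝ → ℝ} {ψ g : ℝ → (E4 nd)} {a b c s : ℝ}

/-- the rotated function on a piece -/
theorem piece_eq (hC : ∀ t ∈ Ioc a b, C t = c) (hS : ∀ t ∈ Ioc a b, S t = s)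
    (h1 : inner ℝ n (ψ a) = 0) (h2 : inner ℝ f (ψ a) = 0) {t : ℝ} (ht : t ∈ Icc a b) :
    rot n f (C t) (S t) (ψ t) = rot n f c s (ψ t) := by
  rcases eq_or_lt_of_le ht.1 with h | h
  · rw [← h, rot_fix h1 h2, rot_fix h1 h2]
  · rw [hC t ⟨h, ht.2⟩, hS t ⟨h, ht.2⟩]

theorem piece_integral (hab : a ≤ b) (hC : ∀ t ∈ Ioc a b, C t = c) (hS : ∀ t ∈ Ioc a b, S t = s)
    {k : ℝ → (E4 nd)} (hk : IntervalIntegrable k volume a b) :
    ∫ t in a..b, rot n f (C t) (S t) (k t) = rot n f c s (∫ t in a..b, k t) := by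
  have h := (rotL n f c s).intervalIntegral_comp_comm hk
  simp only [rotL_apply] at h
  rw [← h, intervalIntegral.integral_of_le hab, intervalIntegral.integral_of_le hab]
  refine setIntegral_congr_fun measurableSet_Ioc fun t ht => ?_
  simp only [hC t ht, hS t ht]

theorem piece_ftc (hab : a ≤ b) (hC : ∀ t ∈ Ioc a b, C t = c) (hS : ∀ t ∈ Ioc a b, S t = s)
    (hg : ∀ a b, IntervalIntegrable g volume a b) (hftc : ∀ a b, ψ b - ψ a = ∫ t in a..b, g t)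
    (h1 : inner ℝ n (ψ a) = 0) (h2 : inner ℝ f (ψ a) = 0) {t : ℝ} (ht : t ∈ Icc a b) :
    rot n f (C t) (S t) (ψ t) - rot n f (C a) (S a) (ψ a) =
      ∫ t in a..t, rot n f (C t) (S t) (g t) := by
  rw [piece_eq hC hS h1 h2 ht, piece_eq hC hS h1 h2 ⟨le_refl a, hab⟩, ← rot_sub, hftc a t]
  rw [piece_integral (c := c) (s := s) ht.1 (fun u hu => hC u ⟨hu.1, hu.2.trans ht.2⟩)
    (fun u hu => hS u ⟨hu.1, hu.2.trans ht.2⟩) (hg _ _)]

end pieces

set_option linter.unusedSectionVars false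

section stepv

variable {a₀ a₁ a₂ a₃ x₁ x₂ x₃ x₄ : ℝ} (h01 : a₀ < a₁) (h12 : a₁ < a₂) (h23 : a₂ < a₃)
  (h30 : a₃ ≤ a₀ + 2 * Real.pi)

include h01 h12 h23 h30

theorem step_one {t : ℝ} (ht : t ∈ Ioc a₀ a₁) : step a₀ a₁ a₂ a₃ x₁ x₂ x₃ x₄ t = x₁ := by
  have h : toIocMod Real.two_pi_pos a₀ t = t :=
    (toIocMod_eq_self _).2 ⟨ht.1, by linarith [ht.2]⟩
  unfold step
  rw [h, if_pos ht.2]

theorem step_two {t : ℝ} (ht : t ∈ Ioc a₁ a₂) : step a₀ a₁ a₂ a₃ x₁ x₂ x₃ x₄ t = x₂ := by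
  have h : toIocMod Real.two_pi_pos a₀ t = t :=
    (toIocMod_eq_self _).2 ⟨by linarith [ht.1], by linarith [ht.2]⟩
  unfold step
  rw [h, if_neg (not_le.2 ht.1), if_pos ht.2]

theorem step_three {t : ℝ} (ht : t ∈ Ioc a₂ a₃) : step a₀ a₁ a₂ a₃ x₁ x₂ x₃ x₄ t = x₃ := by
  have h : toIocMod Real.two_pi_pos a₀ t = t :=
    (toIocMod_eq_self _).2 ⟨by linarith [ht.1], by linarith [ht.2]⟩
  unfold step
  rw [h, if_neg (not_le.2 (by linarith [ht.1])), if_neg (not_le.2 ht.1), if_pos ht.2]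

theorem step_four {t : ℝ} (ht : t ∈ Ioc a₃ (a₀ + 2 * Real.pi)) :
    step a₀ a₁ a₂ a₃ x₁ x₂ x₃ x₄ t = x₄ := by
  have h : toIocMod Real.two_pi_pos a₀ t = t :=
    (toIocMod_eq_self _).2 ⟨by linarith [ht.1], ht.2⟩
  unfold step
  rw [h, if_neg (not_le.2 (by linarith [ht.1])), if_neg (not_le.2 (by linarith [ht.1])),
    if_neg (not_le.2 ht.1)]

end stepv

theorem step_sq {a₀ a₁ a₂ a₃ c₁ s₁ c₂ s₂ c₃ s₃ : ℝ} (h1 : c₁ ^ 2 + s₁ ^ 2 = 1)
    (h2 : c₂ ^ 2 + s₂ ^ 2 = 1) (h3 : c₃ ^ 2 + s₃ ^ 2 = 1) (t : ℝ) :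
    step a₀ a₁ a₂ a₃ c₁ c₂ c₃ 1 t ^ 2 + step a₀ a₁ a₂ a₃ s₁ s₂ s₃ 0 t ^ 2 = 1 := by
  unfold step
  split_ifs
  · exact h1
  · exact h2
  · exact h3
  · norm_num



/-- The rotated loop is a minimiser. -/
theorem isMin_rot {ψ g : ℝ → (E4 nd)} {e : ℝ} (h : IsMin ψ g e)
    {n f : (E4 nd)} (hn : ‖n‖ = 1) (hf : ‖f‖ = 1)
    (hnf : inner ℝ n f = 0) {a₀ a₁ a₂ a₃ : ℝ} (h01 : a₀ < a₁) (h12 : a₁ < a₂) (h23 : a₂ < a₃)
    (h30 : a₃ ≤ a₀ + 2 * Real.pi)
    (z0 : inner ℝ n (ψ a₀) = 0) (z1 : inner ℝ n (ψ a₁) = 0) (z2 : inner ℝ n (ψ a₂) = 0)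
    (z3 : inner ℝ n (ψ a₃) = 0) (hfψ : ∀ s ∈ Icc a₀ a₃, inner ℝ f (ψ s) = 0)
    {c₁ s₁ c₂ s₂ c₃ s₃ B₁ B₂ B₃ : ℝ}
    (hB1 : B₁ = ∫ s in a₀..a₁, inner ℝ n (ψ s) / ‖ψ s‖)
    (hB2 : B₂ = ∫ s in a₁..a₂, inner ℝ n (ψ s) / ‖ψ s‖)
    (hB3 : B₃ = ∫ s in a₂..a₃, inner ℝ n (ψ s) / ‖ψ s‖)
    (q1 : c₁ ^ 2 + s₁ ^ 2 = 1) (q2 : c₂ ^ 2 + s₂ ^ 2 = 1) (q3 : c₃ ^ 2 + s₃ ^ 2 = 1)
    (e1 : B₁ * c₁ + B₂ * c₂ + B₃ * c₃ = B₁ + B₂ + B₃) (e2 : B₁ * s₁ + B₂ * s₂ + B₃ * s₃ = 0) :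
    IsMin (fun s => rot n f (step a₀ a₁ a₂ a₃ c₁ c₂ c₃ 1 s) (step a₀ a₁ a₂ a₃ s₁ s₂ s₃ 0 s) (ψ s))
      (fun s => rot n f (step a₀ a₁ a₂ a₃ c₁ c₂ c₃ 1 s) (step a₀ a₁ a₂ a₃ s₁ s₂ s₃ 0 s) (g s))
      e := by
  have hpi : 0 < 2 * Real.pi := Real.two_pi_pos
  have hψc := h.loop.continuous
  have hψm : AEStronglyMeasurable ψ (volume : Measure ℝ) := hψc.aestronglyMeasurable
  set C := step a₀ a₁ a₂ a₃ c₁ c₂ c₃ 1 with hCdef
  set S := step a₀ a₁ a₂ a₃ s₁ s₂ s₃ 0 with hSdef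
  have hCS : ∀ t, C t ^ 2 + S t ^ 2 = 1 := step_sq q1 q2 q3
  have hnorm : ∀ (k : ℝ → (E4 nd)) (t : ℝ), ‖rot n f (C t) (S t) (k t)‖ = ‖k t‖ := fun k t =>
    norm_rot hn hf hnf (hCS t) (k t)
  have hCm : Measurable C := measurable_step ..
  have hSm : Measurable S := measurable_step ..
  have hrm : ∀ k : ℝ → (E4 nd), AEStronglyMeasurable k (volume : Measure ℝ) →
      AEStronglyMeasurable (fun t => rot n f (C t) (S t) (k t)) (volume : Measure ℝ) := by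
    intro k hk
    unfold rot
    have i1 : AEStronglyMeasurable (fun t => inner ℝ n (k t)) (volume : Measure ℝ) :=
      (innerSL ℝ n).continuous.comp_aestronglyMeasurable hk
    have i2 : AEStronglyMeasurable (fun t => inner ℝ f (k t)) (volume : Measure ℝ) :=
      (innerSL ℝ f).continuous.comp_aestronglyMeasurable hk
    have hC' := hCm.aestronglyMeasurable (μ := (volume : Measure ℝ))
    have hS' := hSm.aestronglyMeasurable (μ := (volume : Measure ℝ))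
    have hC1 : AEStronglyMeasurable (fun t => C t - 1) (volume : Measure ℝ) :=
      hC'.sub aestronglyMeasurable_const
    exact (hk.add (((hC1.mul i1).sub (hS'.mul i2)).smul_const n)).add
      (((hS'.mul i1).add (hC1.mul i2)).smul_const f)
  have hCp : Function.Periodic C (2 * Real.pi) := step_periodic _ _ _ _ _ _ _ _
  have hSp : Function.Periodic S (2 * Real.pi) := step_periodic _ _ _ _ _ _ _ _
  have hrp : ∀ k : ℝ → (E4 nd), Function.Periodic k (2 * Real.pi) →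
      Function.Periodic (fun t => rot n f (C t) (S t) (k t)) (2 * Real.pi) := by
    intro k hk t
    simp only [hCp t, hSp t, hk t]
  -- the pieces
  have C1 : ∀ t ∈ Ioc a₀ a₁, C t = c₁ := fun t ht => step_one h01 h12 h23 h30 ht
  have C2 : ∀ t ∈ Ioc a₁ a₂, C t = c₂ := fun t ht => step_two h01 h12 h23 h30 ht
  have C3 : ∀ t ∈ Ioc a₂ a₃, C t = c₃ := fun t ht => step_three h01 h12 h23 h30 ht
  have C4 : ∀ t ∈ Ioc a₃ (a₀ + 2 * Real.pi), C t = 1 := fun t ht => step_four h01 h12 h23 h30 ht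
  have S1 : ∀ t ∈ Ioc a₀ a₁, S t = s₁ := fun t ht => step_one h01 h12 h23 h30 ht
  have S2 : ∀ t ∈ Ioc a₁ a₂, S t = s₂ := fun t ht => step_two h01 h12 h23 h30 ht
  have S3 : ∀ t ∈ Ioc a₂ a₃, S t = s₃ := fun t ht => step_three h01 h12 h23 h30 ht
  have S4 : ∀ t ∈ Ioc a₃ (a₀ + 2 * Real.pi), S t = 0 := fun t ht => step_four h01 h12 h23 h30 ht
  have f0 : inner ℝ f (ψ a₀) = 0 := hfψ _ ⟨le_refl _, by linarith⟩
  have f1 : inner ℝ f (ψ a₁) = 0 := hfψ _ ⟨by linarith, by linarith⟩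
  have f2 : inner ℝ f (ψ a₂) = 0 := hfψ _ ⟨by linarith, by linarith⟩
  have f3 : inner ℝ f (ψ a₃) = 0 := hfψ _ ⟨by linarith, by linarith⟩
  have hgi := h.loop.intervalIntegrable
  have hg'm := hrm g h.loop.meas
  have hg'i : ∀ a b, IntervalIntegrable (fun t => rot n f (C t) (S t) (g t)) volume a b := by
    intro a b
    refine (hgi a b).mono_fun hg'm.restrict ?_
    exact Filter.Eventually.of_forall fun t => (hnorm g t).le
  have hloop : H1Loop (fun t => rot n f (C t) (S t) (ψ t))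
      (fun t => rot n f (C t) (S t) (g t)) := by
    refine H1Loop.of_period a₀ (hrp ψ h.loop.per) (hrp g h.loop.gper) hg'm ?_ ?_
    · have := h.loop.sq_intervalIntegrable a₀ (a₀ + 2 * Real.pi)
      simpa only [hnorm g] using this
    · have P1 : ∀ b ∈ Icc a₀ a₁, rot n f (C b) (S b) (ψ b) - rot n f (C a₀) (S a₀) (ψ a₀) =
          ∫ t in a₀..b, rot n f (C t) (S t) (g t) := fun b hb =>
        piece_ftc h01.le C1 S1 hgi h.loop.ftc z0 f0 hb
      have P2 : ∀ b ∈ Icc a₁ a₂, rot n f (C b) (S b) (ψ b) - rot n f (C a₀) (S a₀) (ψ a₀) =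
          ∫ t in a₀..b, rot n f (C t) (S t) (g t) := by
        intro b hb
        rw [← intervalIntegral.integral_add_adjacent_intervals (hg'i a₀ a₁) (hg'i a₁ b),
          ← P1 a₁ ⟨h01.le, le_refl _⟩, ← piece_ftc h12.le C2 S2 hgi h.loop.ftc z1 f1 hb]
        abel
      have P3 : ∀ b ∈ Icc a₂ a₃, rot n f (C b) (S b) (ψ b) - rot n f (C a₀) (S a₀) (ψ a₀) =
          ∫ t in a₀..b, rot n f (C t) (S t) (g t) := by
        intro b hb
        rw [← intervalIntegral.integral_add_adjacent_intervals (hg'i a₀ a₂) (hg'i a₂ b),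
          ← P2 a₂ ⟨h12.le, le_refl _⟩, ← piece_ftc h23.le C3 S3 hgi h.loop.ftc z2 f2 hb]
        abel
      have P4 : ∀ b ∈ Icc a₃ (a₀ + 2 * Real.pi),
          rot n f (C b) (S b) (ψ b) - rot n f (C a₀) (S a₀) (ψ a₀) =
          ∫ t in a₀..b, rot n f (C t) (S t) (g t) := by
        intro b hb
        rw [← intervalIntegral.integral_add_adjacent_intervals (hg'i a₀ a₃) (hg'i a₃ b),
          ← P3 a₃ ⟨h23.le, le_refl _⟩, ← piece_ftc h30 C4 S4 hgi h.loop.ftc z3 f3 hb]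
        abel
      intro b hb
      rcases le_total b a₁ with i1 | i1
      · exact P1 b ⟨hb.1, i1⟩
      · rcases le_total b a₂ with i2 | i2
        · exact P2 b ⟨i1, i2⟩
        · rcases le_total b a₃ with i3 | i3
          · exact P3 b ⟨i2, i3⟩
          · exact P4 b ⟨i3, hb.2⟩
  have hDir : Dir (fun t => rot n f (C t) (S t) (g t)) = Dir g := by
    unfold Dir
    simp only [hnorm g]
  have hMass : Mass (fun t => rot n f (C t) (S t) (ψ t)) = Mass ψ := by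
    unfold Mass
    simp only [hnorm ψ]
  refine ⟨hloop, ?_, by rw [hMass]; exact h.pos, by rw [hDir, hMass]; exact h.eq, h.le⟩
  -- the closure condition
  have hadm := h.adm
  unfold Adm at hadm ⊢
  have hset : {s ∈ Ioc (0:ℝ) (2 * Real.pi) | rot n f (C s) (S s) (ψ s) = 0} =
      {s ∈ Ioc (0:ℝ) (2 * Real.pi) | ψ s = 0} := by
    ext t
    simp only [mem_ofPred_eq]
    have : rot n f (C t) (S t) (ψ t) = 0 ↔ ψ t = 0 := by
      rw [← norm_eq_zero, hnorm ψ t, norm_eq_zero]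
    rw [this]
  rw [hset]
  have hint : (∫ s in (0:ℝ)..(2 * Real.pi), (‖rot n f (C s) (S s) (ψ s)‖⁻¹ •
      rot n f (C s) (S s) (ψ s))) = ∫ s in (0:ℝ)..(2 * Real.pi), (‖ψ s‖⁻¹ • ψ s) := by
    have r1 : ∀ t, ‖rot n f (C t) (S t) (ψ t)‖⁻¹ • rot n f (C t) (S t) (ψ t) =
        rot n f (C t) (S t) (unit ψ t) := by
      intro t
      rw [hnorm ψ t]
      exact (rot_smul _ _).symm
    have r2 : ∀ t, ‖ψ t‖⁻¹ • ψ t = unit ψ t := fun t => rfl
    simp only [r1, r2]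
    have hup : Function.Periodic (unit ψ) (2 * Real.pi) := by
      intro t
      unfold unit
      rw [h.loop.per t]
    have hui := unit_integrable hψm
    have hrui : ∀ a b, IntervalIntegrable (fun t => rot n f (C t) (S t) (unit ψ t)) volume a b := by
      intro a b
      refine intervalIntegrable_of_bounded (C := 1) (hrm _ ?_) ?_ a b
      · exact (hψm.norm.aemeasurable.inv.aestronglyMeasurable).smul hψm
      · intro t
        rw [hnorm (unit ψ) t]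
        exact unit_norm_le ψ t
    have t1 := (hrp _ hup).intervalIntegral_add_eq 0 a₀
    have t2 := hup.intervalIntegral_add_eq 0 a₀
    rw [zero_add] at t1 t2
    rw [t1, t2]
    rw [← intervalIntegral.integral_add_adjacent_intervals (hrui a₀ a₃) (hrui a₃ _),
      ← intervalIntegral.integral_add_adjacent_intervals (hrui a₀ a₂) (hrui a₂ _),
      ← intervalIntegral.integral_add_adjacent_intervals (hrui a₀ a₁) (hrui a₁ _),
      ← intervalIntegral.integral_add_adjacent_intervals (hui a₀ a₃) (hui a₃ _),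
      ← intervalIntegral.integral_add_adjacent_intervals (hui a₀ a₂) (hui a₂ _),
      ← intervalIntegral.integral_add_adjacent_intervals (hui a₀ a₁) (hui a₁ _)]
    rw [piece_integral h01.le C1 S1 (hui _ _), piece_integral h12.le C2 S2 (hui _ _),
      piece_integral h23.le C3 S3 (hui _ _), piece_integral h30 C4 S4 (hui _ _), rot_one]
    have hf0 : ∀ a b : ℝ, a₀ ≤ a → a ≤ b → b ≤ a₃ →
        inner ℝ f (∫ s in a..b, unit ψ s) = 0 := by
      intro a b ha hab hb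
      rw [inner_integral_unit f hψm]
      have : ∫ s in a..b, inner ℝ f (ψ s) / ‖ψ s‖ = ∫ s in a..b, (0 : ℝ) := by
        refine intervalIntegral.integral_congr fun s hs => ?_
        rw [uIcc_of_le hab] at hs
        rw [hfψ s ⟨ha.trans hs.1, hs.2.trans hb⟩, zero_div]
      rw [this]
      simp
    have g1 := inner_integral_unit n hψm a₀ a₁
    have g2 := inner_integral_unit n hψm a₁ a₂
    have g3 := inner_integral_unit n hψm a₂ a₃
    rw [← hB1] at g1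
    rw [← hB2] at g2
    rw [← hB3] at g3
    unfold rot
    rw [g1, g2, g3, hf0 a₀ a₁ (le_refl _) h01.le (by linarith),
      hf0 a₁ a₂ h01.le h12.le (by linarith), hf0 a₂ a₃ (by linarith) h23.le (le_refl _)]
    generalize (∫ s in a₀..a₁, unit ψ s) = I₁
    generalize (∫ s in a₁..a₂, unit ψ s) = I₂
    generalize (∫ s in a₂..a₃, unit ψ s) = I₃
    generalize (∫ s in a₃..a₀ + 2 * Real.pi, unit ψ s) = I₄
    have k1 : (c₁ - 1) * B₁ + (c₂ - 1) * B₂ + (c₃ - 1) * B₃ = 0 := by linarith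
    have k2 : s₁ * B₁ + s₂ * B₂ + s₃ * B₃ = 0 := by linarith
    have k3 : I₁ + ((c₁ - 1) * B₁ - s₁ * 0) • n + (s₁ * B₁ + (c₁ - 1) * 0) • f +
        (I₂ + ((c₂ - 1) * B₂ - s₂ * 0) • n + (s₂ * B₂ + (c₂ - 1) * 0) • f) +
        (I₃ + ((c₃ - 1) * B₃ - s₃ * 0) • n + (s₃ * B₃ + (c₃ - 1) * 0) • f) + I₄ =
        I₁ + I₂ + I₃ + I₄ + ((c₁ - 1) * B₁ + (c₂ - 1) * B₂ + (c₃ - 1) * B₃) • n +
        (s₁ * B₁ + s₂ * B₂ + s₃ * B₃) • f := by module
    rw [k3, k1, k2, zero_smul, zero_smul, add_zero, add_zero]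
  rw [hint]
  exact hadm

/-- The flex lemma, if the Euler-Lagrange equation holds for all minimisers. -/
theorem flex_of_EL (hELall : ∀ (ψ g : ℝ → (E4 nd)) (e : ℝ), 0 < e → IsMin ψ g e →
    ∃ (p : ℝ → (E4 nd)) (μ : (E4 nd)), EL ψ p e μ) {ψ g p : ℝ → (E4 nd)} {e : ℝ} (he : 0 < e) (h : IsMin ψ g e)
    (hp : ∀ s, ψ s ≠ 0 → HasDerivAt ψ (p s) s) {n f : (E4 nd)} (hn : ‖n‖ = 1) (hf : ‖f‖ = 1)
    (hnf : inner ℝ n f = 0) {a₀ a₁ a₂ a₃ : ℝ} (h01 : a₀ < a₁) (h12 : a₁ < a₂) (h23 : a₂ < a₃)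
    (h30 : a₃ ≤ a₀ + 2 * Real.pi)
    (z0 : inner ℝ n (ψ a₀) = 0) (z1 : inner ℝ n (ψ a₁) = 0) (z2 : inner ℝ n (ψ a₂) = 0)
    (z3 : inner ℝ n (ψ a₃) = 0) (hfψ : ∀ s ∈ Icc a₀ a₃, inner ℝ f (ψ s) = 0)
    (hB1 : 0 < ∫ s in a₀..a₁, inner ℝ n (ψ s) / ‖ψ s‖)
    (hB2 : (∫ s in a₁..a₂, inner ℝ n (ψ s) / ‖ψ s‖) < 0)
    (hB3 : 0 < ∫ s in a₂..a₃, inner ℝ n (ψ s) / ‖ψ s‖)
    (hB : 0 < ∫ s in a₀..a₃, inner ℝ n (ψ s) / ‖ψ s‖)
    (hne : ψ a₁ ≠ 0) : inner ℝ n (p a₁) = 0 := by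
  have hψc := h.loop.continuous
  have hψm : AEStronglyMeasurable ψ (volume : Measure ℝ) := hψc.aestronglyMeasurable
  have hint : ∀ a b, IntervalIntegrable (fun s => inner ℝ n (ψ s) / ‖ψ s‖) volume a b := by
    intro a b
    have h0 := unit_integrable hψm a b
    have h1 : IntervalIntegrable (fun s => inner ℝ n (unit ψ s)) volume a b :=
      ⟨(innerSL ℝ n).integrable_comp h0.1, (innerSL ℝ n).integrable_comp h0.2⟩
    simpa only [inner_unit] using h1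
  have hsum : 0 < (∫ s in a₀..a₁, inner ℝ n (ψ s) / ‖ψ s‖) +
      (∫ s in a₁..a₂, inner ℝ n (ψ s) / ‖ψ s‖) + (∫ s in a₂..a₃, inner ℝ n (ψ s) / ‖ψ s‖) := by
    rw [intervalIntegral.integral_add_adjacent_intervals (hint _ _) (hint _ _),
      intervalIntegral.integral_add_adjacent_intervals (hint _ _) (hint _ _)]
    exact hB
  obtain ⟨c₁, s₁, c₂, s₂, c₃, s₃, q1, q2, q3, e1, e2, hne2⟩ := flex_angles hB1 hB2 hB3 hsum
  have hmin := isMin_rot h hn hf hnf h01 h12 h23 h30 z0 z1 z2 z3 hfψ rfl rfl rfl q1 q2 q3 e1 e2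
  obtain ⟨p', μ', hEL⟩ := hELall _ _ _ he hmin
  have f0 : inner ℝ f (ψ a₀) = 0 := hfψ _ ⟨le_refl _, by linarith⟩
  have f1 : inner ℝ f (ψ a₁) = 0 := hfψ _ ⟨by linarith, by linarith⟩
  have hψa1 : rot n f (step a₀ a₁ a₂ a₃ c₁ c₂ c₃ 1 a₁) (step a₀ a₁ a₂ a₃ s₁ s₂ s₃ 0 a₁) (ψ a₁) =
      ψ a₁ := rot_fix z1 f1
  have hne' : rot n f (step a₀ a₁ a₂ a₃ c₁ c₂ c₃ 1 a₁) (step a₀ a₁ a₂ a₃ s₁ s₂ s₃ 0 a₁) (ψ a₁) ≠
      0 := by
    rw [hψa1]; exact hne
  obtain ⟨hd, -⟩ := hEL a₁ hne'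
  have hpa := hp a₁ hne
  -- left derivative
  have hL : HasDerivWithinAt (fun s => rot n f (step a₀ a₁ a₂ a₃ c₁ c₂ c₃ 1 s)
      (step a₀ a₁ a₂ a₃ s₁ s₂ s₃ 0 s) (ψ s)) (rot n f c₁ s₁ (p a₁)) (Icc a₀ a₁) a₁ := by
    have h1 : HasDerivWithinAt (fun s => rot n f c₁ s₁ (ψ s)) (rot n f c₁ s₁ (p a₁))
        (Icc a₀ a₁) a₁ :=
      ((rotL n f c₁ s₁).hasFDerivAt.comp_hasDerivAt a₁ hpa).hasDerivWithinAt
    refine h1.congr_of_mem (fun t ht => ?_) ⟨h01.le, le_refl _⟩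
    exact piece_eq (fun t ht => step_one h01 h12 h23 h30 ht)
      (fun t ht => step_one h01 h12 h23 h30 ht) z0 f0 ht
  have hR : HasDerivWithinAt (fun s => rot n f (step a₀ a₁ a₂ a₃ c₁ c₂ c₃ 1 s)
      (step a₀ a₁ a₂ a₃ s₁ s₂ s₃ 0 s) (ψ s)) (rot n f c₂ s₂ (p a₁)) (Icc a₁ a₂) a₁ := by
    have h1 : HasDerivWithinAt (fun s => rot n f c₂ s₂ (ψ s)) (rot n f c₂ s₂ (p a₁))
        (Icc a₁ a₂) a₁ :=
      ((rotL n f c₂ s₂).hasFDerivAt.comp_hasDerivAt a₁ hpa).hasDerivWithinAt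
    refine h1.congr_of_mem (fun t ht => ?_) ⟨le_refl _, h12.le⟩
    exact piece_eq (fun t ht => step_two h01 h12 h23 h30 ht)
      (fun t ht => step_two h01 h12 h23 h30 ht) z1 f1 ht
  have k1 : p' a₁ = rot n f c₁ s₁ (p a₁) :=
    (uniqueDiffOn_Icc h01 a₁ ⟨h01.le, le_refl _⟩).eq_deriv _ hd.hasDerivWithinAt hL
  have k2 : p' a₁ = rot n f c₂ s₂ (p a₁) :=
    (uniqueDiffOn_Icc h12 a₁ ⟨le_refl _, h12.le⟩).eq_deriv _ hd.hasDerivWithinAt hR
  have k3 : rot n f c₁ s₁ (p a₁) = rot n f c₂ s₂ (p a₁) := k1.symm.trans k2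
  -- the component along f vanishes
  have hfp : inner ℝ f (p a₁) = 0 := by
    have d1 : HasDerivAt (fun s => inner ℝ f (ψ s)) (inner ℝ f (p a₁)) a₁ :=
      (innerSL ℝ f).hasFDerivAt.comp_hasDerivAt a₁ hpa
    have d2 : HasDerivAt (fun s => inner ℝ f (ψ s)) 0 a₁ := by
      refine (hasDerivAt_const a₁ (0 : ℝ)).congr_of_eventuallyEq ?_
      filter_upwards [Icc_mem_nhds h01 (h12.trans h23)] with t ht
      exact hfψ t ht
    exact d1.unique d2
  have m1 := congrArg (fun v => inner ℝ n v) k3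
  have m2 := congrArg (fun v => inner ℝ f v) k3
  simp only [inner_n_rot hn hnf, inner_f_rot hf hnf, hfp, mul_zero, sub_zero, add_zero] at m1 m2
  rcases hne2 with h1 | h1
  · by_contra hcon
    exact h1 (mul_right_cancel₀ hcon m1)
  · by_contra hcon
    exact h1 (mul_right_cancel₀ hcon m2)


end Ovals2801ND.FlexAux
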