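import Mathlib.Analysis.Calculus.Deriv.MeanValue
import Mathlib.Analysis.Calculus.Deriv.Shift
import Mathlib.Analysis.Calculus.Deriv.Inv
import Mathlib.Analysis.Calculus.MeanValue
import Mathlib.Analysis.Calculus.Deriv.Slope
import Mathlib.Analysis.Calculus.LocalExtr.Basic
import Mathlib.Analysis.InnerProductSpace.Calculus
import Mathlib.Analysis.SpecialFunctions.Sqrt
import Mathlib.Tactic.FieldSimp
import Mathlib.Tactic.LinearCombination
import Pool.Agent.Lib.Ovals2801ND.Defs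
import Pool.Agent.Lib.Ovals2801ND.AdmInterval
import Pool.Agent.Lib.MP_2801bd_mp.ArcBound
import Pool.Agent.Lib.Ovals2801ND.H1Basic
import Pool.Agent.Lib.Ovals2801ND.NoRadialCore
import Pool.Agent.Lib.Ovals2801ND.PlanarCore

/-!
# MP_2801bd_mp: there is no minimiser below one (module M6)
-/

open MeasureTheory Set Filter Topology

namespace Ovals2801ND

open Ovals2801

variable {nd : ℕ}

namespace NoMinAux

/-! ## one variable lemmas -/

lemma pos_right {f : ℝ → ℝ} {f' s : ℝ} (hf : HasDerivAt f f' s) (h : 0 < f') (h0 : f s = 0) :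
    ∀ᶠ t in 𝓝[>] s, 0 < f t := by
  have h1 := (hasDerivAt_iff_tendsto_slope.1 hf)
  have h2 : Tendsto (slope f s) (𝓝[>] s) (𝓝 f') :=
    h1.mono_left (nhdsWithin_mono _ fun t ht => ne_of_gt ht)
  filter_upwards [h2.eventually (lt_mem_nhds h), self_mem_nhdsWithin] with t ht hst
  rw [slope_def_field, h0, sub_zero] at ht
  have hst' : 0 < t - s := sub_pos.2 hst
  have := mul_pos ht hst'
  rwa [div_mul_cancel₀ _ hst'.ne'] at this

lemma neg_left {f : ℝ → ℝ} {f' s : ℝ} (hf : HasDerivAt f f' s) (h : 0 < f') (h0 : f s = 0) :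
    ∀ᶠ t in 𝓝[<] s, f t < 0 := by
  have h1 := (hasDerivAt_iff_tendsto_slope.1 hf)
  have h2 : Tendsto (slope f s) (𝓝[<] s) (𝓝 f') :=
    h1.mono_left (nhdsWithin_mono _ fun t ht => ne_of_lt ht)
  filter_upwards [h2.eventually (lt_mem_nhds h), self_mem_nhdsWithin] with t ht hst
  rw [slope_def_field, h0, sub_zero] at ht
  have hst' : t - s < 0 := sub_neg.2 hst
  have := mul_neg_of_pos_of_neg ht hst'
  rwa [div_mul_cancel₀ _ hst'.ne] at this

lemma first_zero {f : ℝ → ℝ} {s B : ℝ} (hf : ContinuousOn f (Icc s B)) (hsB : s < B)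
    (h0 : ∀ᶠ t in 𝓝[>] s, 0 < f t) (hB : f B = 0) :
    ∃ b ∈ Ioc s B, f b = 0 ∧ ∀ t ∈ Ioo s b, 0 < f t := by
  obtain ⟨u, hu, hpos⟩ := (mem_nhdsGT_iff_exists_Ioo_subset.1 h0)
  have hu' : s < u := hu
  set v : ℝ := (s + min u B) / 2 with hv
  have hm : s < min u B := lt_min hu' hsB
  have hv1 : s < v := by rw [hv]; linarith
  have hv2 : v < min u B := by rw [hv]; linarith
  have hvu : v < u := lt_of_lt_of_le hv2 (min_le_left _ _)
  have hvB : v < B := lt_of_lt_of_le hv2 (min_le_right _ _)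
  have hsmall : ∀ t ∈ Ioc s v, 0 < f t := fun t ht => hpos ⟨ht.1, lt_of_le_of_lt ht.2 hvu⟩
  set Z : Set ℝ := Icc v B ∩ f ⁻¹' {0} with hZ
  have hfv : ContinuousOn f (Icc v B) := hf.mono (Icc_subset_Icc_left hv1.le)
  have hZc : IsCompact Z :=
    isCompact_Icc.of_isClosed_subset (hfv.preimage_isClosed_of_isClosed isClosed_Icc
      isClosed_singleton) inter_subset_left
  have hZn : Z.Nonempty := ⟨B, ⟨hvB.le, le_rfl⟩, hB⟩
  obtain ⟨b, hb, hmin⟩ := hZc.exists_isLeast hZn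
  have hvb : v < b := by
    rcases lt_or_eq_of_le hb.1.1 with h | h
    · exact h
    · exfalso
      have h1 : f v = 0 := by
        have := hb.2
        rw [← h] at this
        exact this
      have := hsmall v ⟨hv1, le_rfl⟩
      linarith
  refine ⟨b, ⟨by linarith, hb.1.2⟩, hb.2, fun t ht => ?_⟩
  rcases le_or_gt t v with h | h
  · exact hsmall t ⟨ht.1, h⟩
  · by_contra hneg
    push Not at hneg
    have hfv0 := hsmall v ⟨hv1, le_rfl⟩
    have hcont : ContinuousOn f (Icc v t) :=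
      hf.mono (Icc_subset_Icc hv1.le (by linarith [ht.2, hb.1.2]))
    obtain ⟨z, hz, hz0⟩ := intermediate_value_Icc' h.le hcont ⟨hneg, hfv0.le⟩
    have hzZ : z ∈ Z := ⟨⟨hz.1, by linarith [hz.2, ht.2, hb.1.2]⟩, hz0⟩
    have := hmin hzZ
    linarith [hz.2, ht.2]

lemma last_zero {f : ℝ → ℝ} {s A : ℝ} (hf : ContinuousOn f (Icc A s)) (hsA : A < s)
    (h0 : ∀ᶠ t in 𝓝[<] s, f t < 0) (hA : f A = 0) :
    ∃ a ∈ Ico A s, f a = 0 ∧ ∀ t ∈ Ioo a s, f t < 0 := by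
  have hg : ContinuousOn (fun t => -f (-t)) (Icc (-s) (-A)) := by
    refine (hf.comp continuous_neg.continuousOn ?_).neg
    intro t ht
    exact ⟨by linarith [ht.2], by linarith [ht.1]⟩
  have h1 : ∀ᶠ t in 𝓝[>] (-s), 0 < -f (-t) := by
    have : Tendsto (fun t : ℝ => -t) (𝓝[>] (-s)) (𝓝[<] s) := by
      have := tendsto_neg_nhdsGT (a := -s)
      rwa [neg_neg] at this
    filter_upwards [this.eventually h0] with t ht
    linarith
  obtain ⟨b, hb, hb0, hb1⟩ := first_zero hg (by linarith : -s < -A) h1 (by simp [hA])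
  refine ⟨-b, ⟨by linarith [hb.2], by linarith [hb.1]⟩, ?_, fun t ht => ?_⟩
  · linarith
  · have := hb1 (-t) ⟨by linarith [ht.2], by linarith [ht.1]⟩
    rw [neg_neg] at this
    linarith

/-! ## planar systems -/

/-- The planar system on a set `J` of times. -/
structure Pl (x y vx vy : ℝ → ℝ) (e m : ℝ) (J : Set ℝ) : Prop where
  hx : ∀ t ∈ J, HasDerivAt x (vx t) t
  hy : ∀ t ∈ J, HasDerivAt y (vy t) t
  hvx : ∀ t ∈ J, HasDerivAt vx
    (-(e * x t) + m * y t ^ 2 / Real.sqrt (x t ^ 2 + y t ^ 2) ^ 3) t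
  hvy : ∀ t ∈ J, HasDerivAt vy
    (-(e * y t) - m * (x t * y t) / Real.sqrt (x t ^ 2 + y t ^ 2) ^ 3) t
  L : ∀ t ∈ J, 0 < x t * vy t - y t * vx t

variable {x y vx vy : ℝ → ℝ} {e m : ℝ} {J : Set ℝ}

namespace Pl

variable (h : Pl x y vx vy e m J)
include h

lemma r_pos {t : ℝ} (ht : t ∈ J) : 0 < x t ^ 2 + y t ^ 2 := by
  by_contra hneg
  push Not at hneg
  have h1 : x t = 0 := by nlinarith [sq_nonneg (x t), sq_nonneg (y t)]
  have h2 : y t = 0 := by nlinarith [sq_nonneg (x t), sq_nonneg (y t)]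
  have := h.L t ht
  rw [h1, h2] at this
  simp at this

lemma hasDerivAt_L {t : ℝ} (ht : t ∈ J) :
    HasDerivAt (fun t => x t * vy t - y t * vx t) (-(m * y t / Real.sqrt (x t ^ 2 + y t ^ 2))) t := by
  have hr := h.r_pos ht
  have hs : 0 < Real.sqrt (x t ^ 2 + y t ^ 2) := Real.sqrt_pos.2 hr
  have hs2 : Real.sqrt (x t ^ 2 + y t ^ 2) ^ 2 = x t ^ 2 + y t ^ 2 := Real.sq_sqrt hr.le
  refine (((h.hx t ht).mul (h.hvy t ht)).sub ((h.hy t ht).mul (h.hvx t ht))).congr_deriv ?_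
  field_simp
  set r := Real.sqrt (x t ^ 2 + y t ^ 2)
  linear_combination (m * y t) * hs2

/-- the right sign at a zero of `y` before which `y` is positive -/
lemma x_neg_right {b : ℝ} (hb : b ∈ J) (hyb : y b = 0) {s : ℝ} (hs : s < b)
    (hpos : ∀ t ∈ Ioo s b, 0 < y t) : x b < 0 := by
  have hL := h.L b hb
  rw [hyb, zero_mul, sub_zero] at hL
  have hvy : vy b ≤ 0 := by
    by_contra hneg
    push Not at hneg
    have h1 := neg_left (h.hy b hb) hneg hyb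
    have h2 : ∀ᶠ t in 𝓝[<] b, t ∈ Ioo s b := Ioo_mem_nhdsLT hs
    obtain ⟨t, ht1, ht2⟩ := (h1.and h2).exists
    have := hpos t ht2
    linarith
  by_contra hneg
  push Not at hneg
  have := mul_nonpos_of_nonneg_of_nonpos hneg hvy
  linarith

/-- the same at the left -/
lemma x_neg_left {a : ℝ} (ha : a ∈ J) (hya : y a = 0) {s : ℝ} (hs : a < s)
    (hneg : ∀ t ∈ Ioo a s, y t < 0) : x a < 0 := by
  have hL := h.L a ha
  rw [hya, zero_mul, sub_zero] at hL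
  have hvy : vy a ≤ 0 := by
    by_contra hcon
    push Not at hcon
    have h1 := pos_right (h.hy a ha) hcon hya
    have h2 : ∀ᶠ t in 𝓝[>] a, t ∈ Ioo a s := Ioo_mem_nhdsGT hs
    obtain ⟨t, ht1, ht2⟩ := (h1.and h2).exists
    have := hneg t ht2
    linarith
  by_contra hcon
  push Not at hcon
  have := mul_nonpos_of_nonneg_of_nonpos hcon hvy
  linarith

/-- A maximum of the angular momentum. -/
lemma max_point (hm : 0 < m) {s₀ : ℝ} (hJ : J ∈ 𝓝 s₀) (hs : s₀ ∈ J)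
    (hmax : ∀ t ∈ J, x t * vy t - y t * vx t ≤ x s₀ * vy s₀ - y s₀ * vx s₀) :
    y s₀ = 0 ∧ 0 < x s₀ := by
  have hr := h.r_pos hs
  have hsq : 0 < Real.sqrt (x s₀ ^ 2 + y s₀ ^ 2) := Real.sqrt_pos.2 hr
  have hloc : IsLocalMax (fun t => x t * vy t - y t * vx t) s₀ := by
    filter_upwards [hJ] with t ht
    exact hmax t ht
  have h1 := hloc.hasDerivAt_eq_zero (h.hasDerivAt_L hs)
  have hy0 : y s₀ = 0 := by
    have h2 : m * y s₀ / Real.sqrt (x s₀ ^ 2 + y s₀ ^ 2) = 0 := by linarith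
    rw [div_eq_zero_iff] at h2
    rcases h2 with h2 | h2
    · rcases mul_eq_zero.1 h2 with h3 | h3
      · exact absurd h3 hm.ne'
      · exact h3
    · exact absurd h2 hsq.ne'
  refine ⟨hy0, ?_⟩
  have hL := h.L s₀ hs
  rw [hy0, zero_mul, sub_zero] at hL
  by_contra hneg
  push Not at hneg
  have hvy : vy s₀ < 0 := by
    by_contra hcon
    push Not at hcon
    have := mul_nonpos_of_nonpos_of_nonneg hneg hcon
    linarith
  -- `y` is positive on the left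
  have h2 := neg_left ((h.hy s₀ hs).neg) (by linarith : 0 < -vy s₀) (by simp [hy0])
  obtain ⟨u, hu, hu'⟩ := mem_nhdsLT_iff_exists_Ioo_subset.1
    (Filter.inter_mem h2 (mem_nhdsWithin_of_mem_nhds hJ))
  have hus : u < s₀ := hu
  set c : ℝ := (u + s₀) / 2 with hc
  have hcs : c < s₀ := by rw [hc]; linarith
  have huc : u < c := by rw [hc]; linarith
  have hIn : ∀ t ∈ Ico c s₀, 0 < y t ∧ t ∈ J := by
    intro t ht
    have := hu' ⟨lt_of_lt_of_le huc ht.1, ht.2⟩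
    refine ⟨?_, this.2⟩
    have h3 : -y t < 0 := this.1
    linarith
  have hJc : ∀ t ∈ Icc c s₀, t ∈ J := by
    intro t ht
    rcases lt_or_eq_of_le ht.2 with h3 | h3
    · exact (hIn t ⟨ht.1, h3⟩).2
    · rw [h3]; exact hs
  have hanti : StrictAntiOn (fun t => x t * vy t - y t * vx t) (Icc c s₀) := by
    refine strictAntiOn_of_deriv_neg (convex_Icc _ _)
      (fun t ht => (h.hasDerivAt_L (hJc t ht)).continuousAt.continuousWithinAt) ?_
    intro t ht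
    rw [interior_Icc] at ht
    have ht' : t ∈ Ico c s₀ := ⟨ht.1.le, ht.2⟩
    rw [(h.hasDerivAt_L (hIn t ht').2).deriv]
    have h3 := (hIn t ht').1
    have h4 : 0 < Real.sqrt (x t ^ 2 + y t ^ 2) := Real.sqrt_pos.2 (h.r_pos (hIn t ht').2)
    have : 0 < m * y t / Real.sqrt (x t ^ 2 + y t ^ 2) := by positivity
    linarith
  have h5 := hanti ⟨le_rfl, hcs.le⟩ ⟨hcs.le, le_rfl⟩ hcs
  have h6 := hmax c (hJc c ⟨le_rfl, hcs.le⟩)
  have h7 : x s₀ * vy s₀ - y s₀ * vx s₀ < x c * vy c - y c * vx c := h5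
  linarith

/-- The velocity is bounded. -/
lemma bounded (hJo : IsOpen J) (hJc : IsPreconnected J) (he : 0 < e) (hm : 0 ≤ m) :
    ∃ C, ∀ t ∈ J, vx t ^ 2 + vy t ^ 2 ≤ C := by
  rcases J.eq_empty_or_nonempty with hJ | ⟨s, hs⟩
  · exact ⟨0, fun t ht => by rw [hJ] at ht; exact absurd ht (notMem_empty t)⟩
  set E : ℝ → ℝ := fun t => (vx t ^ 2 + vy t ^ 2) / 2 + e * (x t ^ 2 + y t ^ 2) / 2 -
    m * (x t / Real.sqrt (x t ^ 2 + y t ^ 2)) with hE
  have hd : ∀ t ∈ J, HasDerivAt E 0 t := by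
    intro t ht
    have hr := h.r_pos ht
    have hsq : 0 < Real.sqrt (x t ^ 2 + y t ^ 2) := Real.sqrt_pos.2 hr
    have hs2 : Real.sqrt (x t ^ 2 + y t ^ 2) ^ 2 = x t ^ 2 + y t ^ 2 := Real.sq_sqrt hr.le
    have h1 := ((((h.hvx t ht).pow 2).add ((h.hvy t ht).pow 2)).div_const 2)
    have h2 := (((h.hx t ht).pow 2).add ((h.hy t ht).pow 2))
    have h3 := (h2.const_mul e).div_const 2
    have h4 := ((h.hx t ht).div (h2.sqrt hr.ne') hsq.ne').const_mul m
    refine ((h1.add h3).sub h4).congr_deriv ?_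
    have e1 : (x ^ 2 + y ^ 2) t = x t ^ 2 + y t ^ 2 := rfl
    rw [e1]
    simp only [Nat.cast_ofNat, Nat.add_one_sub_one, pow_one]
    set r := Real.sqrt (x t ^ 2 + y t ^ 2)
    field_simp
    linear_combination (-(m * vx t)) * hs2
  have hconst : ∀ t ∈ J, E t = E s := by
    intro t ht
    refine hJo.is_const_of_deriv_eq_zero hJc
      (fun t ht => (hd t ht).differentiableAt.differentiableWithinAt) (fun t ht => (hd t ht).deriv)
      ht hs
  refine ⟨2 * (|E s| + m), fun t ht => ?_⟩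
  have hr := h.r_pos ht
  have hsq : 0 < Real.sqrt (x t ^ 2 + y t ^ 2) := Real.sqrt_pos.2 hr
  have h1 : |x t / Real.sqrt (x t ^ 2 + y t ^ 2)| ≤ 1 := by
    rw [abs_div, abs_of_pos hsq, div_le_one hsq]
    exact Real.abs_le_sqrt (by nlinarith [sq_nonneg (y t)])
  have h2 := hconst t ht
  have h3 := abs_le.1 h1
  have h4 := le_abs_self (E s)
  have h5 : E t = (vx t ^ 2 + vy t ^ 2) / 2 + e * (x t ^ 2 + y t ^ 2) / 2 -
    m * (x t / Real.sqrt (x t ^ 2 + y t ^ 2)) := rfl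
  have h6 : 0 ≤ e * (x t ^ 2 + y t ^ 2) := by positivity
  have h7 : m * (x t / Real.sqrt (x t ^ 2 + y t ^ 2)) ≤ m * 1 :=
    mul_le_mul_of_nonneg_left h3.2 hm
  linarith

end Pl

/-! ## frames -/

lemma inner_force (e : ℝ) (μ x u : (E4 nd)) :
    inner ℝ u (force e μ x) = -(e * inner ℝ u x) +
      ‖x‖⁻¹ * (inner ℝ u μ - inner ℝ x μ / ‖x‖ ^ 2 * inner ℝ u x) := by
  unfold force
  rw [inner_add_right, inner_neg_right, real_inner_smul_right, real_inner_smul_right,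
    inner_sub_right, real_inner_smul_right]

lemma decomp {f₁ f₂ v : (E4 nd)} (h1 : ‖f₁‖ = 1) (h2 : ‖f₂‖ = 1) (h12 : inner ℝ f₁ f₂ = 0)
    (h : ∀ n : (E4 nd), inner ℝ f₁ n = 0 → inner ℝ f₂ n = 0 → inner ℝ n v = 0) :
    v = inner ℝ f₁ v • f₁ + inner ℝ f₂ v • f₂ := by
  have s1 : inner ℝ f₁ f₁ = 1 := by rw [real_inner_self_eq_norm_sq, h1, one_pow]
  have s2 : inner ℝ f₂ f₂ = 1 := by rw [real_inner_self_eq_norm_sq, h2, one_pow]
  have s21 : inner ℝ f₂ f₁ = 0 := by rw [real_inner_comm]; exact h12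
  set n : (E4 nd) := v - (inner ℝ f₁ v • f₁ + inner ℝ f₂ v • f₂) with hn
  have a1 : inner ℝ f₁ n = 0 := by
    rw [hn, inner_sub_right, inner_add_right, real_inner_smul_right, real_inner_smul_right, s1,
      h12]
    ring
  have a2 : inner ℝ f₂ n = 0 := by
    rw [hn, inner_sub_right, inner_add_right, real_inner_smul_right, real_inner_smul_right, s2,
      s21]
    ring
  have a3 := h n a1 a2
  have a4 : inner ℝ n n = 0 := by
    have a5 : inner ℝ n n = inner ℝ n v - (inner ℝ f₁ v * inner ℝ n f₁ +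
        inner ℝ f₂ v * inner ℝ n f₂) := by
      conv_lhs => rw [hn]
      rw [← hn, inner_sub_right, inner_add_right, real_inner_smul_right, real_inner_smul_right]
    have a6 : inner ℝ n f₁ = 0 := by rw [real_inner_comm]; exact a1
    have a7 : inner ℝ n f₂ = 0 := by rw [real_inner_comm]; exact a2
    rw [a5, a3, a6, a7]
    ring
  exact sub_eq_zero.1 (inner_self_eq_zero.1 a4)

lemma orth_pair {A B : (E4 nd)} (hA : A ≠ 0) (hB : ∀ c : ℝ, B ≠ c • A) :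
    ∃ (f₁ f₂ : (E4 nd)) (a b c : ℝ), ‖f₁‖ = 1 ∧ ‖f₂‖ = 1 ∧ inner ℝ f₁ f₂ = 0 ∧ 0 < a ∧
      A = a • f₁ ∧ 0 < c ∧ B = b • f₁ + c • f₂ := by
  have hAn : 0 < ‖A‖ := norm_pos_iff.2 hA
  obtain ⟨f₁, hf₁⟩ : ∃ f : (E4 nd), f = ‖A‖⁻¹ • A := ⟨_, rfl⟩
  obtain ⟨C, hC⟩ : ∃ f : (E4 nd), f = B - inner ℝ f₁ B • f₁ := ⟨_, rfl⟩
  have hC0 : C ≠ 0 := by
    intro h0
    refine hB (inner ℝ f₁ B * ‖A‖⁻¹) ?_
    rw [mul_smul, ← hf₁]
    rw [h0] at hC
    exact sub_eq_zero.1 hC.symm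
  have hCn : 0 < ‖C‖ := norm_pos_iff.2 hC0
  have n1 : ‖f₁‖ = 1 := by
    rw [hf₁, norm_smul, norm_inv, norm_norm, inv_mul_cancel₀ hAn.ne']
  have s1 : inner ℝ f₁ f₁ = 1 := by rw [real_inner_self_eq_norm_sq, n1, one_pow]
  refine ⟨f₁, ‖C‖⁻¹ • C, ‖A‖, inner ℝ f₁ B, ‖C‖, n1, ?_, ?_, hAn, ?_, hCn, ?_⟩
  · rw [norm_smul, norm_inv, norm_norm, inv_mul_cancel₀ hCn.ne']
  · rw [real_inner_smul_right, hC, inner_sub_right, real_inner_smul_right, s1]
    ring
  · rw [hf₁, smul_smul, mul_inv_cancel₀ hAn.ne', one_smul]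
  · rw [smul_smul, mul_inv_cancel₀ hCn.ne', one_smul, hC]
    abel

/-- A frame of the plane of the motion. -/
structure Frame (ψ p : ℝ → (E4 nd)) (e : ℝ) (J : Set ℝ) (e₁ e₂ : (E4 nd)) (m : ℝ) : Prop where
  n1 : ‖e₁‖ = 1
  m0 : 0 ≤ m
  norm : ∀ t ∈ J, ‖ψ t‖ = Real.sqrt ((inner ℝ e₁ (ψ t)) ^ 2 + (inner ℝ e₂ (ψ t)) ^ 2)
  pl : Pl (fun t => inner ℝ e₁ (ψ t)) (fun t => inner ℝ e₂ (ψ t)) (fun t => inner ℝ e₁ (p t))
    (fun t => inner ℝ e₂ (p t)) e m J

lemma frame_exists (hELall : ∀ (ψ g : ℝ → (E4 nd)) (e : ℝ), 0 < e → IsMin ψ g e →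
      ∃ (p : ℝ → (E4 nd)) (μ : (E4 nd)), EL ψ p e μ)
    {ψ g p : ℝ → (E4 nd)} {e : ℝ} {μ : (E4 nd)} (he : 0 < e) (he1 : e < 1)
    (h : IsMin ψ g e) (hEL : EL ψ p e μ) {J : Set ℝ} (hJ : J.OrdConnected)
    (hne : ∀ s ∈ J, ψ s ≠ 0) {s₁ : ℝ} (h1 : s₁ ∈ J) :
    ∃ (e₁ e₂ : (E4 nd)) (m : ℝ), Frame ψ p e J e₁ e₂ m ∧
      (m = 0 → inner ℝ e₂ (ψ s₁) = 0 ∧ 0 < inner ℝ e₁ (ψ s₁)) := by
  have hA : ψ s₁ ≠ 0 := hne s₁ h1
  obtain ⟨f₁, f₂, a₀, b₀, c₀, n1, n2, n12, ha₀, hAf, hc₀, hBf⟩ :=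
    orth_pair hA fun c hc => no_radial_of_EL hELall he he1 h hEL hA hc
  have s1 : inner ℝ f₁ f₁ = 1 := by rw [real_inner_self_eq_norm_sq, n1, one_pow]
  have s2 : inner ℝ f₂ f₂ = 1 := by rw [real_inner_self_eq_norm_sq, n2, one_pow]
  have n21 : inner ℝ f₂ f₁ = 0 := by rw [real_inner_comm]; exact n12
  have q1 : inner ℝ f₁ (ψ s₁) = a₀ := by
    rw [hAf, real_inner_smul_right, s1, mul_one]
  have q2 : inner ℝ f₂ (ψ s₁) = 0 := by
    rw [hAf, real_inner_smul_right, n21, mul_zero]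
  have q3 : inner ℝ f₂ (p s₁) = c₀ := by
    rw [hBf, inner_add_right, real_inner_smul_right, real_inner_smul_right, n21, s2]
    ring
  have dec : ∀ v : (E4 nd), (∀ n : (E4 nd), inner ℝ n (ψ s₁) = 0 → inner ℝ n (p s₁) = 0 →
      inner ℝ n v = 0) → v = inner ℝ f₁ v • f₁ + inner ℝ f₂ v • f₂ := by
    intro v hv
    refine decomp n1 n2 n12 fun n hn1 hn2 => hv n ?_ ?_
    · rw [hAf, real_inner_smul_right, real_inner_comm, hn1, mul_zero]
    · rw [hBf, inner_add_right, real_inner_smul_right, real_inner_smul_right,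
        real_inner_comm f₁ n, hn1, real_inner_comm f₂ n, hn2]
      ring
  have dμ := dec μ fun n hn hn' => (planar_of_EL hELall he h hEL hA hn hn').1
  have dψ : ∀ s ∈ J, ψ s = inner ℝ f₁ (ψ s) • f₁ + inner ℝ f₂ (ψ s) • f₂ := fun s hs =>
    dec _ fun n hn hn' => ((planar_of_EL hELall he h hEL hA hn hn').2 s
      fun t ht => hne t (hJ.uIcc_subset h1 hs ht)).1
  have dp : ∀ s ∈ J, p s = inner ℝ f₁ (p s) • f₁ + inner ℝ f₂ (p s) • f₂ := fun s hs =>
    dec _ fun n hn hn' => ((planar_of_EL hELall he h hEL hA hn hn').2 s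
      fun t ht => hne t (hJ.uIcc_subset h1 hs ht)).2
  set α : ℝ := inner ℝ f₁ μ with hα
  set β : ℝ := inner ℝ f₂ μ with hβ
  obtain ⟨m, c, d, hm, hcd, hαc, hβd, h0⟩ : ∃ m c d : ℝ, 0 ≤ m ∧ c ^ 2 + d ^ 2 = 1 ∧ α = m * c ∧
      β = m * d ∧ (m = 0 → c = 1 ∧ d = 0) := by
    set m : ℝ := Real.sqrt (α ^ 2 + β ^ 2) with hm
    have hm0 : 0 ≤ m := Real.sqrt_nonneg _
    have hm2 : m ^ 2 = α ^ 2 + β ^ 2 := Real.sq_sqrt (by positivity)
    rcases hm0.lt_or_eq with h2 | h2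
    · refine ⟨m, α / m, β / m, hm0, ?_, ?_, ?_, fun h3 => absurd h3 h2.ne'⟩
      · rw [div_pow, div_pow, ← add_div, ← hm2, div_self (by positivity)]
      · field_simp
      · field_simp
    · rw [← h2] at hm2
      have h3 : α = 0 := by nlinarith [sq_nonneg α, sq_nonneg β]
      have h4 : β = 0 := by nlinarith [sq_nonneg α, sq_nonneg β]
      exact ⟨0, 1, 0, le_rfl, by norm_num, by rw [h3]; ring, by rw [h4]; ring,
        fun _ => ⟨rfl, rfl⟩⟩
  obtain ⟨e₁, he₁⟩ : ∃ f : (E4 nd), f = c • f₁ + d • f₂ := ⟨_, rfl⟩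
  obtain ⟨e₂, he₂⟩ : ∃ f : (E4 nd), f = (-d) • f₁ + c • f₂ := ⟨_, rfl⟩
  have i1 : ∀ v : (E4 nd), inner ℝ e₁ v = c * inner ℝ f₁ v + d * inner ℝ f₂ v := by
    intro v
    rw [he₁, inner_add_left, real_inner_smul_left, real_inner_smul_left]
  have i2 : ∀ v : (E4 nd), inner ℝ e₂ v = -d * inner ℝ f₁ v + c * inner ℝ f₂ v := by
    intro v
    rw [he₂, inner_add_left, real_inner_smul_left, real_inner_smul_left]
  have hn1 : ‖e₁‖ = 1 := by
    have : ‖e₁‖ ^ 2 = 1 := by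
      have e11 : inner ℝ f₁ e₁ = c := by
        rw [he₁, inner_add_right, real_inner_smul_right, real_inner_smul_right, s1, n12]
        ring
      have e12 : inner ℝ f₂ e₁ = d := by
        rw [he₁, inner_add_right, real_inner_smul_right, real_inner_smul_right, s2, n21]
        ring
      rw [← real_inner_self_eq_norm_sq, i1, e11, e12]
      linear_combination hcd
    have h2 := norm_nonneg e₁
    nlinarith
  have hsq : ∀ s ∈ J, ‖ψ s‖ ^ 2 = (inner ℝ f₁ (ψ s)) ^ 2 + (inner ℝ f₂ (ψ s)) ^ 2 := by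
    intro s hs
    rw [← real_inner_self_eq_norm_sq]
    have k : inner ℝ (ψ s) (ψ s) = inner ℝ (inner ℝ f₁ (ψ s) • f₁ + inner ℝ f₂ (ψ s) • f₂) (ψ s) := by
      rw [← dψ s hs]
    rw [k, inner_add_left, real_inner_smul_left, real_inner_smul_left]
    ring
  have hsq' : ∀ s ∈ J, ‖ψ s‖ ^ 2 = (inner ℝ e₁ (ψ s)) ^ 2 + (inner ℝ e₂ (ψ s)) ^ 2 := by
    intro s hs
    rw [hsq s hs, i1, i2]
    linear_combination (-((inner ℝ f₁ (ψ s)) ^ 2 + (inner ℝ f₂ (ψ s)) ^ 2)) * hcd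
  have hnorm : ∀ s ∈ J, ‖ψ s‖ = Real.sqrt ((inner ℝ e₁ (ψ s)) ^ 2 + (inner ℝ e₂ (ψ s)) ^ 2) := by
    intro s hs
    rw [← hsq' s hs, Real.sqrt_sq (norm_nonneg _)]
  have hμ1 : inner ℝ e₁ μ = m := by
    rw [i1, ← hα, ← hβ, hαc, hβd]
    linear_combination m * hcd
  have hμ2 : inner ℝ e₂ μ = 0 := by
    rw [i2, ← hα, ← hβ, hαc, hβd]
    ring
  have hμψ : ∀ s, inner ℝ (ψ s) μ = m * inner ℝ e₁ (ψ s) := by
    intro s
    rw [dμ, inner_add_right, real_inner_smul_right, real_inner_smul_right, hαc, hβd, i1,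
      real_inner_comm f₁ (ψ s), real_inner_comm f₂ (ψ s)]
    ring
  -- the angular momentum
  have hLf : ∀ s, inner ℝ e₁ (ψ s) * inner ℝ e₂ (p s) - inner ℝ e₂ (ψ s) * inner ℝ e₁ (p s) =
      inner ℝ f₁ (ψ s) * inner ℝ f₂ (p s) - inner ℝ f₂ (ψ s) * inner ℝ f₁ (p s) := by
    intro s
    rw [i1, i2, i2, i1]
    linear_combination (inner ℝ f₁ (ψ s) * inner ℝ f₂ (p s) -
      inner ℝ f₂ (ψ s) * inner ℝ f₁ (p s)) * hcd
  have hL1 : 0 < inner ℝ e₁ (ψ s₁) * inner ℝ e₂ (p s₁) - inner ℝ e₂ (ψ s₁) * inner ℝ e₁ (p s₁) := by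
    rw [hLf, q1, q2, q3, zero_mul, sub_zero]
    positivity
  have hLne : ∀ s ∈ J, inner ℝ e₁ (ψ s) * inner ℝ e₂ (p s) -
      inner ℝ e₂ (ψ s) * inner ℝ e₁ (p s) ≠ 0 := by
    intro s hs h2
    rw [hLf] at h2
    have hr : 0 < (inner ℝ f₁ (ψ s)) ^ 2 + (inner ℝ f₂ (ψ s)) ^ 2 := by
      rw [← hsq s hs]
      have := norm_pos_iff.2 (hne s hs)
      positivity
    obtain ⟨a, ha⟩ : ∃ r : ℝ, r = inner ℝ f₁ (ψ s) := ⟨_, rfl⟩
    obtain ⟨b, hb⟩ : ∃ r : ℝ, r = inner ℝ f₂ (ψ s) := ⟨_, rfl⟩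
    obtain ⟨a', ha'⟩ : ∃ r : ℝ, r = inner ℝ f₁ (p s) := ⟨_, rfl⟩
    obtain ⟨b', hb'⟩ : ∃ r : ℝ, r = inner ℝ f₂ (p s) := ⟨_, rfl⟩
    have k1 := dψ s hs
    have k2 := dp s hs
    rw [← ha, ← hb] at k1 hr h2
    rw [← ha', ← hb'] at k2 h2
    refine no_radial_of_EL hELall he he1 h hEL (hne s hs) (c := (a * a' + b * b') / (a ^ 2 + b ^ 2)) ?_
    have w1 : a' = (a * a' + b * b') / (a ^ 2 + b ^ 2) * a := by
      field_simp
      linear_combination (-b) * h2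
    have w2 : b' = (a * a' + b * b') / (a ^ 2 + b ^ 2) * b := by
      field_simp
      linear_combination a * h2
    calc p s = a' • f₁ + b' • f₂ := k2
      _ = ((a * a' + b * b') / (a ^ 2 + b ^ 2) * a) • f₁ +
          ((a * a' + b * b') / (a ^ 2 + b ^ 2) * b) • f₂ := by rw [← w1, ← w2]
      _ = ((a * a' + b * b') / (a ^ 2 + b ^ 2)) • (a • f₁ + b • f₂) := by
          rw [smul_add, smul_smul, smul_smul]
      _ = ((a * a' + b * b') / (a ^ 2 + b ^ 2)) • ψ s := by rw [← k1]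
  have hdx : ∀ (u : (E4 nd)), ∀ t ∈ J, HasDerivAt (fun t => inner ℝ u (ψ t)) (inner ℝ u (p t)) t :=
    fun u t ht => (innerSL ℝ u).hasFDerivAt.comp_hasDerivAt t (hEL t (hne t ht)).1
  have hdp : ∀ (u : (E4 nd)), ∀ t ∈ J, HasDerivAt (fun t => inner ℝ u (p t))
      (inner ℝ u (force e μ (ψ t))) t :=
    fun u t ht => (innerSL ℝ u).hasFDerivAt.comp_hasDerivAt t (hEL t (hne t ht)).2
  have hL : ∀ t ∈ J, 0 < inner ℝ e₁ (ψ t) * inner ℝ e₂ (p t) - inner ℝ e₂ (ψ t) * inner ℝ e₁ (p t) := by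
    intro t ht
    by_contra hneg
    push Not at hneg
    have hc : ContinuousOn (fun t => inner ℝ e₁ (ψ t) * inner ℝ e₂ (p t) -
        inner ℝ e₂ (ψ t) * inner ℝ e₁ (p t)) (uIcc s₁ t) := by
      intro r hr
      have hrJ := hJ.uIcc_subset h1 ht hr
      exact (((hdx e₁ r hrJ).continuousAt.mul (hdp e₂ r hrJ).continuousAt).sub
        ((hdx e₂ r hrJ).continuousAt.mul (hdp e₁ r hrJ).continuousAt)).continuousWithinAt
    obtain ⟨z, hz, hz0⟩ := intermediate_value_uIcc hc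
      (show (0:ℝ) ∈ uIcc _ _ from mem_uIcc.2 (Or.inr ⟨hneg, hL1.le⟩))
    exact hLne z (hJ.uIcc_subset h1 ht hz) hz0
  refine ⟨e₁, e₂, m, ⟨hn1, hm, hnorm, ⟨hdx e₁, hdx e₂, ?_, ?_, hL⟩⟩, ?_⟩
  · intro t ht
    refine (hdp e₁ t ht).congr_deriv ?_
    rw [inner_force, hμ1, hμψ t, ← hnorm t ht]
    have hr := norm_pos_iff.2 (hne t ht)
    have h2 := hsq' t ht
    field_simp
    linear_combination m * h2
  · intro t ht
    refine (hdp e₂ t ht).congr_deriv ?_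
    rw [inner_force, hμ2, hμψ t, ← hnorm t ht]
    have hr := norm_pos_iff.2 (hne t ht)
    field_simp
    ring
  · intro hm0
    obtain ⟨hc1, hd0⟩ := h0 hm0
    rw [i1, i2, hc1, hd0, q1, q2]
    constructor
    · ring
    · linarith

/-- The final estimate around a point of maximal angular momentum. -/
lemma finish {ψ g p : ℝ → (E4 nd)} {e : ℝ} (he : 0 < e) (he1 : e < 1) (h : IsMin ψ g e)
    (hcont : Continuous ψ) {J : Set ℝ} {e₁ e₂ : (E4 nd)} {m : ℝ} (F : Frame ψ p e J e₁ e₂ m)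
    {A₀ B₀ s₀ : ℝ} (hsub : Ioo A₀ B₀ ⊆ J) (hA : A₀ < s₀) (hB : s₀ < B₀)
    (yA : inner ℝ e₂ (ψ A₀) = 0) (yB : inner ℝ e₂ (ψ B₀) = 0) (y0 : inner ℝ e₂ (ψ s₀) = 0)
    (x0 : 0 < inner ℝ e₁ (ψ s₀)) (hxA : A₀ ∈ J ∨ ψ A₀ = 0) (hxB : B₀ ∈ J ∨ ψ B₀ = 0)
    (hlen : ∀ a b, a ∈ Ico A₀ s₀ → b ∈ Ioc s₀ B₀ → inner ℝ e₂ (ψ a) = 0 →
      (∀ t ∈ Ioo s₀ b, 0 < inner ℝ e₂ (ψ t)) → inner ℝ e₁ (ψ a) ≤ 0 → b ≤ a + 2 * Real.pi) :
    False := by
  have hs₀ : s₀ ∈ J := hsub ⟨hA, hB⟩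
  have P := F.pl
  have cx : ∀ u : (E4 nd), Continuous fun t => inner ℝ u (ψ t) := fun u => continuous_const.inner hcont
  have hL0 := P.L s₀ hs₀
  simp only [y0, zero_mul, sub_zero] at hL0
  have hv0 : 0 < inner ℝ e₂ (p s₀) := (mul_pos_iff_of_pos_left x0).1 hL0
  obtain ⟨b, hb, hyb, hpos⟩ := first_zero (f := fun t => inner ℝ e₂ (ψ t)) (cx e₂).continuousOn hB
    (pos_right (P.hy s₀ hs₀) hv0 y0) yB
  obtain ⟨a, ha, hya, hneg⟩ := last_zero (f := fun t => inner ℝ e₂ (ψ t)) (cx e₂).continuousOn hA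
    (neg_left (P.hy s₀ hs₀) hv0 y0) yA
  have hbJ : b ∈ J ∨ ψ b = 0 := by
    rcases lt_or_eq_of_le hb.2 with h1 | h1
    · exact Or.inl (hsub ⟨by linarith [hb.1], h1⟩)
    · rw [h1]; exact hxB
  have haJ : a ∈ J ∨ ψ a = 0 := by
    rcases lt_or_eq_of_le ha.1 with h1 | h1
    · exact Or.inl (hsub ⟨h1, by linarith [ha.2]⟩)
    · rw [← h1]; exact hxA
  have hxb : inner ℝ e₁ (ψ b) ≤ 0 := by
    rcases hbJ with h1 | h1
    · exact (P.x_neg_right h1 hyb hb.1 hpos).le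
    · rw [h1, inner_zero_right]
  have hxa : inner ℝ e₁ (ψ a) ≤ 0 := by
    rcases haJ with h1 | h1
    · exact (P.x_neg_left h1 hya ha.2 hneg).le
    · rw [h1, inner_zero_right]
  have hba := hlen a b ha hb hya hpos hxa
  have hJab : ∀ t ∈ Ioo a b, t ∈ J := fun t ht =>
    hsub ⟨by linarith [ht.1, ha.1], by linarith [ht.2, hb.2]⟩
  have hw : 0 < Real.sqrt e := Real.sqrt_pos.2 he
  have hw2 : Real.sqrt e ^ 2 = e := Real.sq_sqrt he.le
  have k1 := arc_bound (w := Real.sqrt e) (μ := m) hw F.m0 ha.2 hb.1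
    (fun t ht => P.hx t (hJab t ht)) (fun t ht => P.hy t (hJab t ht))
    (fun t ht => by rw [hw2]; exact P.hvx t (hJab t ht))
    (fun t ht => by rw [hw2]; exact P.hvy t (hJab t ht))
    (cx e₁).continuousOn (cx e₂).continuousOn (fun t ht => P.L t (hJab t ht)) y0 x0 hpos hneg
    hya hyb hxa hxb
  have hab : a ≤ b := by linarith [ha.2, hb.1]
  have hne : ∀ t ∈ Ioo a b, ψ t ≠ 0 := by
    intro t ht h0
    have := P.r_pos (hJab t ht)
    simp [h0] at this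
  have k2 := adm_interval hcont h.loop.per h.adm F.n1 hab hba hne
  have k3 : ∫ t in a..b, (1 + inner ℝ e₁ (ψ t) /
      Real.sqrt ((inner ℝ e₁ (ψ t)) ^ 2 + (inner ℝ e₂ (ψ t)) ^ 2)) =
      ∫ s in a..b, (1 + inner ℝ e₁ (ψ s) / ‖ψ s‖) := by
    refine intervalIntegral.integral_congr_ae (Eventually.of_forall fun t ht => ?_)
    rw [uIoc_of_le hab] at ht
    rcases lt_or_eq_of_le ht.2 with h1 | h1
    · rw [F.norm t (hJab t ⟨ht.1, h1⟩)]
    · rw [h1]
      rcases hbJ with h2 | h2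
      · rw [F.norm b h2]
      · rw [h2]
        simp
  have k4 : 2 * Real.pi / Real.sqrt e ≤ 2 * Real.pi := by
    refine le_trans k1 ?_
    rw [k3]
    exact k2
  have hw1 : Real.sqrt e < 1 := by
    rw [Real.sqrt_lt' one_pos]
    simpa using he1
  have hpi := Real.pi_pos
  rw [div_le_iff₀ hw] at k4
  nlinarith

end NoMinAux

open NoMinAux in
/-- M6. There is no minimiser below one (given the Euler-Lagrange equation). -/
theorem no_isMin_of_EL (hELall : ∀ (ψ g : ℝ → (E4 nd)) (e : ℝ), 0 < e → IsMin ψ g e →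
    ∃ (p : ℝ → (E4 nd)) (μ : (E4 nd)), EL ψ p e μ) {ψ g : ℝ → (E4 nd)} {e : ℝ} (he : 0 < e) (he1 : e < 1) (h : IsMin ψ g e) :
    False := by
  have hcont := h.loop.continuous
  have hper := h.loop.per
  have hpi := Real.pi_pos
  obtain ⟨p, μ, hEL⟩ := hELall ψ g e he h
  obtain ⟨s₁, h1⟩ : ∃ s, ψ s ≠ 0 := by
    by_contra hcon
    push Not at hcon
    have : Mass ψ = 0 := by
      unfold Mass
      simp [hcon]
    linarith [h.pos]
  rcases lobe_exists hcont hper h1 with hall | ⟨α, β, hα, hβ, hβα, zα, zβ, hne⟩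
  · -- no zeros
    obtain ⟨e₁, e₂, m, F, hm⟩ := frame_exists hELall he he1 h hEL (J := univ) ordConnected_univ
      (fun s _ => hall s) (mem_univ s₁)
    have P := F.pl
    have hpper : ∀ s, p (s + 2 * Real.pi) = p s := by
      intro s
      have k1 := (hEL (s + 2 * Real.pi) (hall _)).1.comp_add_const s (2 * Real.pi)
      have k2 : (fun s => ψ (s + 2 * Real.pi)) = ψ := funext hper
      rw [k2] at k1
      exact k1.unique (hEL s (hall s)).1
    -- the point of maximal angular momentum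
    obtain ⟨s₀, hy0, hx0⟩ : ∃ s₀, inner ℝ e₂ (ψ s₀) = 0 ∧ 0 < inner ℝ e₁ (ψ s₀) := by
      rcases F.m0.lt_or_eq with hm0 | hm0
      · set L : ℝ → ℝ := fun t => inner ℝ e₁ (ψ t) * inner ℝ e₂ (p t) -
          inner ℝ e₂ (ψ t) * inner ℝ e₁ (p t) with hL
        have hLc : Continuous L := continuous_iff_continuousAt.2 fun t =>
          (P.hasDerivAt_L (mem_univ t)).continuousAt
        have hLp : Function.Periodic L (2 * Real.pi) := by
          intro t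
          simp only [hL, hper t, hpper t]
        obtain ⟨s₀, -, hs₀⟩ := (isCompact_Icc (a := (0:ℝ)) (b := 2 * Real.pi)).exists_isMaxOn
          ⟨0, ⟨le_rfl, by positivity⟩⟩ hLc.continuousOn
        refine ⟨s₀, P.max_point hm0 univ_mem (mem_univ _) fun t _ => ?_⟩
        obtain ⟨z, hz, hz2⟩ := hLp.exists_mem_Ico₀ (by positivity) t
        have h2 := hs₀ (Ico_subset_Icc_self hz)
        have h3 : L t = L z := hz2
        have h4 : L z ≤ L s₀ := h2
        have h5 : L t ≤ L s₀ := by rw [h3]; exact h4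
        exact h5
      · obtain ⟨h2, h3⟩ := hm hm0.symm
        exact ⟨s₁, h2, h3⟩
    have hψm : ψ (s₀ - 2 * Real.pi) = ψ s₀ := by
      have := hper (s₀ - 2 * Real.pi)
      rw [sub_add_cancel] at this
      exact this.symm
    refine finish he he1 h hcont F (A₀ := s₀ - 2 * Real.pi) (B₀ := s₀ + 2 * Real.pi)
      (subset_univ _) (by linarith) (by linarith) ?_ ?_ hy0 hx0 (Or.inl (mem_univ _))
      (Or.inl (mem_univ _)) ?_
    · rw [hψm]; exact hy0
    · rw [hper s₀]; exact hy0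
    · intro a b ha hb hya hpos hxa
      by_contra hcon
      push Not at hcon
      have h2 : s₀ < a + 2 * Real.pi := by
        rcases lt_or_eq_of_le ha.1 with h3 | h3
        · linarith
        · exfalso
          rw [← h3, hψm] at hxa
          linarith
      have h3 := hpos (a + 2 * Real.pi) ⟨h2, hcon⟩
      rw [hper a, hya] at h3
      exact lt_irrefl _ h3
  · -- a lobe
    obtain ⟨e₁, e₂, m, F, hm⟩ := frame_exists hELall he he1 h hEL (J := Ioo α β) ordConnected_Ioo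
      hne ⟨hα, hβ⟩
    have P := F.pl
    obtain ⟨C, hC⟩ := P.bounded isOpen_Ioo isPreconnected_Ioo he F.m0
    set L : ℝ → ℝ := fun t => inner ℝ e₁ (ψ t) * inner ℝ e₂ (p t) -
      inner ℝ e₂ (ψ t) * inner ℝ e₁ (p t) with hL
    have hL1 : 0 < L s₁ := P.L s₁ ⟨hα, hβ⟩
    have hLC : ∀ t ∈ Ioo α β, L t ^ 2 ≤ C * ‖ψ t‖ ^ 2 := by
      intro t ht
      have h2 := hC t ht
      have h3 := F.norm t ht
      have h4 : ‖ψ t‖ ^ 2 = (inner ℝ e₁ (ψ t)) ^ 2 + (inner ℝ e₂ (ψ t)) ^ 2 := by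
        rw [h3, Real.sq_sqrt (by positivity)]
      rw [h4]
      simp only [hL]
      nlinarith [sq_nonneg (inner ℝ e₁ (ψ t) * inner ℝ e₁ (p t) +
        inner ℝ e₂ (ψ t) * inner ℝ e₂ (p t)), sq_nonneg (inner ℝ e₁ (ψ t)),
        sq_nonneg (inner ℝ e₂ (ψ t))]
    -- near the ends the angular momentum is small
    have hsmall : ∀ z, ψ z = 0 → ∀ᶠ t in 𝓝 z, C * ‖ψ t‖ ^ 2 < L s₁ ^ 2 := by
      intro z hz
      have hc : Tendsto (fun t => C * ‖ψ t‖ ^ 2) (𝓝 z) (𝓝 (C * ‖ψ z‖ ^ 2)) :=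
        (continuous_const.mul (hcont.norm.pow 2)).tendsto z
      refine hc.eventually (gt_mem_nhds ?_)
      rw [hz]
      simp only [norm_zero, ne_eq, OfNat.ofNat_ne_zero, not_false_eq_true, zero_pow, mul_zero]
      positivity
    have hlt : ∀ t ∈ Ioo α β, C * ‖ψ t‖ ^ 2 < L s₁ ^ 2 → L t < L s₁ := by
      intro t ht h2
      have h3 := hLC t ht
      exact lt_of_pow_lt_pow_left₀ 2 hL1.le (lt_of_le_of_lt h3 h2)
    obtain ⟨α', hα', hαs⟩ := (mem_nhdsGT_iff_exists_Ioo_subset.1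
      (mem_nhdsWithin_of_mem_nhds (hsmall α zα)))
    obtain ⟨β', hβ', hβs⟩ := (mem_nhdsLT_iff_exists_Ioo_subset.1
      (mem_nhdsWithin_of_mem_nhds (hsmall β zβ)))
    have hα'' : α < α' := hα'
    have hβ'' : β' < β := hβ'
    rcases F.m0.lt_or_eq with hm0 | hm0
    · -- the maximum
      set a₁ : ℝ := (α + min α' s₁) / 2 with ha₁
      set b₁ : ℝ := (β + max β' s₁) / 2 with hb₁
      have hmin : α < min α' s₁ := lt_min hα'' hα
      have hmax : max β' s₁ < β := max_lt hβ'' hβ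
      have c1 : α < a₁ := by rw [ha₁]; linarith
      have c2 : a₁ < min α' s₁ := by rw [ha₁]; linarith
      have c3 : max β' s₁ < b₁ := by rw [hb₁]; linarith
      have c4 : b₁ < β := by rw [hb₁]; linarith
      have c5 : a₁ < s₁ := lt_of_lt_of_le c2 (min_le_right _ _)
      have c6 : s₁ < b₁ := lt_of_le_of_lt (le_max_right _ _) c3
      have c7 : a₁ < α' := lt_of_lt_of_le c2 (min_le_left _ _)
      have c8 : β' < b₁ := lt_of_le_of_lt (le_max_left _ _) c3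
      have hLc : ContinuousOn L (Icc a₁ b₁) := fun t ht =>
        (P.hasDerivAt_L (t := t) ⟨by linarith [ht.1], by linarith [ht.2]⟩).continuousAt.continuousWithinAt
      obtain ⟨s₀, hs₀, hs₀m⟩ := (isCompact_Icc (a := a₁) (b := b₁)).exists_isMaxOn
        ⟨s₁, ⟨c5.le, c6.le⟩⟩ hLc
      have hs₀J : s₀ ∈ Ioo α β := ⟨by linarith [hs₀.1], by linarith [hs₀.2]⟩
      have hge : L s₁ ≤ L s₀ := hs₀m ⟨c5.le, c6.le⟩
      have hmx : ∀ t ∈ Ioo α β, L t ≤ L s₀ := by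
        intro t ht
        rcases lt_or_ge t a₁ with h2 | h2
        · have := hlt t ht (hαs ⟨ht.1, by linarith⟩)
          linarith
        · rcases lt_or_ge b₁ t with h3 | h3
          · have := hlt t ht (hβs ⟨by linarith, ht.2⟩)
            linarith
          · exact hs₀m ⟨h2, h3⟩
      obtain ⟨hy0, hx0⟩ := P.max_point hm0 (isOpen_Ioo.mem_nhds hs₀J) hs₀J hmx
      refine finish he he1 h hcont F (A₀ := α) (B₀ := β) subset_rfl hs₀J.1 hs₀J.2
        (by rw [zα, inner_zero_right]) (by rw [zβ, inner_zero_right]) hy0 hx0 (Or.inr zα)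
        (Or.inr zβ) ?_
      intro a b ha hb _ _ _
      linarith [ha.1, hb.2]
    · -- constant angular momentum
      have hconst : ∀ t ∈ Ioo α β, L t = L s₁ := by
        intro t ht
        refine isOpen_Ioo.is_const_of_deriv_eq_zero isPreconnected_Ioo
          (fun t ht => (P.hasDerivAt_L ht).differentiableAt.differentiableWithinAt)
          (fun t ht => ?_) ht ⟨hα, hβ⟩
        have := (P.hasDerivAt_L ht).deriv
        rw [← hm0, zero_mul, zero_div, neg_zero] at this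
        exact this
      set t₀ : ℝ := (α + min α' β) / 2 with ht₀
      have hmin : α < min α' β := lt_min hα'' (by linarith)
      have c1 : α < t₀ := by rw [ht₀]; linarith
      have c2 : t₀ < min α' β := by rw [ht₀]; linarith
      have c3 : t₀ < α' := lt_of_lt_of_le c2 (min_le_left _ _)
      have c4 : t₀ < β := lt_of_lt_of_le c2 (min_le_right _ _)
      have h2 := hlt t₀ ⟨c1, c4⟩ (hαs ⟨c1, c3⟩)
      rw [hconst t₀ ⟨c1, c4⟩] at h2
      exact lt_irrefl _ h2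

end Ovals2801ND
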