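import Pool.Agent.Lib.Ovals2801ND.Exists
import Pool.Agent.Lib.Ovals2801ND.EulerLagrange
import Pool.Agent.Lib.Ovals2801ND.NoMinCore
import Mathlib.MeasureTheory.Integral.IntervalIntegral.AbsolutelyContinuousFun
import Mathlib.Analysis.Calculus.FDeriv.Measurable
import Mathlib.Analysis.Calculus.Deriv.Abs

/-!
# The ovals inequality in all dimensions and for curves of class `W^{2,2}`
-/

open MeasureTheory Set Filter Topology

namespace Ovals2801ND

open Ovals2801

variable {nd : ℕ}

/-- There is no minimiser below one. -/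
theorem no_isMin {ψ g : ℝ → (E4 nd)} {e : ℝ} (he : 0 < e) (he1 : e < 1) (h : IsMin ψ g e) :
    False :=
  no_isMin_of_EL (fun _ _ _ he h => isMin_EL he h) he he1 h

/-- The inequality for admissible loops. -/
theorem mass_le_dir {ψ g : ℝ → (E4 nd)} (h : H1Loop ψ g) (ha : Adm ψ) : Mass ψ ≤ Dir g := by
  by_contra hcon
  push Not at hcon
  obtain ⟨ψ', g', e, he, he1, hm⟩ := exists_isMin h ha hcon
  exact no_isMin he he1 hm

section ac

variable {X : Type*} [NormedAddCommGroup X]

/-- Comparison for absolute continuity. -/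
theorem ac_of_dist_le {Y : Type*} [PseudoMetricSpace Y] {f : ℝ → X} {h : ℝ → Y} {a b : ℝ}
    (hf : AbsolutelyContinuousOnInterval f a b)
    (hle : ∀ x ∈ uIcc a b, ∀ y ∈ uIcc a b, dist (h x) (h y) ≤ dist (f x) (f y)) :
    AbsolutelyContinuousOnInterval h a b := by
  rw [absolutelyContinuousOnInterval_iff] at hf ⊢
  intro ε hε
  obtain ⟨δ, hδ, hδ'⟩ := hf ε hε
  refine ⟨δ, hδ, fun E hE hlen => ?_⟩
  refine lt_of_le_of_lt (Finset.sum_le_sum fun i hi => ?_) (hδ' E hE hlen)
  have h1 := hE.1 i hi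
  exact hle _ h1.1 _ h1.2

variable {V : Type*} [NormedAddCommGroup V] [NormedSpace ℝ V]

/-- The primitive of an integrable vector function is absolutely continuous. -/
theorem ac_integral {f : ℝ → V} {a b : ℝ} (h : IntervalIntegrable f volume a b) :
    AbsolutelyContinuousOnInterval (fun x => ∫ v in a..x, f v) a b := by
  have h1 := h.norm.absolutelyContinuousOnInterval_intervalIntegral (c := a) (by simp)
  refine ac_of_dist_le h1 fun x hx y hy => ?_
  have hax : IntervalIntegrable f volume a x := h.mono_set (uIcc_subset_uIcc_left hx)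
  have hay : IntervalIntegrable f volume a y := h.mono_set (uIcc_subset_uIcc_left hy)
  rw [dist_eq_norm, dist_eq_norm, intervalIntegral.integral_interval_sub_left hax hay,
    intervalIntegral.integral_interval_sub_left hax.norm hay.norm, Real.norm_eq_abs]
  exact intervalIntegral.norm_integral_le_abs_integral_norm

/-- The fundamental theorem of calculus for absolutely continuous vector functions. -/
theorem ac_ftc [CompleteSpace V] {F : ℝ → V} {a b : ℝ} (hF : AbsolutelyContinuousOnInterval F a b)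
    (hd : ∀ᵐ x, x ∈ uIcc a b → DifferentiableAt ℝ F x)
    (hi : IntervalIntegrable (deriv F) volume a b) :
    ∀ x ∈ uIcc a b, F x - F a = ∫ s in a..x, deriv F s := by
  have h1 : AbsolutelyContinuousOnInterval (fun x => F x - ∫ s in a..x, deriv F s) a b :=
    hF.sub (ac_integral hi)
  have h2 : ∀ᵐ x, x ∈ uIcc a b → HasDerivAt (fun x => F x - ∫ s in a..x, deriv F s) 0 x := by
    filter_upwards [hd, hi.ae_hasDerivAt_integral] with x hx₁ hx₂ hx₃
    have h3 := (hx₁ hx₃).hasDerivAt.sub (hx₂ hx₃ a (by simp))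
    rw [sub_self] at h3
    exact h3
  obtain ⟨C, hC⟩ := h1.const_of_ae_hasDerivAt_zero h2
  intro x hx
  have h4 := hC x hx
  have h5 := hC a (by simp)
  simp only [intervalIntegral.integral_same, sub_zero] at h5
  rw [h5, ← h4]
  abel

end ac

/-- Absolutely continuous curves in Euclidean space are differentiable almost everywhere. -/
theorem ac_ae_diff {m : ℕ} {F : ℝ → EuclideanSpace ℝ (Fin m)} {a b : ℝ}
    (hF : AbsolutelyContinuousOnInterval F a b) :
    ∀ᵐ x, x ∈ uIcc a b → DifferentiableAt ℝ F x := by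
  have h1 : ∀ i : Fin m, ∀ᵐ x, x ∈ uIcc a b → DifferentiableAt ℝ (fun s => F s i) x := by
    intro i
    have h2 : AbsolutelyContinuousOnInterval (fun s => F s i) a b := by
      refine ac_of_dist_le hF fun x _ y _ => ?_
      rw [dist_eq_norm, dist_eq_norm]
      exact PiLp.norm_apply_le (F x - F y) i
    exact h2.ae_differentiableAt
  rw [← ae_all_iff] at h1
  filter_upwards [h1] with x hx hxm
  rw [differentiableAt_euclidean]
  exact fun i => hx i hxm

/-- The derivative of the absolute value of an absolutely continuous function. -/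
theorem ac_abs_deriv {φ : ℝ → ℝ} {a b : ℝ} (hφ : AbsolutelyContinuousOnInterval φ a b) :
    ∀ᵐ x, x ∈ uIcc a b → ∃ d : ℝ, HasDerivAt (fun s => |φ s|) d x ∧ d ^ 2 = (deriv φ x) ^ 2 := by
  have h1 : AbsolutelyContinuousOnInterval (fun s => |φ s|) a b := by
    refine ac_of_dist_le hφ fun x _ y _ => ?_
    rw [Real.dist_eq, Real.dist_eq]
    exact abs_abs_sub_abs_le_abs_sub (φ x) (φ y)
  filter_upwards [hφ.ae_differentiableAt, h1.ae_differentiableAt] with x hx₁ hx₂ hx
  have hd := (hx₁ hx).hasDerivAt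
  have hda := (hx₂ hx).hasDerivAt
  refine ⟨deriv (fun s => |φ s|) x, hda, ?_⟩
  by_cases h0 : φ x = 0
  · have hmin : IsLocalMin (fun s => |φ s|) x := by
      filter_upwards with y
      simp [h0]
    have h3 : deriv (fun s => |φ s|) x = 0 := hmin.deriv_eq_zero
    have h4 : HasDerivAt φ 0 x := by
      rw [h3] at hda
      rw [hasDerivAt_iff_isLittleO] at hda ⊢
      simp only [h0, abs_zero, sub_zero, smul_zero] at hda ⊢
      exact Asymptotics.IsLittleO.of_norm_left hda
    rw [h3, h4.deriv]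
  · have h5 : HasDerivAt (fun s => |φ s|) (SignType.sign (φ x) * deriv φ x) x := 
      (hasDerivAt_abs h0).comp x hd
    rw [h5.deriv, mul_pow]
    rcases lt_or_gt_of_ne h0 with h | h
    · simp [sign_neg h]
    · simp [sign_pos h]

/-- The embedding of `ℝⁿ` into `ℝⁿ⁺⁴`. -/
noncomputable def iotaL (n : ℕ) : EuclideanSpace ℝ (Fin n) →ₗ[ℝ] (E4 n) where
  toFun v := WithLp.toLp 2 (Fin.append (fun i => v i) (fun _ : Fin 4 => (0:ℝ)))
  map_add' v w := by
    ext i
    refine Fin.addCases (fun i => ?_) (fun i => ?_) i <;> simp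
  map_smul' c v := by
    ext i
    refine Fin.addCases (fun i => ?_) (fun i => ?_) i <;> simp

theorem norm_iotaL {n : ℕ} (v : EuclideanSpace ℝ (Fin n)) : ‖iotaL n v‖ = ‖v‖ := by
  rw [EuclideanSpace.norm_eq, EuclideanSpace.norm_eq]
  congr 1
  rw [Fin.sum_univ_add]
  simp [iotaL]

/-- The isometric embedding of `ℝⁿ` into `ℝⁿ⁺⁴`. -/
noncomputable def iota (n : ℕ) : EuclideanSpace ℝ (Fin n) →ₗᵢ[ℝ] (E4 n) where
  toLinearMap := iotaL n
  norm_map' := norm_iotaL


theorem periodic_deriv' {V : Type*} [NormedAddCommGroup V] [NormedSpace ℝ V] {f : ℝ → V} {c : ℝ}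
    (h : Function.Periodic f c) : Function.Periodic (deriv f) c := fun s => by
  have h1 : (fun x => f (x + c)) = f := funext h
  have h2 := deriv_comp_add_const f c s
  rw [h1] at h2
  exact h2.symm

/-- **The ovals inequality in all dimensions.** -/
theorem ovals_nd {n : ℕ} {γ : ℝ → EuclideanSpace ℝ (Fin n)} (hγ : ContDiff ℝ 1 γ)
    (hper : Function.Periodic γ (2 * Real.pi)) (hunit : ∀ s : ℝ, ‖deriv γ s‖ = 1)
    (hac : AbsolutelyContinuousOnInterval (deriv γ) 0 (2 * Real.pi))
    (hk : IntervalIntegrable (fun s => ‖deriv (deriv γ) s‖ ^ 2) volume 0 (2 * Real.pi))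
    {φ : ℝ → ℝ} (hφper : Function.Periodic φ (2 * Real.pi))
    (hφac : AbsolutelyContinuousOnInterval φ 0 (2 * Real.pi))
    (hφ2 : IntervalIntegrable (fun s => (deriv φ s) ^ 2) volume 0 (2 * Real.pi)) :
    (∫ s in (0 : ℝ)..(2 * Real.pi), (φ s) ^ 2) ≤
      ∫ s in (0 : ℝ)..(2 * Real.pi),
        ((deriv φ s) ^ 2 + ‖deriv (deriv γ) s‖ ^ 2 * (φ s) ^ 2) := by
  have hpi : (0:ℝ) < 2 * Real.pi := two_pi_pos'
  set T := deriv γ with hT
  have hTper : Function.Periodic T (2 * Real.pi) := periodic_deriv' hper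
  have hTcont : Continuous T := hγ.continuous_deriv le_rfl
  set ψ : ℝ → E4 n := fun s => |φ s| • iota n (T s) with hψ
  have hιT : AbsolutelyContinuousOnInterval (fun s => iota n (T s)) 0 (2 * Real.pi) :=
    ac_of_dist_le hac fun x _ y _ => ((iota n).isometry.dist_eq _ _).le
  have habs : AbsolutelyContinuousOnInterval (fun s => |φ s|) 0 (2 * Real.pi) := by
    refine ac_of_dist_le hφac fun x _ y _ => ?_
    rw [Real.dist_eq, Real.dist_eq]
    exact abs_abs_sub_abs_le_abs_sub (φ x) (φ y)
  have hψac : AbsolutelyContinuousOnInterval ψ 0 (2 * Real.pi) := habs.smul hιT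
  have hψper : Function.Periodic ψ (2 * Real.pi) := fun s => by
    simp only [hψ, hφper s, hTper s]
  have hnorm : ∀ s, ‖ψ s‖ = |φ s| := fun s => by
    rw [hψ]
    simp only
    rw [norm_smul, (iota n).norm_map, hunit s, mul_one, Real.norm_eq_abs, abs_abs]
  have hae : ∀ᵐ x, x ∈ uIcc 0 (2 * Real.pi) → DifferentiableAt ℝ ψ x ∧
      ‖deriv ψ x‖ ^ 2 = (deriv φ x) ^ 2 + ‖deriv T x‖ ^ 2 * (φ x) ^ 2 := by
    filter_upwards [ac_abs_deriv hφac, ac_ae_diff hac] with x hx₁ hx₂ hx
    obtain ⟨d, hd, hd2⟩ := hx₁ hx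
    have hTd := (hx₂ hx).hasDerivAt
    have h1 : HasDerivAt (fun s => iota n (T s)) (iota n (deriv T x)) x :=
      (iota n).toContinuousLinearMap.hasFDerivAt.comp_hasDerivAt x hTd
    have h2 : HasDerivAt ψ (|φ x| • iota n (deriv T x) + d • iota n (T x)) x := hd.smul h1
    refine ⟨h2.differentiableAt, ?_⟩
    have h3 : HasDerivAt (fun s => ‖T s‖ ^ 2) (2 * inner ℝ (T x) (deriv T x)) x := hTd.norm_sq
    have h4 : (fun s => ‖T s‖ ^ 2) = fun _ => (1:ℝ) := by
      funext s
      rw [hunit s, one_pow]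
    rw [h4] at h3
    have h5 : inner ℝ (T x) (deriv T x) = 0 := by
      have := h3.unique (hasDerivAt_const x (1:ℝ))
      linarith
    rw [h2.deriv, norm_add_sq_real, norm_smul, norm_smul, inner_smul_left, inner_smul_right,
      (iota n).norm_map, (iota n).norm_map, (iota n).inner_map_map, real_inner_comm, h5, hunit x,
      ← hd2, Real.norm_eq_abs, Real.norm_eq_abs, abs_abs, mul_one, sq_abs, mul_pow, sq_abs]
    ring
  have hφc : ContinuousOn φ (uIcc 0 (2 * Real.pi)) := hφac.continuousOn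
  have hsq0 : IntervalIntegrable (fun s => (deriv φ s) ^ 2 + ‖deriv T s‖ ^ 2 * (φ s) ^ 2) volume
      0 (2 * Real.pi) := hφ2.add (hk.mul_continuousOn (hφc.pow 2))
  have haer : ∀ᵐ x ∂(volume.restrict (uIoc 0 (2 * Real.pi))),
      (deriv φ x) ^ 2 + ‖deriv T x‖ ^ 2 * (φ x) ^ 2 = ‖deriv ψ x‖ ^ 2 := by
    rw [ae_restrict_iff' measurableSet_uIoc]
    filter_upwards [hae] with x hx h
    exact (hx (uIoc_subset_uIcc h)).2.symm
  have hsq : IntervalIntegrable (fun s => ‖deriv ψ s‖ ^ 2) volume 0 (2 * Real.pi) :=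
    hsq0.congr_ae haer
  have hmeas : AEStronglyMeasurable (deriv ψ) (volume : Measure ℝ) :=
    (stronglyMeasurable_deriv ψ).aestronglyMeasurable
  have hint : IntervalIntegrable (deriv ψ) volume 0 (2 * Real.pi) :=
    intervalIntegrable_of_sq hmeas hsq
  have hloop : H1Loop ψ (deriv ψ) := by
    refine H1Loop.of_period 0 hψper (periodic_deriv' hψper) hmeas (by rwa [zero_add]) ?_
    intro b hb
    rw [zero_add] at hb
    refine ac_ftc hψac ?_ hint b (by rwa [uIcc_of_le hpi.le])
    filter_upwards [hae] with x hx h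
    exact (hx h).1
  have hψc : Continuous ψ := hloop.continuous
  have hadm : Adm ψ := by
    unfold Adm
    have hZ : MeasurableSet {s | ψ s = 0} := (isClosed_singleton.preimage hψc).measurableSet
    have h1 : ∀ s, ‖ψ s‖⁻¹ • ψ s =
        iota n (T s) - ({s | ψ s = 0}).indicator (fun s => iota n (T s)) s := by
      intro s
      by_cases h0 : ψ s = 0
      · rw [indicator_of_mem (show s ∈ {s | ψ s = 0} from h0), h0, smul_zero, sub_self]
      · rw [indicator_of_notMem (show s ∉ {s | ψ s = 0} from h0), sub_zero, hnorm s]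
        have h2 : |φ s| ≠ 0 := by
          rw [← hnorm s]
          exact norm_ne_zero_iff.2 h0
        simp only [hψ]
        rw [smul_smul, inv_mul_cancel₀ h2, one_smul]
    simp only [h1]
    have hι : Continuous (fun s => iota n (T s)) := (iota n).continuous.comp hTcont
    have h2 : (∫ s in (0:ℝ)..(2 * Real.pi), iota n (T s)) =
        iota n (∫ s in (0:ℝ)..(2 * Real.pi), T s) :=
      (iota n).toContinuousLinearMap.intervalIntegral_comp_comm (hTcont.intervalIntegrable _ _)
    have h3 : (∫ s in (0:ℝ)..(2 * Real.pi), T s) = 0 := by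
      rw [intervalIntegral.integral_eq_sub_of_hasDerivAt
        (fun s _ => ((hγ.differentiable one_ne_zero) s).hasDerivAt)
        (hTcont.intervalIntegrable _ _)]
      have := hper 0
      rw [zero_add] at this
      rw [this, sub_self]
    have h4 : IntervalIntegrable (({s | ψ s = 0}).indicator (fun s => iota n (T s))) volume 0
        (2 * Real.pi) := by
      have := (hι.intervalIntegrable 0 (2 * Real.pi) (μ := volume))
      rw [intervalIntegrable_iff] at this ⊢
      exact this.indicator hZ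
    rw [intervalIntegral.integral_sub (hι.intervalIntegrable _ _) h4, h2, h3, map_zero, zero_sub,
      norm_neg, intervalIntegral.integral_of_le hpi.le, setIntegral_indicator hZ]
    have h5 : {s ∈ Ioc (0:ℝ) (2 * Real.pi) | ψ s = 0} = Ioc 0 (2 * Real.pi) ∩ {s | ψ s = 0} := rfl
    rw [h5]
    have h6 : volume (Ioc (0:ℝ) (2 * Real.pi) ∩ {s | ψ s = 0}) < ⊤ :=
      lt_of_le_of_lt (measure_mono inter_subset_left) measure_Ioc_lt_top
    have h7 := norm_setIntegral_le_of_norm_le_const (C := 1) h6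
      (fun s _ => show ‖iota n (T s)‖ ≤ 1 by rw [(iota n).norm_map, hunit s])
    rw [one_mul] at h7
    exact h7
  have hfin := mass_le_dir hloop hadm
  have e1 : Mass ψ = ∫ s in (0 : ℝ)..(2 * Real.pi), (φ s) ^ 2 := by
    unfold Mass
    congr 1
    funext s
    rw [hnorm s, sq_abs]
  have e2 : Dir (deriv ψ) = ∫ s in (0 : ℝ)..(2 * Real.pi),
        ((deriv φ s) ^ 2 + ‖deriv T s‖ ^ 2 * (φ s) ^ 2) := by
    unfold Dir
    refine intervalIntegral.integral_congr_ae_restrict ?_
    exact haer.mono fun x hx => hx.symm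
  rw [e1, e2] at hfin
  exact hfin

end Ovals2801ND
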